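import Mathlib
import Pool.Agent.Helper278.TrAlg

set_option autoImplicit false
set_option linter.unusedSectionVars false

open scoped Topology ComplexOrder
open Filter

namespace Pool.Agent.Helper133.SM

open Pool.Agent.Helper278

section

variable {A : Type*} [Ring A] [StarRing A] [Algebra ℂ A] [StarModule ℂ A] {τ : A →ₗ[ℂ] ℂ}

/-- the convex hull of the conjugates of `x` -/
inductive Hull (G : Set A) (x : A) : A → Prop
  | base (y : A) (hy : y ∈ G) : Hull G x (y * x * star y)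
  | conv (a b : A) (s : ℝ) (ha : Hull G x a) (hb : Hull G x b) (h0 : 0 ≤ s) (h1 : s ≤ 1) :
      Hull G x ((s : ℂ) • a + ((1 - s : ℝ) : ℂ) • b)

theorem n2_smul (_h : TrAlg τ) (c : ℂ) (x : A) : n2 τ (c • x) = ‖c‖ * n2 τ x := by
  unfold n2
  have e : star (c • x) * (c • x) = ((‖c‖ ^ 2 : ℝ) : ℂ) • (star x * x) := by
    rw [star_smul, smul_mul_smul_comm]
    congr 1
    rw [Complex.star_def, mul_comm, Complex.mul_conj, Complex.normSq_eq_norm_sq]
  rw [e, map_smul, smul_eq_mul, Complex.re_ofReal_mul, Real.sqrt_mul (sq_nonneg _),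
    Real.sqrt_sq (norm_nonneg _)]

theorem n2_parallel (h : TrAlg τ) (a b : A) :
    n2 τ (a - b) ^ 2 + n2 τ (a + b) ^ 2 = 2 * n2 τ a ^ 2 + 2 * n2 τ b ^ 2 := by
  rw [h.n2_sq, h.n2_sq, h.n2_sq, h.n2_sq]
  have e1 : star (a - b) * (a - b) = star a * a + star b * b - (star a * b + star b * a) := by
    rw [star_sub]; noncomm_ring
  have e2 : star (a + b) * (a + b) = star a * a + star b * b + (star a * b + star b * a) := by
    rw [star_add]; noncomm_ring
  rw [e1, e2]
  simp only [map_sub, map_add, Complex.sub_re, Complex.add_re]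
  ring

theorem n2_conj (h : TrAlg τ) (y x : A) (hy : star y * y = 1) :
    n2 τ (y * x * star y) = n2 τ x := by
  unfold n2
  have e : star (y * x * star y) * (y * x * star y) = y * (star x * x) * star y := by
    rw [star_mul, star_mul, star_star]
    calc y * (star x * star y) * (y * x * star y) = y * star x * (star y * y) * x * star y := by
          noncomm_ring
      _ = y * (star x * x) * star y := by rw [hy]; noncomm_ring
  rw [e, h.comm, ← mul_assoc, hy, one_mul]

theorem hull_conj {G : Set A} (hGm : ∀ y ∈ G, ∀ z ∈ G, y * z ∈ G) {x z : A} (hz : Hull G x z)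
    (y : A) (hy : y ∈ G) : Hull G x (y * z * star y) := by
  induction hz with
  | base w hw =>
    have e : y * (w * x * star w) * star y = (y * w) * x * star (y * w) := by
      rw [star_mul]; noncomm_ring
    rw [e]
    exact Hull.base _ (hGm _ hy _ hw)
  | conv a b s _ _ h0 h1 iha ihb =>
    have e : y * ((s : ℂ) • a + ((1 - s : ℝ) : ℂ) • b) * star y =
        (s : ℂ) • (y * a * star y) + ((1 - s : ℝ) : ℂ) • (y * b * star y) := by
      rw [mul_add, add_mul, mul_smul_comm, mul_smul_comm, smul_mul_assoc, smul_mul_assoc]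
    rw [e]
    exact Hull.conv _ _ s iha ihb h0 h1

theorem hull_ball {B : Set A} (hconv : ∀ a ∈ B, ∀ b ∈ B, ∀ s : ℝ, 0 ≤ s → s ≤ 1 →
      (s : ℂ) • a + ((1 - s : ℝ) : ℂ) • b ∈ B) {G : Set A}
    (hBG : ∀ y ∈ G, ∀ b ∈ B, y * b * star y ∈ B) {x z : A} (hx : x ∈ B) (hz : Hull G x z) :
    z ∈ B := by
  induction hz with
  | base w hw => exact hBG w hw x hx
  | conv a b s _ _ h0 h1 iha ihb => exact hconv _ iha _ ihb s h0 h1

theorem hull_sub (S : Submodule ℂ A) {G : Set A} {x z : A}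
    (hS : ∀ y ∈ G, y * x * star y ∈ S) (hz : Hull G x z) : z ∈ S := by
  induction hz with
  | base w hw => exact hS w hw
  | conv a b s _ _ h0 h1 iha ihb => exact S.add_mem (S.smul_mem _ iha) (S.smul_mem _ ihb)

theorem hull_dist (h : TrAlg τ) {G : Set A} {x z : A} (c : ℝ)
    (hc : ∀ y ∈ G, n2 τ (y * x * star y - x) ≤ c) (hz : Hull G x z) : n2 τ (z - x) ≤ c := by
  induction hz with
  | base w hw => exact hc w hw
  | conv a b s _ _ h0 h1 iha ihb =>
    have e : (s : ℂ) • a + ((1 - s : ℝ) : ℂ) • b - x =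
        (s : ℂ) • (a - x) + ((1 - s : ℝ) : ℂ) • (b - x) := by
      rw [smul_sub, smul_sub]
      have : x = (s : ℂ) • x + ((1 - s : ℝ) : ℂ) • x := by
        rw [← add_smul]
        push_cast
        rw [add_sub_cancel, one_smul]
      calc (s : ℂ) • a + ((1 - s : ℝ) : ℂ) • b - x =
          (s : ℂ) • a + ((1 - s : ℝ) : ℂ) • b - ((s : ℂ) • x + ((1 - s : ℝ) : ℂ) • x) := by
            rw [← this]
        _ = _ := by abel
    rw [e]
    refine (h.n2_add_le _ _).trans ?_
    rw [n2_smul h, n2_smul h, Complex.norm_real, Complex.norm_real, Real.norm_eq_abs,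
      Real.norm_eq_abs, abs_of_nonneg h0, abs_of_nonneg (by linarith : (0 : ℝ) ≤ 1 - s)]
    nlinarith

theorem hull_trace (h : TrAlg τ) {G : Set A} {x z : A} (b : A)
    (hGu : ∀ y ∈ G, star y * y = 1)
    (hb : ∀ y ∈ G, y * b = b * y) (hz : Hull G x z) : τ (z * b) = τ (x * b) := by
  induction hz with
  | base w hw =>
    have h1 : star w * b * w = b := by
      rw [mul_assoc, ← hb w hw, ← mul_assoc, hGu w hw, one_mul]
    calc τ (w * x * star w * b) = τ (w * (x * (star w * b))) := by simp only [mul_assoc]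
      _ = τ (x * (star w * b) * w) := h.comm _ _
      _ = τ (x * (star w * b * w)) := by simp only [mul_assoc]
      _ = τ (x * b) := by rw [h1]
  | conv a c s _ _ h0 h1 iha ihb =>
    rw [add_mul, smul_mul_assoc, smul_mul_assoc, map_add, map_smul, map_smul, iha, ihb,
      ← add_smul]
    push_cast
    rw [add_sub_cancel, one_smul]

/-- Averaging over a semigroup of unitaries. -/
theorem averaging (h : TrAlg τ) {B : Set A}
    (hconv : ∀ a ∈ B, ∀ b ∈ B, ∀ s : ℝ, 0 ≤ s → s ≤ 1 →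
      (s : ℂ) • a + ((1 - s : ℝ) : ℂ) • b ∈ B)
    (hcomp : ∀ x : ℕ → A, (∀ n, x n ∈ B) → (∀ n, n2 τ (x n - x (n + 1)) ≤ (1 / 2) ^ n) →
      ∃ y ∈ B, Tendsto (fun n => n2 τ (x n - y)) atTop (𝓝 0))
    (G : Set A) (hG1 : G.Nonempty) (hGm : ∀ y ∈ G, ∀ z ∈ G, y * z ∈ G)
    (hGu : ∀ y ∈ G, star y * y = 1)
    (hBG : ∀ y ∈ G, ∀ b ∈ B, y * b * star y ∈ B) (x : A) (hx : x ∈ B) :
    ∃ x' ∈ B, (∀ y ∈ G, y * x' * star y = x') ∧
      ∃ z : ℕ → A, (∀ n, Hull G x (z n)) ∧ Tendsto (fun n => n2 τ (z n - x')) atTop (𝓝 0) := by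
  classical
  obtain ⟨y0, hy0⟩ := hG1
  set S : Set ℝ := {r | ∃ z, Hull G x z ∧ n2 τ z ^ 2 = r} with hS
  have hSne : S.Nonempty := ⟨_, _, Hull.base y0 hy0, rfl⟩
  have hSb : BddBelow S := ⟨0, by rintro _ ⟨z, _, rfl⟩; positivity⟩
  set d := sInf S with hd
  have hdle : ∀ z, Hull G x z → d ≤ n2 τ z ^ 2 := fun z hz => csInf_le hSb ⟨z, hz, rfl⟩
  have hex : ∀ n : ℕ, ∃ z, Hull G x z ∧ n2 τ z ^ 2 < d + (1 / 4) ^ n / 4 := by
    intro n
    obtain ⟨_, ⟨z, hz, rfl⟩, hlt⟩ := exists_lt_of_csInf_lt hSne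
      (show sInf S < d + (1 / 4) ^ n / 4 by
        have : (0 : ℝ) < (1 / 4) ^ n / 4 := by positivity
        linarith)
    exact ⟨z, hz, hlt⟩
  choose z hz hzn using hex
  have hpar : ∀ a b, Hull G x a → Hull G x b →
      n2 τ (a - b) ^ 2 ≤ 2 * n2 τ a ^ 2 + 2 * n2 τ b ^ 2 - 4 * d := by
    intro a b ha hb
    have h1 := n2_parallel h a b
    have h2 := hdle _ (Hull.conv a b (1 / 2) ha hb (by norm_num) (by norm_num))
    have e : (((1 / 2 : ℝ)) : ℂ) • a + ((1 - 1 / 2 : ℝ) : ℂ) • b = ((1 / 2 : ℝ) : ℂ) • (a + b) := by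
      rw [smul_add]
      norm_num
    rw [e, n2_smul h, Complex.norm_real, Real.norm_eq_abs,
      abs_of_nonneg (by norm_num : (0 : ℝ) ≤ 1 / 2)] at h2
    nlinarith
  have hzB : ∀ n, z n ∈ B := fun n => hull_ball hconv hBG hx (hz n)
  obtain ⟨x', hx'B, hlim⟩ := hcomp z hzB (by
    intro n
    have h1 := hpar _ _ (hz n) (hz (n + 1))
    have h2 := hzn n
    have h3 := hzn (n + 1)
    rw [pow_succ (1 / 4 : ℝ) n] at h3
    have h4 : n2 τ (z n - z (n + 1)) ^ 2 ≤ ((1 / 2) ^ n) ^ 2 := by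
      have h5 : (((1 : ℝ) / 2) ^ n) ^ 2 = (1 / 4) ^ n := by
        rw [← pow_mul, mul_comm, pow_mul]
        norm_num
      have h6 : (0 : ℝ) < (1 / 4) ^ n := by positivity
      rw [h5]
      nlinarith
    exact (pow_le_pow_iff_left₀ (n2_nonneg _ _) (by positivity) two_ne_zero).1 h4)
  refine ⟨x', hx'B, ?_, z, hz, hlim⟩
  intro y hy
  have hyu := hGu y hy
  -- `y z_n y* - z_n → 0`
  have h1 : Tendsto (fun n => n2 τ (y * z n * star y - z n)) atTop (𝓝 0) := by
    have h2 : ∀ n, n2 τ (y * z n * star y - z n) ≤ Real.sqrt ((1 / 4) ^ n) := by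
      intro n
      apply Real.le_sqrt_of_sq_le
      have h3 := hpar _ _ (hull_conj hGm (hz n) y hy) (hz n)
      rw [n2_conj h y _ hyu] at h3
      have := hzn n
      nlinarith
    have h3 : Tendsto (fun n : ℕ => Real.sqrt (((1 : ℝ) / 4) ^ n)) atTop (𝓝 0) := by
      have := (Real.continuous_sqrt.tendsto 0).comp
        (tendsto_pow_atTop_nhds_zero_of_lt_one (by norm_num : (0 : ℝ) ≤ 1 / 4) (by norm_num))
      rwa [Real.sqrt_zero] at this
    exact squeeze_zero (fun n => n2_nonneg _ _) h2 h3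
  have h4 : Tendsto (fun n => n2 τ (z n - x') + n2 τ (y * z n * star y - z n) +
      n2 τ (z n - x')) atTop (𝓝 0) := by
    have := (hlim.add h1).add hlim
    simpa using this
  have h5 : n2 τ (y * x' * star y - x') ≤ 0 := by
    refine ge_of_tendsto' h4 fun n => ?_
    have e : y * x' * star y - x' = -(y * (z n - x') * star y) + (y * z n * star y - z n) +
        (z n - x') := by noncomm_ring
    rw [e]
    refine (h.n2_add_le _ _).trans (add_le_add ((h.n2_add_le _ _).trans (add_le_add ?_ le_rfl))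
      le_rfl)
    rw [h.n2_neg, n2_conj h y _ hyu]
  have h6 : n2 τ (y * x' * star y - x') = 0 := le_antisymm h5 (n2_nonneg _ _)
  have h7 : y * x' * star y - x' = 0 := by
    apply h.faithful
    have h8 := h.n2_sq (y * x' * star y - x')
    rw [h6] at h8
    apply Complex.ext
    · rw [← h8]; simp
    · rw [h.im_zero]; simp
  exact sub_eq_zero.1 h7

end

end Pool.Agent.Helper133.SM
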