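import Mathlib
import Pool.Agent.Helper278.Indep
import Pool.Agent.Helper133.SM.Avg

set_option autoImplicit false
set_option linter.unusedSectionVars false

open scoped Topology ComplexOrder
open Filter

namespace Pool.Agent.Helper133.SM

open Pool.Agent.Helper278

section

variable {A : Type*} [Ring A] [StarRing A] [Algebra ℂ A] [StarModule ℂ A] {τ : A →ₗ[ℂ] ℂ}

theorem n2_ul (_h : TrAlg τ) (y z : A) (hy : star y * y = 1) : n2 τ (y * z) = n2 τ z := by
  unfold n2
  have e : star (y * z) * (y * z) = star z * z := by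
    rw [star_mul]
    calc star z * star y * (y * z) = star z * (star y * y) * z := by noncomm_ring
      _ = _ := by rw [hy, mul_one]
  rw [e]

theorem n2_ur (h : TrAlg τ) (y z : A) (hy : y * star y = 1) : n2 τ (z * y) = n2 τ z := by
  unfold n2
  have e : τ (star (z * y) * (z * y)) = τ (star z * z) := by
    have h1 : star (z * y) * (z * y) = star y * (star z * z * y) := by
      rw [star_mul]; noncomm_ring
    have h2 : τ (star y * (star z * z * y)) = τ (star z * z * y * star y) := h.comm _ _
    rw [h1, h2, mul_assoc, hy, mul_one]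
  rw [e]

theorem comm_symm (h : TrAlg τ) (x y : A) : n2 τ (x * y - y * x) = n2 τ (y * x - x * y) :=
  h.n2_sub_comm _ _

theorem comm_diff (h : TrAlg τ) (y x x' : A) (hy : star y * y = 1) (hy' : y * star y = 1) :
    n2 τ (x * y - y * x) ≤ n2 τ (x' * y - y * x') + 2 * n2 τ (x - x') := by
  have e : x * y - y * x = (x' * y - y * x') + ((x - x') * y - y * (x - x')) := by noncomm_ring
  rw [e]
  refine (h.n2_add_le _ _).trans (add_le_add le_rfl ?_)
  refine (h.n2_sub_le _ _).trans ?_
  rw [n2_ul h y _ hy, n2_ur h y _ hy']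
  linarith

/-- commutator with two close elements -/
theorem comm_diff_right (h : TrAlg τ) (x y y' : A) (hx : star x * x = 1) (hx' : x * star x = 1) :
    n2 τ (x * y - y * x) ≤ n2 τ (x * y' - y' * x) + 2 * n2 τ (y - y') := by
  have e : x * y - y * x = (x * y' - y' * x) + (x * (y - y') - (y - y') * x) := by noncomm_ring
  rw [e]
  refine (h.n2_add_le _ _).trans (add_le_add le_rfl ?_)
  refine (h.n2_sub_le _ _).trans ?_
  rw [n2_ul h x _ hx, n2_ur h x _ hx']
  linarith

theorem cent_sq (h : TrAlg τ) (z : A) :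
    n2 τ (z - τ z • (1 : A)) ^ 2 = n2 τ z ^ 2 - ‖τ z‖ ^ 2 := by
  rw [h.n2_sq, h.n2_sq]
  have e : star (z - τ z • (1 : A)) * (z - τ z • (1 : A)) =
      star z * z - τ z • star z - star (τ z) • z + (star (τ z) * τ z) • (1 : A) := by
    rw [star_sub, star_smul, star_one, sub_mul, mul_sub, mul_sub, smul_mul_smul_comm,
      mul_smul_comm, smul_mul_assoc, mul_one, one_mul, mul_one]
    abel
  rw [e]
  simp only [map_add, map_sub, map_smul, smul_eq_mul, h.one, h.conj, mul_one]
  have e2 : τ z * star (τ z) = ((‖τ z‖ ^ 2 : ℝ) : ℂ) := by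
    rw [Complex.star_def, Complex.mul_conj, Complex.normSq_eq_norm_sq]
  have e3 : star (τ z) * τ z = ((‖τ z‖ ^ 2 : ℝ) : ℂ) := by rw [mul_comm, e2]
  rw [e2, e3, Complex.add_re, Complex.sub_re, Complex.sub_re, Complex.ofReal_re]
  ring

theorem cent_le (h : TrAlg τ) (z : A) : n2 τ (z - τ z • (1 : A)) ≤ n2 τ z := by
  have h1 := cent_sq h z
  have h2 : n2 τ (z - τ z • (1 : A)) ^ 2 ≤ n2 τ z ^ 2 := by
    rw [h1]
    have := sq_nonneg ‖τ z‖
    linarith
  exact (pow_le_pow_iff_left₀ (n2_nonneg _ _) (n2_nonneg _ _) two_ne_zero).1 h2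

theorem cent_diff (h : TrAlg τ) (x x' : A) :
    n2 τ (x - τ x • (1 : A)) ≤ n2 τ (x' - τ x' • (1 : A)) + n2 τ (x - x') := by
  have e : x - τ x • (1 : A) = (x' - τ x' • (1 : A)) + ((x - x') - τ (x - x') • (1 : A)) := by
    rw [map_sub, sub_smul]
    abel
  rw [e]
  exact (h.n2_add_le _ _).trans (add_le_add le_rfl (cent_le h _))

/-- the displacement of an isometric conjugation in terms of inner products -/
theorem conj_disp (h : TrAlg τ) (y x : A) (hy : star y * y = 1) :
    n2 τ (y * x * star y - x) ^ 2 = 2 * n2 τ x ^ 2 - 2 * (τ (star x * (y * x * star y))).re := by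
  have h1 := n2_conj h y x hy
  have e : star (y * x * star y - x) * (y * x * star y - x) =
      star (y * x * star y) * (y * x * star y) + star x * x -
        (star (star x * (y * x * star y)) + star x * (y * x * star y)) := by
    rw [star_sub, star_mul (star x), star_star x]
    noncomm_ring
  rw [h.n2_sq, e]
  simp only [map_add, map_sub, h.conj, Complex.add_re, Complex.sub_re]
  rw [← h.n2_sq, ← h.n2_sq, h1]
  have : (star (τ (star x * (y * x * star y)))).re = (τ (star x * (y * x * star y))).re := by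
    simp
  rw [this]
  ring

theorem eq_zero_of_n2 (h : TrAlg τ) {z : A} (hz : n2 τ z = 0) : z = 0 := by
  apply h.faithful
  have h8 := h.n2_sq z
  rw [hz] at h8
  apply Complex.ext
  · rw [← h8]; simp
  · rw [h.im_zero]; simp

theorem n2_sum_le (h : TrAlg τ) {ι : Type*} (s : Finset ι) (x : ι → A) :
    n2 τ (∑ i ∈ s, x i) ≤ ∑ i ∈ s, n2 τ (x i) := by
  classical
  induction s using Finset.induction_on with
  | empty => simp [h.n2_zero]
  | insert a s ha ih =>
    rw [Finset.sum_insert ha, Finset.sum_insert ha]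
    exact (h.n2_add_le _ _).trans (add_le_add le_rfl ih)

end

end Pool.Agent.Helper133.SM
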