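import Mathlib
import Pool.Agent.Helper278.Lift
import Pool.Agent.Helper133.SM.Gen

set_option autoImplicit false
set_option linter.unusedSectionVars false

open scoped InnerProductSpace Topology ComplexOrder
open Filter

namespace Pool.Agent.Helper133.SM

open Pool.Agent.Helper278

section

variable {H : Type} [NormedAddCommGroup H] [InnerProductSpace ℂ H] [CompleteSpace H]
variable {N : VonNeumannAlgebra H}

/-- finite weighted averages of unitary conjugations -/
def IsAvg (Φ : Elt N → Elt N) : Prop :=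
  ∃ (ι : Type) (_ : Fintype ι) (w : ι → ℝ) (f : ι → unitary (Elt N)), (∀ i, 0 ≤ w i) ∧
    ∑ i, w i = 1 ∧ ∀ x, Φ x = ∑ i, (w i : ℂ) • ((f i : Elt N) * x * star (f i : Elt N))

theorem isAvg_id : IsAvg (fun x : Elt N => x) := by
  refine ⟨Unit, inferInstance, fun _ => 1, fun _ => 1, fun _ => zero_le_one, by simp, fun x => ?_⟩
  simp

theorem IsAvg.comp {Φ Ψ : Elt N → Elt N} (hΦ : IsAvg Φ) (hΨ : IsAvg Ψ) :
    IsAvg (fun x => Φ (Ψ x)) := by
  obtain ⟨ι, _, w, f, hw, hw1, hΦ⟩ := hΦ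
  obtain ⟨κ, _, v, g, hv, hv1, hΨ⟩ := hΨ
  refine ⟨ι × κ, inferInstance, fun z => w z.1 * v z.2, fun z => f z.1 * g z.2,
    fun z => mul_nonneg (hw _) (hv _), ?_, fun x => ?_⟩
  · rw [Fintype.sum_prod_type]
    simp only
    rw [← hw1]
    refine Finset.sum_congr rfl fun i _ => ?_
    rw [← Finset.mul_sum, hv1, mul_one]
  · show Φ (Ψ x) = _
    rw [hΦ, Fintype.sum_prod_type]
    refine Finset.sum_congr rfl fun i _ => ?_
    rw [hΨ, Finset.mul_sum, Finset.sum_mul, Finset.smul_sum]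
    refine Finset.sum_congr rfl fun k _ => ?_
    simp only [Complex.ofReal_mul, Submonoid.coe_mul, star_mul]
    rw [mul_smul_comm, smul_mul_assoc, smul_smul]
    simp only [mul_assoc]

theorem IsAvg.convex {κ : Type} [Fintype κ] (l : κ → ℝ) (hl : ∀ k, 0 ≤ l k) (hl1 : ∑ k, l k = 1)
    (Φ : κ → Elt N → Elt N) (hΦ : ∀ k, IsAvg (Φ k)) :
    IsAvg (fun x => ∑ k, (l k : ℂ) • Φ k x) := by
  choose ι hι w f hw hw1 hΦ using hΦ
  refine ⟨Σ k, ι k, inferInstance, fun z => l z.1 * w z.1 z.2, fun z => f z.1 z.2,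
    fun z => mul_nonneg (hl _) (hw _ _), ?_, fun x => ?_⟩
  · rw [Fintype.sum_sigma, ← hl1]
    refine Finset.sum_congr rfl fun i _ => ?_
    simp only
    rw [← Finset.mul_sum, hw1, mul_one]
  · rw [Fintype.sum_sigma]
    refine Finset.sum_congr rfl fun i _ => ?_
    simp only
    rw [hΦ, Finset.smul_sum]
    refine Finset.sum_congr rfl fun k _ => ?_
    rw [smul_smul]
    push_cast
    rfl

theorem conj_norm_le (u : unitary (Elt N)) (x : Elt N) :
    ‖(u : Elt N) * x * star (u : Elt N)‖ ≤ ‖x‖ := by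
  have h1 := norm_unitary_le u
  have h2 : ‖star (u : Elt N)‖ ≤ 1 := by rwa [norm_star]
  calc ‖(u : Elt N) * x * star (u : Elt N)‖ ≤ ‖(u : Elt N) * x‖ * ‖star (u : Elt N)‖ :=
        norm_mul_le _ _
    _ ≤ (‖(u : Elt N)‖ * ‖x‖) * ‖star (u : Elt N)‖ :=
        mul_le_mul_of_nonneg_right (norm_mul_le _ _) (norm_nonneg _)
    _ ≤ (1 * ‖x‖) * 1 := by
        refine mul_le_mul (mul_le_mul_of_nonneg_right h1 (norm_nonneg _)) h2 (norm_nonneg _) ?_
        rw [one_mul]; exact norm_nonneg _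
    _ = ‖x‖ := by ring

theorem IsAvg.norm_le {Φ : Elt N → Elt N} (hΦ : IsAvg Φ) (x : Elt N) : ‖Φ x‖ ≤ ‖x‖ := by
  obtain ⟨ι, _, w, f, hw, hw1, hΦ⟩ := hΦ
  rw [hΦ]
  refine (norm_sum_le _ _).trans ?_
  calc ∑ i, ‖(w i : ℂ) • ((f i : Elt N) * x * star (f i : Elt N))‖ ≤ ∑ i, w i * ‖x‖ := by
        refine Finset.sum_le_sum fun i _ => ?_
        rw [norm_smul, Complex.norm_real, Real.norm_eq_abs, abs_of_nonneg (hw i)]
        exact mul_le_mul_of_nonneg_left (conj_norm_le _ _) (hw i)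
    _ = ‖x‖ := by rw [← Finset.sum_mul, hw1, one_mul]

variable (T : TracialState N)

theorem IsAvg.n2_le {Φ : Elt N → Elt N} (hΦ : IsAvg Φ) (x : Elt N) :
    n2 T.τ (Φ x) ≤ n2 T.τ x := by
  have hA := trAlg T
  obtain ⟨ι, _, w, f, hw, hw1, hΦ⟩ := hΦ
  rw [hΦ]
  refine (n2_sum_le hA _ _).trans ?_
  calc ∑ i, n2 T.τ ((w i : ℂ) • ((f i : Elt N) * x * star (f i : Elt N))) =
      ∑ i, w i * n2 T.τ x := by
        refine Finset.sum_congr rfl fun i _ => ?_
        rw [n2_smul hA, Complex.norm_real, Real.norm_eq_abs, abs_of_nonneg (hw i),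
          n2_conj hA _ _ (Unitary.coe_star_mul_self (f i))]
    _ ≤ n2 T.τ x := by rw [← Finset.sum_mul, hw1, one_mul]

/-- Jensen -/
theorem avg_disp {ι : Type} [Fintype ι] (w : ι → ℝ) (f : ι → unitary (Elt N))
    (hw : ∀ i, 0 ≤ w i) (hw1 : ∑ i, w i = 1) (x : Elt N) (c : ℝ) (hc : 0 ≤ c)
    (hx : ∑ i, w i * n2 T.τ (x * (f i : Elt N) - (f i : Elt N) * x) ^ 2 ≤ c ^ 2) :
    n2 T.τ (∑ i, (w i : ℂ) • ((f i : Elt N) * x * star (f i : Elt N)) - x) ≤ c := by
  have hA := trAlg T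
  have e1 : ∑ i, (w i : ℂ) • ((f i : Elt N) * x * star (f i : Elt N)) - x =
      ∑ i, (w i : ℂ) • ((f i : Elt N) * x * star (f i : Elt N) - x) := by
    simp only [smul_sub]
    rw [Finset.sum_sub_distrib, ← Finset.sum_smul, ← Complex.ofReal_sum, hw1, Complex.ofReal_one,
      one_smul]
  have e2 : ∀ i, n2 T.τ ((f i : Elt N) * x * star (f i : Elt N) - x) =
      n2 T.τ (x * (f i : Elt N) - (f i : Elt N) * x) := by
    intro i
    have hmu : (f i : Elt N) * star (f i : Elt N) = 1 := (Unitary.mem_iff.1 (f i).2).2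
    have h1 : (f i : Elt N) * x * star (f i : Elt N) - x =
        ((f i : Elt N) * x - x * (f i : Elt N)) * star (f i : Elt N) := by
      rw [sub_mul, mul_assoc x, hmu, mul_one]
    rw [h1, n2_ur hA (star (f i : Elt N)) _ (by
      rw [star_star]; exact Unitary.coe_star_mul_self (f i)), hA.n2_sub_comm]
  rw [e1]
  refine (n2_sum_le hA _ _).trans ?_
  have e3 : ∑ i, n2 T.τ ((w i : ℂ) • ((f i : Elt N) * x * star (f i : Elt N) - x)) =
      ∑ i, w i * n2 T.τ (x * (f i : Elt N) - (f i : Elt N) * x) := by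
    refine Finset.sum_congr rfl fun i _ => ?_
    rw [n2_smul hA, Complex.norm_real, Real.norm_eq_abs, abs_of_nonneg (hw i), e2]
  rw [e3]
  have h2 := Real.pow_arith_mean_le_arith_mean_pow Finset.univ w
    (fun i => n2 T.τ (x * (f i : Elt N) - (f i : Elt N) * x)) (fun i _ => hw i) hw1
    (fun i _ => n2_nonneg _ _) 2
  exact (pow_le_pow_iff_left₀ (Finset.sum_nonneg fun i _ => mul_nonneg (hw i) (n2_nonneg _ _)) hc
    two_ne_zero).1 (h2.trans hx)

/-- the averaging operator of the first `m+1` unitaries -/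
noncomputable def avT (u : ℕ → unitary (Elt N)) (m : ℕ) : Elt N →ₗ[ℂ] Elt N :=
  ∑ k : Fin (m + 1), (((1 / ((m : ℝ) + 1) : ℝ)) : ℂ) •
    (LinearMap.mulLeft ℂ (u k : Elt N) ∘ₗ LinearMap.mulRight ℂ (star (u k : Elt N)))

theorem avT_apply (u : ℕ → unitary (Elt N)) (m : ℕ) (x : Elt N) :
    avT u m x = ∑ k : Fin (m + 1), (((1 / ((m : ℝ) + 1) : ℝ)) : ℂ) •
      ((u k : Elt N) * x * star (u k : Elt N)) := by
  unfold avT
  rw [LinearMap.sum_apply]
  refine Finset.sum_congr rfl fun k _ => ?_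
  rw [LinearMap.smul_apply, LinearMap.comp_apply, LinearMap.mulLeft_apply,
    LinearMap.mulRight_apply, mul_assoc]

theorem isAvg_avT (u : ℕ → unitary (Elt N)) (m : ℕ) : IsAvg (avT u m) := by
  refine ⟨Fin (m + 1), inferInstance, fun _ => 1 / ((m : ℝ) + 1), fun k => u k,
    fun _ => by positivity, ?_, fun x => avT_apply u m x⟩
  rw [Finset.sum_const, Finset.card_univ, Fintype.card_fin, nsmul_eq_mul]
  push_cast
  field_simp

theorem isAvg_pow (u : ℕ → unitary (Elt N)) (m j : ℕ) : IsAvg ((avT u m) ^ j) := by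
  induction j with
  | zero =>
    rw [pow_zero]
    exact isAvg_id
  | succ j ih =>
    rw [pow_succ]
    exact ih.comp (isAvg_avT u m)

/-- the Cesaro mean -/
noncomputable def ces (u : ℕ → unitary (Elt N)) (m K : ℕ) (x : Elt N) : Elt N :=
  ∑ j : Fin K, (((1 / (K : ℝ) : ℝ)) : ℂ) • ((avT u m) ^ (j : ℕ)) x

theorem isAvg_ces (u : ℕ → unitary (Elt N)) (m K : ℕ) (hK : 0 < K) : IsAvg (ces u m K) := by
  refine IsAvg.convex (fun _ : Fin K => 1 / (K : ℝ)) (fun _ => by positivity) ?_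
    (fun j : Fin K => (avT u m) ^ (j : ℕ)) (fun j => isAvg_pow u m j)
  rw [Finset.sum_const, Finset.card_univ, Fintype.card_fin, nsmul_eq_mul]
  have : (K : ℝ) ≠ 0 := by positivity
  field_simp

theorem ces_fix (u : ℕ → unitary (Elt N)) (m K : ℕ) (hK : 0 < K) (x : Elt N) :
    n2 T.τ (avT u m (ces u m K x) - ces u m K x) ≤ 2 / K * n2 T.τ x := by
  have hA := trAlg T
  have e : avT u m (ces u m K x) - ces u m K x =
      (((1 / (K : ℝ) : ℝ)) : ℂ) • (((avT u m) ^ K) x - x) := by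
    unfold ces
    rw [map_sum, ← Finset.sum_sub_distrib]
    have h1 : ∀ j : Fin K, avT u m ((((1 / (K : ℝ) : ℝ)) : ℂ) • ((avT u m) ^ (j : ℕ)) x) -
        (((1 / (K : ℝ) : ℝ)) : ℂ) • ((avT u m) ^ (j : ℕ)) x =
        (((1 / (K : ℝ) : ℝ)) : ℂ) • (((avT u m) ^ ((j : ℕ) + 1)) x - ((avT u m) ^ (j : ℕ)) x) := by
      intro j
      rw [map_smul, ← smul_sub, pow_succ', Module.End.mul_apply]
    rw [Finset.sum_congr rfl fun j _ => h1 j, ← Finset.smul_sum,
      Fin.sum_univ_eq_sum_range (fun j => ((avT u m) ^ (j + 1)) x - ((avT u m) ^ j) x) K,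
      Finset.sum_range_sub (fun j => ((avT u m) ^ j) x) K, pow_zero]
    rfl
  rw [e, n2_smul hA, Complex.norm_real, Real.norm_eq_abs, abs_of_nonneg (by positivity)]
  have h1 := (isAvg_pow u m K).n2_le T x
  have h2 := hA.n2_sub_le (((avT u m) ^ K) x) x
  have h3 : (0 : ℝ) ≤ 1 / K := by positivity
  calc 1 / (K : ℝ) * n2 T.τ (((avT u m) ^ K) x - x) ≤ 1 / (K : ℝ) * (2 * n2 T.τ x) :=
        mul_le_mul_of_nonneg_left (by linarith) h3
    _ = 2 / K * n2 T.τ x := by ring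

theorem le_sum_fin (g : ℕ → ℝ) (hg : ∀ i, 0 ≤ g i) (m k : ℕ) (hk : k ≤ m) :
    g k ≤ ∑ i : Fin (m + 1), g i := by
  have hkm : k < m + 1 := by omega
  exact Finset.single_le_sum (f := fun i : Fin (m + 1) => g i) (fun i _ => hg i)
    (Finset.mem_univ (⟨k, hkm⟩ : Fin (m + 1)))

/-- almost fixed by the average implies almost fixed by each unitary -/
theorem fix_each (u : ℕ → unitary (Elt N)) (m k : ℕ) (hk : k ≤ m) (x : Elt N) :
    n2 T.τ (x * (u k : Elt N) - (u k : Elt N) * x) ^ 2 ≤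
      2 * ((m : ℝ) + 1) * (n2 T.τ x * n2 T.τ (avT u m x - x)) := by
  have hA := trAlg T
  have e2 : ∀ i, n2 T.τ ((u i : Elt N) * x * star (u i : Elt N) - x) =
      n2 T.τ (x * (u i : Elt N) - (u i : Elt N) * x) := by
    intro i
    have hmu : (u i : Elt N) * star (u i : Elt N) = 1 := (Unitary.mem_iff.1 (u i).2).2
    have h1 : (u i : Elt N) * x * star (u i : Elt N) - x =
        ((u i : Elt N) * x - x * (u i : Elt N)) * star (u i : Elt N) := by
      rw [sub_mul, mul_assoc x, hmu, mul_one]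
    rw [h1, n2_ur hA (star (u i : Elt N)) _ (by
      rw [star_star]; exact Unitary.coe_star_mul_self (u i)), hA.n2_sub_comm]
  have h1 : ∑ i : Fin (m + 1), n2 T.τ (x * (u i : Elt N) - (u i : Elt N) * x) ^ 2 =
      ((m : ℝ) + 1) * (-2 * (T.τ (star x * (avT u m x - x))).re) := by
    have h2 : ∀ i : Fin (m + 1), n2 T.τ (x * (u i : Elt N) - (u i : Elt N) * x) ^ 2 =
        2 * n2 T.τ x ^ 2 - 2 * (T.τ (star x * ((u i : Elt N) * x * star (u i : Elt N)))).re := by
      intro i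
      rw [← e2, conj_disp hA _ _ (Unitary.coe_star_mul_self (u i))]
    have h3 : ∀ i : Fin (m + 1), (T.τ (star x * ((((1 / ((m : ℝ) + 1) : ℝ)) : ℂ) •
        ((u i : Elt N) * x * star (u i : Elt N))))).re =
        1 / ((m : ℝ) + 1) * (T.τ (star x * ((u i : Elt N) * x * star (u i : Elt N)))).re := by
      intro i
      rw [mul_smul_comm, map_smul, smul_eq_mul, Complex.re_ofReal_mul]
    have h5 : (T.τ (star x * avT u m x)).re = ∑ i : Fin (m + 1),
        1 / ((m : ℝ) + 1) * (T.τ (star x * ((u i : Elt N) * x * star (u i : Elt N)))).re := by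
      rw [avT_apply, Finset.mul_sum, map_sum, Complex.re_sum]
      exact Finset.sum_congr rfl fun i _ => h3 i
    have h6 : (T.τ (star x * (avT u m x - x))).re = (T.τ (star x * avT u m x)).re -
        n2 T.τ x ^ 2 := by
      rw [mul_sub, map_sub, Complex.sub_re, hA.n2_sq]
    rw [Finset.sum_congr rfl fun i _ => h2 i, Finset.sum_sub_distrib, Finset.sum_const,
      Finset.card_univ, Fintype.card_fin, h6, h5, ← Finset.mul_sum, ← Finset.mul_sum,
      nsmul_eq_mul]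
    push_cast
    field_simp
    ring
  have h4 : n2 T.τ (x * (u k : Elt N) - (u k : Elt N) * x) ^ 2 ≤
      ∑ i : Fin (m + 1), n2 T.τ (x * (u i : Elt N) - (u i : Elt N) * x) ^ 2 := by
    exact le_sum_fin (fun i => n2 T.τ (x * (u i : Elt N) - (u i : Elt N) * x) ^ 2)
      (fun i => sq_nonneg _) m k hk
  rw [h1] at h4
  refine h4.trans ?_
  have h5 := hA.cauchy x (avT u m x - x)
  have h6 := Complex.abs_re_le_norm (T.τ (star x * (avT u m x - x)))
  have h7 := neg_abs_le (T.τ (star x * (avT u m x - x))).re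
  have h8 : (0 : ℝ) ≤ (m : ℝ) + 1 := by positivity
  have h9 : -2 * (T.τ (star x * (avT u m x - x))).re ≤ 2 * (n2 T.τ x * n2 T.τ (avT u m x - x)) := by
    linarith
  calc ((m : ℝ) + 1) * (-2 * (T.τ (star x * (avT u m x - x))).re) ≤
      ((m : ℝ) + 1) * (2 * (n2 T.τ x * n2 T.τ (avT u m x - x))) :=
        mul_le_mul_of_nonneg_left h9 h8
    _ = _ := by ring

end

end Pool.Agent.Helper133.SM
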