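import Mathlib
import Pool.Agent.Helper278.CEStmt

set_option autoImplicit false

namespace Pool.Agent.Helper133.SM

open Pool.Agent.Helper278 Pool.Agent.Helper278.CE

universe w

/-- `(A, τ)` is separable: it has a countable subset that is dense for the 2-norm. -/
def IsTwoSeparable {A : Type*} [Ring A] [Star A] (τ : A → ℂ) : Prop :=
  ∃ S : Set A, S.Countable ∧ ∀ (x : A) (ε : ℝ), 0 < ε → ∃ s ∈ S, norm2 τ (x - s) < ε

/-- The relative commutant `A' ∩ A^U` of (the constant families of) `A` in the ultrapower `A^U`,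
for a model `π : (I → A) → Q` of the ultrapower. -/
def relComm {I : Type*} {A : Type*} {Q : Type*} [Ring Q] [StarRing Q] [Algebra ℂ Q]
    [StarModule ℂ Q] (π : (I → A) → Q) : StarSubalgebra ℂ Q :=
  StarSubalgebra.centralizer ℂ (Set.range fun a : A => π fun _ => a)

/-- A star algebra is a II₁ factor: it is star isomorphic to a von Neumann algebra on a Hilbert
space that is a II₁ factor. -/
def IsAbstractIIOneFactor (R : Type) [Ring R] [StarRing R] [Algebra ℂ R] : Prop :=
  ∃ (L : Type) (_ : NormedAddCommGroup L) (_ : InnerProductSpace ℂ L) (_ : CompleteSpace L)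
    (P : VonNeumannAlgebra L) (ρ : Elt P → ℂ), IsIIOneFactor P ρ ∧ Nonempty (R ≃⋆ₐ[ℂ] Elt P)

/-- `(A, τ)` is super McDuff (for the ultrafilter `U` on `ℕ`): the relative commutant
`A' ∩ A^U` in the tracial ultrapower is a II₁ factor. -/
def IsSuperMcDuff (U : Ultrafilter ℕ) {A : Type} [CStarAlgebra A] (τ : A → ℂ) : Prop :=
  ∃ (Q : Type) (_ : Ring Q) (_ : StarRing Q) (_ : Algebra ℂ Q) (_ : StarModule ℂ Q)
    (π : (ℕ → A) → Q) (φ : Q → ℂ), IsTracialUltrapower τ U π φ ∧
      IsAbstractIIOneFactor (relComm π)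

/-- `(A, τ)` and `(B, σ)` are elementarily equivalent: for some ultrafilters `U`, `V` on some index
sets the tracial ultrapowers `A^U` and `B^V` are star isomorphic. -/
def ElemEquiv {A : Type} [CStarAlgebra A] (τ : A → ℂ) {B : Type} [CStarAlgebra B]
    (σ : B → ℂ) : Prop :=
  ∃ (I J : Type w) (U : Ultrafilter I) (V : Ultrafilter J) (P Q : Type w) (_ : Ring P)
    (_ : StarRing P) (_ : Algebra ℂ P) (_ : Ring Q) (_ : StarRing Q) (_ : Algebra ℂ Q)
    (π : (I → A) → P) (φ : P → ℂ) (ρ : (J → B) → Q) (ψ : Q → ℂ),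
    IsTracialUltrapower τ U π φ ∧ IsTracialUltrapower σ V ρ ψ ∧ Nonempty (P ≃⋆ₐ[ℂ] Q)

end Pool.Agent.Helper133.SM
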