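import Mathlib
import Pool.Agent.Helper278.KLift
import Pool.Agent.Helper278.CEStmt

set_option autoImplicit false
set_option linter.unusedSectionVars false

open scoped InnerProductSpace Topology ComplexOrder
open Filter

namespace Pool.Agent.Helper133.SM

open Pool.Agent.Helper278 Pool.Agent.Helper278.CE

universe w

section bdd

variable {I : Type*} {H : Type*} [NormedAddCommGroup H] [InnerProductSpace ℂ H] [CompleteSpace H]
variable {N : VonNeumannAlgebra H}

theorem bdd_const (a : Elt N) : BddFam (fun _ : I => a) := ⟨‖a‖, fun _ => le_rfl⟩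

theorem bdd_add {x y : I → Elt N} (hx : BddFam x) (hy : BddFam y) :
    BddFam (fun i => x i + y i) := by
  obtain ⟨C, hC⟩ := hx
  obtain ⟨D, hD⟩ := hy
  exact ⟨C + D, fun i => (norm_add_le _ _).trans (add_le_add (hC i) (hD i))⟩

theorem bdd_mul {x y : I → Elt N} (hx : BddFam x) (hy : BddFam y) :
    BddFam (fun i => x i * y i) := by
  obtain ⟨C, hC⟩ := hx
  obtain ⟨D, hD⟩ := hy
  refine ⟨C * D, fun i => (norm_mul_le _ _).trans ?_⟩
  exact mul_le_mul (hC i) (hD i) (norm_nonneg _) ((norm_nonneg _).trans (hC i))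

theorem bdd_smul (c : ℂ) {x : I → Elt N} (hx : BddFam x) : BddFam (fun i => c • x i) := by
  obtain ⟨C, hC⟩ := hx
  refine ⟨‖c‖ * C, fun i => ?_⟩
  rw [norm_smul]
  exact mul_le_mul_of_nonneg_left (hC i) (norm_nonneg _)

theorem bdd_star {x : I → Elt N} (hx : BddFam x) : BddFam (fun i => star (x i)) := by
  obtain ⟨C, hC⟩ := hx
  refine ⟨C, fun i => ?_⟩
  rw [norm_star]
  exact hC i

theorem bdd_sub {x y : I → Elt N} (hx : BddFam x) (hy : BddFam y) :
    BddFam (fun i => x i - y i) := by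
  obtain ⟨C, hC⟩ := hx
  obtain ⟨D, hD⟩ := hy
  exact ⟨C + D, fun i => (norm_sub_le _ _).trans (add_le_add (hC i) (hD i))⟩

theorem bdd_unit (u : I → unitary (Elt N)) : BddFam (fun i => (u i : Elt N)) :=
  ⟨1, fun i => norm_unitary_le _⟩

end bdd

section quot

variable {I : Type*} {H : Type*} [NormedAddCommGroup H] [InnerProductSpace ℂ H] [CompleteSpace H]
variable {N : VonNeumannAlgebra H}
variable {Q : Type*} [Ring Q] [StarRing Q] [Algebra ℂ Q] {Null : (I → Elt N) → Prop}
variable {π : (I → Elt N) → Q}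

theorem quot_sub (h : IsQuot Null π) {x y : I → Elt N} (hx : BddFam x) (hy : BddFam y) :
    π (fun i => x i - y i) = π x - π y := by
  have h1 : (fun i => x i - y i) = fun i => x i + (fun i => (-1 : ℂ) • y i) i := by
    funext i
    show x i - y i = x i + (-1 : ℂ) • y i
    rw [neg_smul, one_smul, sub_eq_add_neg]
  rw [h1, h.add _ _ hx (bdd_smul _ hy), h.smul _ _ hy, neg_smul, one_smul, sub_eq_add_neg]

theorem quot_starModule (h : IsQuot Null π) : StarModule ℂ Q := by
  refine ⟨fun c q => ?_⟩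
  obtain ⟨x, hx, rfl⟩ := h.surj q
  rw [← h.smul c x hx, ← h.star _ (bdd_smul c hx), ← h.star _ hx, ← h.smul _ _ (bdd_star hx)]
  congr 1
  funext i
  exact star_smul c (x i)

end quot

section ultra

variable {I : Type*} {H : Type*} [NormedAddCommGroup H] [InnerProductSpace ℂ H] [CompleteSpace H]
variable {N : VonNeumannAlgebra H}
variable {Q : Type*} [Ring Q] [StarRing Q] [Algebra ℂ Q]
variable {T : TracialState N} {U : Ultrafilter I} {π : (I → Elt N) → Q} {φ : Q → ℂ}

theorem phi_add (h : IsTracialUltrapower (fun x => T.τ x) U π φ) (p q : Q) :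
    φ (p + q) = φ p + φ q := by
  obtain ⟨x, hx, rfl⟩ := h.quot.surj p
  obtain ⟨y, hy, rfl⟩ := h.quot.surj q
  have h1 := h.trace _ (bdd_add hx hy)
  have h2 := (h.trace x hx).add (h.trace y hy)
  rw [h.quot.add _ _ hx hy] at h1
  refine tendsto_nhds_unique h1 (h2.congr fun n => ?_)
  rw [map_add]

theorem phi_smul (h : IsTracialUltrapower (fun x => T.τ x) U π φ) (c : ℂ) (p : Q) :
    φ (c • p) = c * φ p := by
  obtain ⟨x, hx, rfl⟩ := h.quot.surj p
  have h1 := h.trace _ (bdd_smul c hx)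
  have h2 := (h.trace x hx).const_mul c
  rw [h.quot.smul _ _ hx] at h1
  refine tendsto_nhds_unique h1 (h2.congr fun n => ?_)
  rw [map_smul, smul_eq_mul]

/-- The limit trace as a linear map. -/
noncomputable def phiL (h : IsTracialUltrapower (fun x => T.τ x) U π φ) : Q →ₗ[ℂ] ℂ where
  toFun := φ
  map_add' := phi_add h
  map_smul' := phi_smul h

theorem phiL_apply (h : IsTracialUltrapower (fun x => T.τ x) U π φ) (q : Q) :
    phiL h q = φ q := rfl

theorem phi_trAlg (h : IsTracialUltrapower (fun x => T.τ x) U π φ) : TrAlg (phiL h) := by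
  have hA := trAlg T
  refine ⟨?_, ?_, ?_, ?_, ?_⟩
  · show φ 1 = 1
    have h1 := h.trace _ (bdd_const (I := I) (1 : Elt N))
    rw [h.quot.one] at h1
    refine tendsto_nhds_unique h1 (tendsto_const_nhds.congr fun n => ?_)
    exact hA.one.symm
  · intro p q
    obtain ⟨x, hx, rfl⟩ := h.quot.surj p
    obtain ⟨y, hy, rfl⟩ := h.quot.surj q
    show φ (π x * π y) = φ (π y * π x)
    rw [← h.quot.mul _ _ hx hy, ← h.quot.mul _ _ hy hx]
    refine tendsto_nhds_unique (h.trace _ (bdd_mul hx hy))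
      ((h.trace _ (bdd_mul hy hx)).congr fun n => ?_)
    exact hA.comm _ _
  · intro p
    obtain ⟨x, hx, rfl⟩ := h.quot.surj p
    show 0 ≤ φ (star (π x) * π x)
    rw [← h.quot.star _ hx, ← h.quot.mul _ _ (bdd_star hx) hx]
    refine ge_of_tendsto' (h.trace _ (bdd_mul (bdd_star hx) hx)) fun n => ?_
    exact hA.nonneg (x n)
  · intro p
    obtain ⟨x, hx, rfl⟩ := h.quot.surj p
    show φ (star (π x)) = star (φ (π x))
    rw [← h.quot.star _ hx]
    refine tendsto_nhds_unique (h.trace _ (bdd_star hx)) ?_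
    refine ((continuous_star.tendsto _).comp (h.trace x hx)).congr fun n => ?_
    exact (hA.conj (x n)).symm
  · intro p hp
    obtain ⟨x, hx, rfl⟩ := h.quot.surj p
    have hp' : φ (star (π x) * π x) = 0 := hp
    rw [← h.quot.star _ hx, ← h.quot.mul _ _ (bdd_star hx) hx] at hp'
    rw [h.quot.ker _ hx]
    have := h.trace _ (bdd_mul (bdd_star hx) hx)
    rw [hp'] at this
    exact this

theorem tendsto_n2 (h : IsTracialUltrapower (fun x => T.τ x) U π φ) {x : I → Elt N}
    (hx : BddFam x) : Tendsto (fun i => n2 T.τ (x i)) U (𝓝 (n2 φ (π x))) := by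
  have h1 := h.trace _ (bdd_mul (bdd_star hx) hx)
  have h2 : φ (π fun i => star (x i) * x i) = φ (star (π x) * π x) := by
    rw [h.quot.mul _ _ (bdd_star hx) hx, h.quot.star _ hx]
  rw [h2] at h1
  unfold n2
  exact (Real.continuous_sqrt.tendsto _).comp ((Complex.continuous_re.tendsto _).comp h1)

theorem pi_eq (h : IsTracialUltrapower (fun x => T.τ x) U π φ) {x y : I → Elt N}
    (hx : BddFam x) (hy : BddFam y) :
    π x = π y ↔ Tendsto (fun i => n2 T.τ (x i - y i)) U (𝓝 0) := by
  have hA := trAlg T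
  rw [← sub_eq_zero, ← quot_sub h.quot hx hy, h.quot.ker _ (bdd_sub hx hy), ← hA.tendsto_iff]

/-- unitaries lift to unitaries -/
theorem unit_lift (h : IsTracialUltrapower (fun x => T.τ x) U π φ) (u : Q)
    (hu : u ∈ unitary Q) : ∃ a : I → unitary (Elt N), π (fun i => (a i : Elt N)) = u := by
  have hA := trAlg T
  obtain ⟨x, hx, rfl⟩ := h.quot.surj u
  have h1 := fun n => exists_unitary_near T (x n)
  choose w hw hwn using h1
  refine ⟨fun n => ⟨w n, hw n⟩, ?_⟩
  rw [pi_eq h (bdd_unit fun n => ⟨w n, hw n⟩) hx]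
  have h2 : π (fun i => star (x i) * x i) = π fun _ => 1 := by
    rw [h.quot.mul _ _ (bdd_star hx) hx, h.quot.star _ hx, h.quot.one]
    exact (Unitary.mem_iff.1 hu).1
  rw [pi_eq h (bdd_mul (bdd_star hx) hx) (bdd_const 1)] at h2
  have h3 : Tendsto (fun n => Real.sqrt (n2 T.τ (star (x n) * x n - 1))) U (𝓝 0) := by
    have := (Real.continuous_sqrt.tendsto 0).comp h2
    rwa [Real.sqrt_zero] at this
  refine squeeze_zero (fun n => n2_nonneg _ _) (fun n => ?_) h3
  show n2 T.τ (w n - x n) ≤ _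
  rw [hA.n2_sub_comm]
  apply Real.le_sqrt_of_sq_le
  exact hwn n

theorem unit_pi (h : IsTracialUltrapower (fun x => T.τ x) U π φ) (a : I → unitary (Elt N)) :
    π (fun i => (a i : Elt N)) ∈ unitary Q := by
  rw [Unitary.mem_iff, ← h.quot.star _ (bdd_unit a), ← h.quot.mul _ _ (bdd_star (bdd_unit a))
    (bdd_unit a), ← h.quot.mul _ _ (bdd_unit a) (bdd_star (bdd_unit a)), ← h.quot.one]
  constructor
  · congr 1
    funext i
    exact Unitary.coe_star_mul_self (a i)
  · congr 1
    funext i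
    exact Unitary.coe_mul_star_self (a i)

theorem comm_pi (h : IsTracialUltrapower (fun x => T.τ x) U π φ) {x y : I → Elt N}
    (hx : BddFam x) (hy : BddFam y) :
    π (fun i => x i * y i - y i * x i) = π x * π y - π y * π x := by
  rw [quot_sub h.quot (bdd_mul hx hy) (bdd_mul hy hx), h.quot.mul _ _ hx hy,
    h.quot.mul _ _ hy hx]

theorem scal_pi (h : IsTracialUltrapower (fun x => T.τ x) U π φ) (c : ℂ) :
    π (fun _ => c • (1 : Elt N)) = c • (1 : Q) := by
  rw [h.quot.smul c (fun _ => (1 : Elt N)) (bdd_const 1), h.quot.one]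

/-- the distance to the scalars in the limit -/
theorem tendsto_cent (h : IsTracialUltrapower (fun x => T.τ x) U π φ) {x : I → Elt N}
    (hx : BddFam x) : Tendsto (fun i => n2 T.τ (x i - T.τ (x i) • (1 : Elt N))) U
      (𝓝 (n2 φ (π x - φ (π x) • (1 : Q)))) := by
  have hA := trAlg T
  have h1 : Tendsto (fun i => n2 T.τ (x i - φ (π x) • (1 : Elt N))) U
      (𝓝 (n2 φ (π x - φ (π x) • (1 : Q)))) := by
    have := tendsto_n2 h (bdd_sub hx (bdd_const (I := I) (φ (π x) • (1 : Elt N))))
    rwa [quot_sub h.quot hx (bdd_const _), scal_pi h] at this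
  have h2 : Tendsto (fun i => n2 T.τ (x i - T.τ (x i) • (1 : Elt N)) -
      n2 T.τ (x i - φ (π x) • (1 : Elt N))) U (𝓝 0) := by
    have h3 : Tendsto (fun i => ‖T.τ (x i) - φ (π x)‖) U (𝓝 0) := by
      have := (h.trace x hx).sub_const (φ (π x))
      rw [sub_self] at this
      exact tendsto_zero_iff_norm_tendsto_zero.1 this
    have h4 : ∀ c : ℂ, n2 T.τ (c • (1 : Elt N)) = ‖c‖ := by
      intro c
      unfold n2
      rw [star_smul, star_one, smul_mul_smul_comm, one_mul, map_smul, hA.one, smul_eq_mul,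
        mul_one]
      have : (star c * c : ℂ) = ((‖c‖ ^ 2 : ℝ) : ℂ) := by
        rw [Complex.star_def, mul_comm, Complex.mul_conj, Complex.normSq_eq_norm_sq]
      rw [this, Complex.ofReal_re, Real.sqrt_sq (norm_nonneg _)]
    refine squeeze_zero_norm (fun i => ?_) h3
    rw [Real.norm_eq_abs, abs_le]
    have e1 := hA.n2_tri (x i - T.τ (x i) • (1 : Elt N)) (x i - φ (π x) • (1 : Elt N)) 0
    have e2 := hA.n2_tri (x i - φ (π x) • (1 : Elt N)) (x i - T.τ (x i) • (1 : Elt N)) 0
    rw [sub_zero, sub_zero] at e1 e2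
    have e3 : x i - T.τ (x i) • (1 : Elt N) - (x i - φ (π x) • (1 : Elt N)) =
        -((T.τ (x i) - φ (π x)) • (1 : Elt N)) := by
      rw [sub_smul]
      abel
    rw [hA.n2_sub_comm (x i - φ (π x) • (1 : Elt N)), e3, hA.n2_neg, h4] at e2
    rw [e3, hA.n2_neg, h4] at e1
    constructor <;> linarith
  have := h2.add h1
  rw [zero_add] at this
  refine this.congr fun i => ?_
  ring

end ultra

end Pool.Agent.Helper133.SM
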