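import Mathlib
import Pool.Agent.Helper278.CEMod
import Pool.Agent.Helper133.SM.Defs
import Pool.Agent.Helper133.SM.UBase

set_option autoImplicit false
set_option linter.unusedSectionVars false

open scoped InnerProductSpace Topology ComplexOrder BoundedContinuousFunction
open Filter

namespace Pool.Agent.Helper133.SM

open Pool.Agent.Helper278 Pool.Agent.Helper278.CE

section comm

variable {K : Type*} [NormedAddCommGroup K] [InnerProductSpace ℂ K] [CompleteSpace K]

/-- the commutant of a set and its adjoints, as a von Neumann algebra -/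
noncomputable def commVN (S : Set (K →L[ℂ] K)) : VonNeumannAlgebra K where
  toStarSubalgebra := StarSubalgebra.centralizer ℂ S
  centralizer_centralizer' := by
    show Set.centralizer (Set.centralizer ((StarSubalgebra.centralizer ℂ S :
      StarSubalgebra ℂ (K →L[ℂ] K)) : Set (K →L[ℂ] K))) = _
    rw [StarSubalgebra.coe_centralizer, Set.centralizer_centralizer_centralizer]
    rfl

theorem mem_commVN (S : Set (K →L[ℂ] K)) (z : K →L[ℂ] K) : z ∈ commVN S ↔
    ∀ t ∈ S, t * z = z * t ∧ star t * z = z * star t :=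
  StarSubalgebra.mem_centralizer_iff (R := ℂ)

end comm

section ultra

variable {H : Type} [NormedAddCommGroup H] [InnerProductSpace ℂ H] [CompleteSpace H]
variable {N : VonNeumannAlgebra H}
variable {Q : Type} [Ring Q] [StarRing Q] [Algebra ℂ Q] [StarModule ℂ Q]
variable {T : TracialState N} {U : Ultrafilter ℕ} {π : (ℕ → Elt N) → Q} {φ : Q → ℂ}

theorem bdd_bcf (x : ℕ →ᵇ Elt N) : BddFam (fun n => x n) := ⟨‖x‖, fun n => x.norm_coe_le_norm n⟩

/-- the model as a star homomorphism on bounded sequences -/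
noncomputable def toHom (h : IsTracialUltrapower (fun x => T.τ x) U π φ) :
    (ℕ →ᵇ Elt N) →⋆ₐ[ℂ] Q where
  toFun x := π fun n => x n
  map_one' := h.quot.one
  map_mul' x y := h.quot.mul _ _ (bdd_bcf x) (bdd_bcf y)
  map_zero' := by
    have h2 : (fun n : ℕ => ((0 : ℕ →ᵇ Elt N) n)) = fun _ => (0 : ℂ) • (0 : Elt N) := by
      funext n
      rw [zero_smul]
      rfl
    rw [h2]
    exact (h.quot.smul 0 (fun _ => (0 : Elt N)) (bdd_const 0)).trans (zero_smul _ _)
  map_add' x y := h.quot.add _ _ (bdd_bcf x) (bdd_bcf y)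
  commutes' c := by
    have h1 := h.quot.smul c (fun _ => (1 : Elt N)) (bdd_const 1)
    rw [h.quot.one] at h1
    rw [Algebra.algebraMap_eq_smul_one (A := Q), ← h1]
    congr 1
  map_star' x := h.quot.star _ (bdd_bcf x)

theorem toHom_apply (h : IsTracialUltrapower (fun x => T.τ x) U π φ) (x : ℕ →ᵇ Elt N) :
    toHom h x = π fun n => x n := rfl

theorem toHom_ultra (h : IsTracialUltrapower (fun x => T.τ x) U π φ) :
    Helper278.IsTracialUltrapower T.τ U (toHom h) φ := by
  refine ⟨?_, ?_, ?_⟩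
  · intro q
    obtain ⟨x, ⟨C, hC⟩, rfl⟩ := h.quot.surj q
    exact ⟨BoundedContinuousFunction.ofNormedAddCommGroupDiscrete x C hC, rfl⟩
  · intro x
    exact h.quot.ker _ (bdd_bcf x)
  · intro x
    exact h.trace _ (bdd_bcf x)

/-- the unit ball of the ultrapower -/
def ballP (π : (ℕ → Elt N) → Q) : Set Q := {q | ∃ x : ℕ → Elt N, (∀ n, ‖x n‖ ≤ 1) ∧ π x = q}

theorem ball_P (hU : ∀ n, {n} ∉ U) (h : IsTracialUltrapower (fun x => T.τ x) U π φ) :
    Ball (phiL h) (ballP π) := by
  have h1 := ball_ultra hU (toHom_ultra h)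
  have h2 : ballQ (toHom h) = ballP π := by
    ext q
    constructor
    · rintro ⟨x, hx, rfl⟩
      exact ⟨fun n => x n, hx, rfl⟩
    · rintro ⟨x, hx, rfl⟩
      exact ⟨mkB' x hx, hx, rfl⟩
  rw [h2] at h1
  exact h1

theorem mem_relComm (h : IsTracialUltrapower (fun x => T.τ x) U π φ) (q : Q) :
    q ∈ relComm π ↔ ∀ a : Elt N, π (fun _ => a) * q = q * π (fun _ => a) := by
  unfold relComm
  rw [StarSubalgebra.mem_centralizer_iff (R := ℂ)]
  constructor
  · intro hq a
    exact (hq _ ⟨a, rfl⟩).1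
  · rintro hq _ ⟨a, rfl⟩
    refine ⟨hq a, ?_⟩
    have h1 : star (π fun _ => a) = π fun _ => star a := (h.quot.star _ (bdd_const a)).symm
    show star (π fun _ => a) * q = q * star (π fun _ => a)
    rw [h1]
    exact hq (star a)

/-- The relative commutant is a von Neumann algebra with a faithful normal trace. -/
theorem exists_conc (hU : ∀ n, {n} ∉ U) (h : IsTracialUltrapower (fun x => T.τ x) U π φ) :
    ∃ (K : Type) (_ : NormedAddCommGroup K) (_ : InnerProductSpace ℂ K) (_ : CompleteSpace K)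
      (P : VonNeumannAlgebra K) (ρ : Elt P → ℂ) (e : relComm π ≃⋆ₐ[ℂ] Elt P),
      (∀ x, ρ (e x) = φ x) ∧ IsFaithfulTrace ρ ∧ IsNormalPositive P ρ := by
  have hS := phi_trAlg h
  have hB := ball_P hU h
  obtain ⟨K, _, _, _, j, hd, hj⟩ := exists_gns hS
  let S : Set (K →L[ℂ] K) := Set.centralizer (MM j : Set (K →L[ℂ] K)) ∪
    Set.range (fun a : Elt N => Lm j (π fun _ => a))
  let P : VonNeumannAlgebra K := commVN S
  have hLstar := star_Lm hS hd hj hB
  have hLmul : ∀ a b : Q, Lm j (a * b) = Lm j a * Lm j b := by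
    intro a b
    exact congrArg Subtype.val ((LmHom hS hd hj hB).map_mul a b)
  have hL1 : Lm j (1 : Q) = 1 := congrArg Subtype.val (map_one (LmHom hS hd hj hB))
  have hL0 : Lm j (0 : Q) = 0 := congrArg Subtype.val (map_zero (LmHom hS hd hj hB))
  have hLadd : ∀ a b : Q, Lm j (a + b) = Lm j a + Lm j b := fun a b =>
    congrArg Subtype.val (map_add (LmHom hS hd hj hB) a b)
  have hLsmul : ∀ (c : ℂ) (a : Q), Lm j (c • a) = c • Lm j a := fun c a =>
    congrArg Subtype.val (map_smul (LmHom hS hd hj hB) c a)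
  have hmem : ∀ x : relComm π, Lm j (x : Q) ∈ P := by
    intro x
    rw [mem_commVN]
    have hx := (mem_relComm h (x : Q)).1 x.2
    rintro t (ht | ⟨a, rfl⟩)
    · refine ⟨(ht _ (Lm_mem (j := j) (x : Q))).symm, ?_⟩
      have h1 := ht _ (Lm_mem (j := j) (star (x : Q)))
      rw [← hLstar] at h1
      have h2 := congrArg star h1
      rw [star_mul, star_mul, star_star] at h2
      exact h2
    · refine ⟨?_, ?_⟩
      · show Lm j (π fun _ => a) * Lm j (x : Q) = Lm j (x : Q) * Lm j (π fun _ => a)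
        rw [← hLmul, ← hLmul, hx]
      · show star (Lm j (π fun _ => a)) * Lm j (x : Q) = Lm j (x : Q) * star (Lm j (π fun _ => a))
        have h1 : star (π fun _ => a) = π fun _ => star a := (h.quot.star _ (bdd_const a)).symm
        rw [hLstar, ← hLmul, ← hLmul, h1, hx]
  let F : relComm π →⋆ₐ[ℂ] Elt P :=
    { toFun := fun x => ⟨Lm j (x : Q), hmem x⟩
      map_one' := Subtype.ext hL1
      map_mul' := fun a b => Subtype.ext (hLmul _ _)
      map_zero' := Subtype.ext hL0
      map_add' := fun a b => Subtype.ext (hLadd _ _)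
      commutes' := fun c => Subtype.ext (by
        show Lm j (algebraMap ℂ Q c) = algebraMap ℂ (K →L[ℂ] K) c
        rw [Algebra.algebraMap_eq_smul_one, Algebra.algebraMap_eq_smul_one, hLsmul, hL1])
      map_star' := fun a => Subtype.ext (hLstar _).symm }
  have hinjL : ∀ a b : Q, Lm j a = Lm j b → a = b := by
    intro a b hab
    exact LmHom_inj hS hd hj hB (Subtype.ext hab)
  have hFi : Function.Injective F := by
    intro x y hxy
    have h1 : Lm j (x : Q) = Lm j (y : Q) := congrArg Subtype.val hxy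
    exact Subtype.ext (hinjL _ _ h1)
  have hFs : Function.Surjective F := by
    rintro ⟨z, hz'⟩
    have hz := (mem_commVN S z).1 hz'
    have hzM : z ∈ MM j := by
      have h1 : z ∈ Set.centralizer (Set.centralizer (MM j : Set (K →L[ℂ] K))) := by
        intro t ht
        exact (hz t (Or.inl ht)).1
      rw [VonNeumannAlgebra.centralizer_centralizer] at h1
      exact h1
    obtain ⟨q, hq⟩ := LmHom_surj hS hd hj hB ⟨z, hzM⟩
    have hq' : Lm j q = z := congrArg Subtype.val hq
    have hqr : q ∈ relComm π := by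
      rw [mem_relComm h]
      intro a
      apply hinjL
      rw [hLmul, hLmul, hq']
      exact (hz _ (Or.inr ⟨a, rfl⟩)).1
    exact ⟨⟨q, hqr⟩, Subtype.ext hq'⟩
  let e : relComm π ≃⋆ₐ[ℂ] Elt P := StarAlgEquiv.ofBijective F ⟨hFi, hFs⟩
  let ρ : Elt P → ℂ := fun x => ⟪j 1, (x : K →L[ℂ] K) (j 1)⟫_ℂ
  have hρ : ∀ x, ρ (e x) = φ x := by
    intro x
    show ⟪j 1, Lm j (x : Q) (j 1)⟫_ℂ = φ x
    rw [Lm_j hS hd hj hB, mul_one, hj, star_one, one_mul]
    rfl
  have hρ' : ∀ x, ρ x = φ (e.symm x : relComm π) := by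
    intro x
    rw [← hρ, e.apply_symm_apply]
  refine ⟨K, inferInstance, inferInstance, inferInstance, P, ρ, e, hρ, ⟨?_, ?_, ?_⟩, ?_⟩
  · rw [hρ', map_one]
    exact hS.one
  · intro x y
    rw [hρ', hρ', map_mul, map_mul]
    exact hS.comm _ _
  · intro x hx
    rw [hρ', map_mul, map_star] at hx
    have h1 := hS.faithful ((e.symm x : relComm π) : Q) hx
    have h2 : e.symm x = 0 := Subtype.ext h1
    rw [← e.apply_symm_apply x, h2, map_zero]
  · exact normal_vector P _ (j 1) fun _ => rfl

end ultra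

end Pool.Agent.Helper133.SM
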