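import Mathlib
import Pool.Agent.Helper133.SM.Conc
import Pool.Agent.Helper133.SM.Avg

set_option autoImplicit false
set_option linter.unusedSectionVars false

open scoped InnerProductSpace Topology ComplexOrder BoundedContinuousFunction
open Filter

namespace Pool.Agent.Helper133.SM

open Pool.Agent.Helper278 Pool.Agent.Helper278.CE

section ultra

variable {H : Type} [NormedAddCommGroup H] [InnerProductSpace ℂ H] [CompleteSpace H]
variable {N : VonNeumannAlgebra H}
variable {Q : Type} [Ring Q] [StarRing Q] [Algebra ℂ Q] [StarModule ℂ Q]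
variable {T : TracialState N} {U : Ultrafilter ℕ} {π : (ℕ → Elt N) → Q} {φ : Q → ℂ}

/-- the unitaries of the relative commutant -/
def UR (π : (ℕ → Elt N) → Q) : Set Q := {y | y ∈ relComm π ∧ y ∈ unitary Q}

theorem UR_mul {y z : Q} (hy : y ∈ UR π) (hz : z ∈ UR π) : y * z ∈ UR π :=
  ⟨mul_mem hy.1 hz.1, mul_mem hy.2 hz.2⟩

theorem UR_one : (1 : Q) ∈ UR π := ⟨one_mem _, one_mem _⟩

theorem UR_star {y : Q} (hy : y ∈ UR π) : star y ∈ UR π := by
  refine ⟨star_mem hy.1, ?_⟩
  rw [Unitary.mem_iff, star_star]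
  exact ⟨(Unitary.mem_iff.1 hy.2).2, (Unitary.mem_iff.1 hy.2).1⟩

theorem span_UR (hU : ∀ n, {n} ∉ U) (h : IsTracialUltrapower (fun x => T.τ x) U π φ) (x : Q)
    (hx : x ∈ relComm π) : x ∈ Submodule.span ℂ (UR π) := by
  obtain ⟨K, _, _, _, P, ρ, e, -, -, -⟩ := exists_conc hU h
  have h1 : e ⟨x, hx⟩ ∈ Submodule.span ℂ (unitary (Elt P) : Set (Elt P)) := by
    rw [CStarAlgebra.span_unitary]
    trivial
  have key : ∀ z ∈ Submodule.span ℂ (unitary (Elt P) : Set (Elt P)),
      ((e.symm z : relComm π) : Q) ∈ Submodule.span ℂ (UR π) := by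
    intro z hz
    induction hz using Submodule.span_induction with
    | mem z hz =>
      apply Submodule.subset_span
      refine ⟨(e.symm z).2, ?_⟩
      rw [Unitary.mem_iff]
      have hz' := Unitary.mem_iff.1 hz
      constructor
      · have : star (e.symm z) * e.symm z = 1 := by
          rw [← map_star, ← map_mul, hz'.1, map_one]
        exact congrArg Subtype.val this
      · have : e.symm z * star (e.symm z) = 1 := by
          rw [← map_star, ← map_mul, hz'.2, map_one]
        exact congrArg Subtype.val this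
    | zero =>
      rw [map_zero]
      exact Submodule.zero_mem _
    | add y z _ _ hy hz =>
      rw [map_add]
      exact Submodule.add_mem _ hy hz
    | smul c z _ hz =>
      rw [map_smul]
      exact Submodule.smul_mem _ c hz
  have h2 := key _ h1
  rw [e.symm_apply_apply] at h2
  exact h2

theorem comm_of_UR (hU : ∀ n, {n} ∉ U) (h : IsTracialUltrapower (fun x => T.τ x) U π φ) (z : Q)
    (hz : ∀ y ∈ UR π, z * y = y * z) (x : Q) (hx : x ∈ relComm π) : z * x = x * z := by
  have h1 := span_UR hU h x hx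
  refine Submodule.span_induction (p := fun x _ => z * x = x * z) (fun y hy => hz y hy) ?_ ?_ ?_ h1
  · rw [mul_zero, zero_mul]
  · intro a b _ _ ha hb
    rw [mul_add, add_mul, ha, hb]
  · intro c a _ ha
    rw [mul_smul_comm, smul_mul_assoc, ha]

theorem conj_ball (h : IsTracialUltrapower (fun x => T.τ x) U π φ) (y b : Q)
    (hy : y ∈ unitary Q) (hb : b ∈ ballP π) : y * b * star y ∈ ballP π := by
  obtain ⟨a, rfl⟩ := unit_lift h y hy
  obtain ⟨x, hx, rfl⟩ := hb
  have hxb : BddFam x := ⟨1, hx⟩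
  refine ⟨fun n => (a n : Elt N) * x n * star (a n : Elt N), fun n => ?_, ?_⟩
  · have h1 := norm_unitary_le (a n)
    have h2 : ‖star (a n : Elt N)‖ ≤ 1 := by rwa [norm_star]
    calc ‖(a n : Elt N) * x n * star (a n : Elt N)‖ ≤ ‖(a n : Elt N) * x n‖ * ‖star (a n : Elt N)‖ :=
          norm_mul_le _ _
      _ ≤ (‖(a n : Elt N)‖ * ‖x n‖) * ‖star (a n : Elt N)‖ :=
          mul_le_mul_of_nonneg_right (norm_mul_le _ _) (norm_nonneg _)
      _ ≤ (1 * 1) * 1 := by
          refine mul_le_mul (mul_le_mul h1 (hx n) (norm_nonneg _) zero_le_one) h2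
            (norm_nonneg _) (by norm_num)
      _ = 1 := by norm_num
  · rw [h.quot.mul _ _ (bdd_mul (bdd_unit a) hxb) (bdd_star (bdd_unit a)),
      h.quot.mul _ _ (bdd_unit a) hxb, h.quot.star _ (bdd_unit a)]

theorem n2_unit_left (_h : IsTracialUltrapower (fun x => T.τ x) U π φ) (y z : Q)
    (hy : star y * y = 1) : n2 φ (y * z) = n2 φ z := by
  unfold n2
  have e : star (y * z) * (y * z) = star z * z := by
    rw [star_mul]
    calc star z * star y * (y * z) = star z * (star y * y) * z := by noncomm_ring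
      _ = _ := by rw [hy, mul_one]
  rw [e]

theorem n2_unit_right (h : IsTracialUltrapower (fun x => T.τ x) U π φ) (y z : Q)
    (hy : y * star y = 1) : n2 φ (z * y) = n2 φ z := by
  have hS := phi_trAlg h
  unfold n2
  have e : φ (star (z * y) * (z * y)) = φ (star z * z) := by
    have h1 : star (z * y) * (z * y) = star y * (star z * z * y) := by
      rw [star_mul]; noncomm_ring
    have h2 : φ (star y * (star z * z * y)) = φ (star z * z * y * star y) := hS.comm _ _
    rw [h1, h2, mul_assoc, hy, mul_one]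
  rw [e]

theorem n2_pi_mul (h : IsTracialUltrapower (fun x => T.τ x) U π φ) {x : ℕ → Elt N} {C : ℝ}
    (hx : ∀ n, ‖x n‖ ≤ C) (w : Q) : n2 φ (π x * w) ≤ C * n2 φ w := by
  obtain ⟨y, hy, rfl⟩ := h.quot.surj w
  have hxb : BddFam x := ⟨C, hx⟩
  rw [← h.quot.mul _ _ hxb hy]
  refine le_of_tendsto_of_tendsto' (tendsto_n2 h (bdd_mul hxb hy)) ((tendsto_n2 h hy).const_mul C)
    fun n => ?_
  refine (Helper278.n2_mul_le T (x n) (y n)).trans ?_
  exact mul_le_mul_of_nonneg_right (hx n) (n2_nonneg _ _)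

theorem n2_mul_pi (h : IsTracialUltrapower (fun x => T.τ x) U π φ) {x : ℕ → Elt N} {C : ℝ}
    (hx : ∀ n, ‖x n‖ ≤ C) (w : Q) : n2 φ (w * π x) ≤ C * n2 φ w := by
  obtain ⟨y, hy, rfl⟩ := h.quot.surj w
  have hxb : BddFam x := ⟨C, hx⟩
  rw [← h.quot.mul _ _ hy hxb]
  refine le_of_tendsto_of_tendsto' (tendsto_n2 h (bdd_mul hy hxb)) ((tendsto_n2 h hy).const_mul C)
    fun n => ?_
  refine (Helper278.n2_mul_le' T (y n) (x n)).trans ?_
  exact mul_le_mul_of_nonneg_right (hx n) (n2_nonneg _ _)

/-- the relative commutant is closed -/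
theorem relComm_closed (h : IsTracialUltrapower (fun x => T.τ x) U π φ) (z : ℕ → Q) (x : Q)
    (hz : ∀ n, z n ∈ relComm π) (hlim : Tendsto (fun n => n2 φ (z n - x)) atTop (𝓝 0)) :
    x ∈ relComm π := by
  have hS := phi_trAlg h
  rw [mem_relComm h]
  intro a
  have h1 : ∀ n, n2 φ (π (fun _ => a) * x - x * π (fun _ => a)) ≤
      ‖a‖ * n2 φ (z n - x) + ‖a‖ * n2 φ (z n - x) := by
    intro n
    have h2 := (mem_relComm h (z n)).1 (hz n) a
    have e : π (fun _ => a) * x - x * π (fun _ => a) =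
        (z n - x) * π (fun _ => a) - π (fun _ => a) * (z n - x) := by
      rw [sub_mul, mul_sub, h2]
      abel
    rw [e]
    refine (hS.n2_sub_le _ _).trans (add_le_add ?_ ?_)
    · exact n2_mul_pi h (x := fun _ => a) (fun _ => le_rfl) (z n - x)
    · exact n2_pi_mul h (x := fun _ => a) (fun _ => le_rfl) (z n - x)
  have h2 : Tendsto (fun n => ‖a‖ * n2 φ (z n - x) + ‖a‖ * n2 φ (z n - x)) atTop (𝓝 0) := by
    have := (hlim.const_mul ‖a‖).add (hlim.const_mul ‖a‖)
    simpa using this
  have h3 : n2 φ (π (fun _ => a) * x - x * π (fun _ => a)) ≤ 0 :=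
    ge_of_tendsto' h2 h1
  have h4 := le_antisymm h3 (n2_nonneg _ _)
  have h5 : π (fun _ => a) * x - x * π (fun _ => a) = 0 := by
    apply hS.faithful
    have h8 := hS.n2_sq (π (fun _ => a) * x - x * π (fun _ => a))
    have h9 : n2 (phiL h) (π (fun _ => a) * x - x * π (fun _ => a)) = 0 := h4
    rw [h9] at h8
    apply Complex.ext
    · rw [← h8]; simp
    · rw [hS.im_zero]; simp
  exact sub_eq_zero.1 h5

/-- averaging over the unitaries of the relative commutant -/
theorem avg_rel (hU : ∀ n, {n} ∉ U) (h : IsTracialUltrapower (fun x => T.τ x) U π φ) (x : Q)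
    (hx : x ∈ ballP π) : ∃ x' ∈ ballP π, (∀ y ∈ relComm π, x' * y = y * x') ∧
      (∀ c : ℝ, (∀ y ∈ UR π, n2 φ (x * y - y * x) ≤ c) → n2 φ (x' - x) ≤ c) ∧
      (∀ b : Q, (∀ y ∈ relComm π, y * b = b * y) → φ (x' * b) = φ (x * b)) ∧
      (x ∈ relComm π → x' ∈ relComm π) := by
  have hS := phi_trAlg h
  have hB := ball_P hU h
  obtain ⟨x', hx', hfix, z, hz, hlim⟩ := averaging hS hB.conv hB.complete (UR π) ⟨1, UR_one⟩
    (fun y hy z hz => UR_mul hy hz) (fun y hy => (Unitary.mem_iff.1 hy.2).1)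
    (fun y hy b hb => conj_ball h y b hy.2 hb) x hx
  refine ⟨x', hx', ?_, ?_, ?_, ?_⟩
  · apply comm_of_UR hU h
    intro y hy
    have h1 := hfix y hy
    have h2 := (Unitary.mem_iff.1 hy.2).1
    calc x' * y = y * x' * star y * y := by rw [h1]
      _ = y * x' * (star y * y) := by noncomm_ring
      _ = y * x' := by rw [h2, mul_one]
  · intro c hc
    have h1 : ∀ n, n2 (phiL h) (z n - x) ≤ c := by
      intro n
      refine hull_dist hS c (fun y hy => ?_) (hz n)
      have hyu := Unitary.mem_iff.1 hy.2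
      have e : (y * x * star y - x) = (y * x - x * y) * star y := by
        rw [sub_mul, mul_assoc x y, hyu.2, mul_one]
      have h2 : n2 φ ((y * x - x * y) * star y) = n2 φ (y * x - x * y) :=
        n2_unit_right h (star y) _ (by rw [star_star]; exact hyu.1)
      show n2 φ (y * x * star y - x) ≤ c
      rw [e, h2]
      have h3 : n2 φ (y * x - x * y) = n2 φ (x * y - y * x) := hS.n2_sub_comm _ _
      rw [h3]
      exact hc y hy
    have h2 : Tendsto (fun n => n2 φ (z n - x') + c) atTop (𝓝 (0 + c)) :=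
      (show Tendsto (fun n => n2 φ (z n - x')) atTop (𝓝 0) from hlim).add_const c
    rw [zero_add] at h2
    refine ge_of_tendsto' h2 fun n => ?_
    have h3 : n2 φ (x' - x) ≤ n2 φ (x' - z n) + n2 φ (z n - x) := hS.n2_tri _ _ _
    have h4 : n2 φ (x' - z n) = n2 φ (z n - x') := hS.n2_sub_comm _ _
    have h5 : n2 φ (z n - x) ≤ c := h1 n
    linarith
  · intro b hb
    have h1 : ∀ n, φ (z n * b) = φ (x * b) := fun n =>
      hull_trace hS b (fun y hy => (Unitary.mem_iff.1 hy.2).1) (fun y hy => hb y hy.1) (hz n)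
    have h2 : Tendsto (fun n => φ (z n * b) - φ (x' * b)) atTop (𝓝 0) := by
      rw [tendsto_zero_iff_norm_tendsto_zero]
      have h3 : Tendsto (fun n => n2 φ (z n - x') * n2 φ b) atTop (𝓝 0) := by
        have := (show Tendsto (fun n => n2 φ (z n - x')) atTop (𝓝 0) from hlim).mul_const (n2 φ b)
        rwa [zero_mul] at this
      refine squeeze_zero (fun n => norm_nonneg _) (fun n => ?_) h3
      have h4 : φ (z n * b) - φ (x' * b) = φ ((z n - x') * b) := by
        have : phiL h (z n * b) - phiL h (x' * b) = phiL h ((z n - x') * b) := by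
          rw [sub_mul, map_sub]
        exact this
      rw [h4]
      exact hS.cauchy' (z n - x') b
    have h3 : Tendsto (fun n => φ (z n * b) - φ (x' * b)) atTop (𝓝 (φ (x * b) - φ (x' * b))) := by
      refine tendsto_const_nhds.congr fun n => ?_
      rw [h1 n]
    have h4 := tendsto_nhds_unique h3 h2
    exact (sub_eq_zero.1 h4).symm
  · intro hxr
    refine relComm_closed h z x' (fun n => ?_) hlim
    refine hull_sub (relComm π).toSubalgebra.toSubmodule (fun y hy => ?_) (hz n)
    show y * x * star y ∈ relComm π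
    exact mul_mem (mul_mem hy.1 hxr) (star_mem hy.1)

/-- factoriality gives unitaries that move elements off the scalars -/
theorem factor_prop (hU : ∀ n, {n} ∉ U) (h : IsTracialUltrapower (fun x => T.τ x) U π φ)
    (hcen : ∀ z ∈ relComm π, (∀ x ∈ relComm π, z * x = x * z) → ∃ c : ℂ, z = c • (1 : Q)) (x : Q)
    (hx : x ∈ ballP π) (hxr : x ∈ relComm π) (c : ℝ)
    (hc : ∀ y ∈ UR π, n2 φ (x * y - y * x) ≤ c) : n2 φ (x - φ x • (1 : Q)) ≤ c := by
  have hS := phi_trAlg h
  obtain ⟨x', hx', h1, h2, h3, h4⟩ := avg_rel hU h x hx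
  obtain ⟨s, hs⟩ := hcen x' (h4 hxr) h1
  have h5 := h3 1 (fun y _ => by rw [mul_one, one_mul])
  rw [mul_one, mul_one, hs] at h5
  have h6 : φ (s • (1 : Q)) = s := by
    have : phiL h (s • (1 : Q)) = s := by rw [map_smul, hS.one, smul_eq_mul, mul_one]
    exact this
  rw [h6] at h5
  have h7 := h2 c hc
  rw [hs, h5] at h7
  have h8 : n2 φ (x - φ x • (1 : Q)) = n2 φ (φ x • (1 : Q) - x) := hS.n2_sub_comm _ _
  rw [h8]
  exact h7

/-- the relative commutant is independent of its commutant -/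
theorem indep_prop (hU : ∀ n, {n} ∉ U) (h : IsTracialUltrapower (fun x => T.τ x) U π φ)
    (hcen : ∀ z ∈ relComm π, (∀ x ∈ relComm π, z * x = x * z) → ∃ c : ℂ, z = c • (1 : Q)) (x : Q)
    (hxr : x ∈ relComm π) (b : Q) (hb : ∀ y ∈ relComm π, y * b = b * y) :
    φ (x * b) = φ x * φ b := by
  have hS := phi_trAlg h
  have hB := ball_P hU h
  -- first for contractions
  have key : ∀ x ∈ ballP π, x ∈ relComm π → phiL h (x * b) = phiL h x * phiL h b := by
    intro x hx hxr
    obtain ⟨x', hx', h1, h2, h3, h4⟩ := avg_rel hU h x hx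
    obtain ⟨s, hs⟩ := hcen x' (h4 hxr) h1
    have h5 := h3 1 (fun y _ => by rw [mul_one, one_mul])
    rw [mul_one, mul_one, hs] at h5
    have h6 : φ (s • (1 : Q)) = s := by
      have : phiL h (s • (1 : Q)) = s := by rw [map_smul, hS.one, smul_eq_mul, mul_one]
      exact this
    rw [h6] at h5
    have h7 := h3 b hb
    rw [hs, smul_mul_assoc, one_mul] at h7
    have h8 : phiL h (s • b) = s * phiL h b := by rw [map_smul, smul_eq_mul]
    have h9 : phiL h (x * b) = phiL h (s • b) := h7.symm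
    rw [h9, h8]
    have h10 : s = phiL h x := h5
    rw [h10]
  obtain ⟨c, hc, hcx⟩ := hB.span x
  have h1 := key _ hcx ((relComm π).smul_mem hxr _)
  rw [smul_mul_assoc, map_smul, map_smul, smul_eq_mul, smul_eq_mul, mul_assoc] at h1
  exact mul_left_cancel₀ (Complex.ofReal_ne_zero.2 hc.ne') h1

end ultra

end Pool.Agent.Helper133.SM
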