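import Mathlib
import Pool.Agent.Helper133.SM.Rel
import Pool.Agent.Helper133.SM.AvgMap

set_option autoImplicit false
set_option linter.unusedSectionVars false

open scoped InnerProductSpace Topology ComplexOrder BoundedContinuousFunction
open Filter

namespace Pool.Agent.Helper133.SM

open Pool.Agent.Helper278 Pool.Agent.Helper278.CE

section ultra

variable {H : Type} [NormedAddCommGroup H] [InnerProductSpace ℂ H] [CompleteSpace H]
variable {N : VonNeumannAlgebra H}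
variable {Q : Type} [Ring Q] [StarRing Q] [Algebra ℂ Q] [StarModule ℂ Q]
variable {T : TracialState N} {U : Ultrafilter ℕ} {π : (ℕ → Elt N) → Q} {φ : Q → ℂ}

theorem n2_le_norm (T : TracialState N) (x : Elt N) : n2 T.τ x ≤ ‖x‖ := by
  have h1 := Helper278.n2_mul_le T x 1
  rw [mul_one, (trAlg T).n2_one, mul_one] at h1
  exact h1

theorem U_le_atTop (hU : ∀ n, {n} ∉ U) : (U : Filter ℕ) ≤ atTop := by
  rcases Ultrafilter.le_cofinite_or_eq_pure U with h1 | ⟨n, hn⟩
  · rwa [Nat.cofinite_eq_atTop] at h1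
  · exfalso
    apply hU n
    rw [hn]
    exact Ultrafilter.mem_pure.2 rfl

/-- Claim 1: the averaged detection of noncentral elements. -/
theorem claim1 (hU : ∀ n, {n} ∉ U) (h : IsTracialUltrapower (fun x => T.τ x) U π φ)
    (hcen : ∀ z ∈ relComm π, (∀ x ∈ relComm π, z * x = x * z) → ∃ c : ℂ, z = c • (1 : Q))
    (u : ℕ → unitary (Elt N))
    (hu : ∀ q : Q, (∀ k, q * π (fun _ => (u k : Elt N)) = π (fun _ => (u k : Elt N)) * q) →
      q ∈ relComm π)
    (F : Finset (Elt N)) (δ : ℝ) (hδ : 0 < δ) (ε : ℝ) (hε : 0 < ε) :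
    ∃ (ι : Type) (_ : Fintype ι) (w : ι → ℝ) (f : ι → unitary (Elt N)), (∀ i, 0 ≤ w i) ∧
      ∑ i, w i = 1 ∧ ∀ x : Elt N, ‖x‖ ≤ 1 → ε ≤ n2 T.τ (x - T.τ x • (1 : Elt N)) →
        ∑ i, w i * n2 T.τ (x * (f i : Elt N) - (f i : Elt N) * x) ^ 2 ≤ (ε / 8) ^ 2 →
        ∃ y : unitary (Elt N), (∀ a ∈ F, n2 T.τ ((y : Elt N) * a - a * (y : Elt N)) < δ) ∧
          ε / 2 ≤ n2 T.τ (x * (y : Elt N) - (y : Elt N) * x) := by
  classical
  have hA := trAlg T
  have hS := phi_trAlg h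
  by_contra hcon
  push Not at hcon
  -- the bad elements
  have hbad : ∀ m : ℕ, ∃ x x' : Elt N, ‖x‖ ≤ 1 ∧ ‖x'‖ ≤ 1 ∧
      ε ≤ n2 T.τ (x - T.τ x • (1 : Elt N)) ∧ n2 T.τ (x' - x) ≤ ε / 8 ∧
      n2 T.τ (avT u m x' - x') ≤ 2 / (((m + 1) ^ 2 : ℕ) : ℝ) ∧
      ∀ y : unitary (Elt N), (∀ a ∈ F, n2 T.τ ((y : Elt N) * a - a * (y : Elt N)) < δ) →
        n2 T.τ (x * (y : Elt N) - (y : Elt N) * x) < ε / 2 := by
    intro m
    have hK : 0 < (m + 1) ^ 2 := by positivity
    obtain ⟨ι, hι, w, f, hw, hw1, hC⟩ := isAvg_ces u m ((m + 1) ^ 2) hK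
    obtain ⟨x, hx1, hx2, hx3, hx4⟩ := hcon ι hι w f hw hw1
    refine ⟨x, ces u m ((m + 1) ^ 2) x, hx1, ((isAvg_ces u m _ hK).norm_le x).trans hx1, hx2, ?_,
      ?_, hx4⟩
    · rw [hC]
      exact avg_disp T w f hw hw1 x (ε / 8) (by positivity) hx3
    · refine (ces_fix T u m _ hK x).trans ?_
      have h1 := (n2_le_norm T x).trans hx1
      have h2 : (0 : ℝ) ≤ 2 / (((m + 1) ^ 2 : ℕ) : ℝ) := by positivity
      calc 2 / (((m + 1) ^ 2 : ℕ) : ℝ) * n2 T.τ x ≤ 2 / (((m + 1) ^ 2 : ℕ) : ℝ) * 1 :=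
            mul_le_mul_of_nonneg_left h1 h2
        _ = _ := mul_one _
  choose x x' hx1 hx'1 hx2 hx3 hx4 hx5 using hbad
  have hxb : BddFam x := ⟨1, hx1⟩
  have hx'b : BddFam x' := ⟨1, hx'1⟩
  -- the limit is in the relative commutant
  have hrel : π x' ∈ relComm π := by
    apply hu
    intro k
    rw [← sub_eq_zero, ← comm_pi h hx'b (bdd_const (u k : Elt N))]
    have h1 : Tendsto (fun m => n2 T.τ (x' m * (u k : Elt N) - (u k : Elt N) * x' m)) U (𝓝 0) := by
      have h2 : Tendsto (fun m : ℕ => Real.sqrt (4 / ((m : ℝ) + 1))) atTop (𝓝 0) := by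
        have h3 : Tendsto (fun m : ℕ => 4 / ((m : ℝ) + 1)) atTop (𝓝 0) := by
          have := (tendsto_one_div_add_atTop_nhds_zero_nat (𝕜 := ℝ)).const_mul 4
          rw [mul_zero] at this
          refine this.congr fun m => ?_
          ring
        have := (Real.continuous_sqrt.tendsto 0).comp h3
        rwa [Real.sqrt_zero] at this
      refine squeeze_zero' (Eventually.of_forall fun m => n2_nonneg _ _) ?_
        (h2.mono_left (U_le_atTop hU))
      have h3 : ∀ᶠ m : ℕ in (U : Filter ℕ), k ≤ m := U_le_atTop hU (eventually_ge_atTop k)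
      refine h3.mono fun m hm => ?_
      apply Real.le_sqrt_of_sq_le
      refine (fix_each T u m k hm (x' m)).trans ?_
      have h4 := (n2_le_norm T (x' m)).trans (hx'1 m)
      have h5 := hx4 m
      have h6 := n2_nonneg T.τ (x' m)
      have h7 := n2_nonneg T.τ (avT u m (x' m) - x' m)
      have h8 : n2 T.τ (x' m) * n2 T.τ (avT u m (x' m) - x' m) ≤
          1 * (2 / (((m + 1) ^ 2 : ℕ) : ℝ)) := mul_le_mul h4 h5 h7 zero_le_one
      calc 2 * ((m : ℝ) + 1) * (n2 T.τ (x' m) * n2 T.τ (avT u m (x' m) - x' m)) ≤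
          2 * ((m : ℝ) + 1) * (1 * (2 / (((m + 1) ^ 2 : ℕ) : ℝ))) :=
            mul_le_mul_of_nonneg_left h8 (by positivity)
        _ = 4 / ((m : ℝ) + 1) := by
            push_cast
            field_simp
            ring
    have h2 := (pi_eq h (x := fun m => x' m * (u k : Elt N) - (u k : Elt N) * x' m)
      (y := fun _ => (0 : Elt N)) (bdd_sub (bdd_mul hx'b (bdd_const _))
        (bdd_mul (bdd_const _) hx'b)) (bdd_const 0)).2 (by
      refine h1.congr fun m => ?_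
      rw [sub_zero])
    rw [h2]
    have h3 : π (fun _ => (0 : Elt N)) = (0 : ℂ) • (1 : Q) := by
      rw [← scal_pi h]
      congr 1
      funext n
      rw [zero_smul]
    rw [h3, zero_smul]
  have hball : π x' ∈ ballP π := ⟨x', hx'1, rfl⟩
  have hdist : n2 φ (π x' - π x) ≤ ε / 8 := by
    rw [← quot_sub h.quot hx'b hxb]
    exact le_of_tendsto' (tendsto_n2 h (bdd_sub hx'b hxb)) hx3
  have hcent : 7 * ε / 8 ≤ n2 φ (π x' - φ (π x') • (1 : Q)) := by
    have h1 : ε ≤ n2 φ (π x - φ (π x) • (1 : Q)) := ge_of_tendsto' (tendsto_cent h hxb) hx2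
    have h2 : n2 φ (π x - φ (π x) • (1 : Q)) ≤ n2 φ (π x' - φ (π x') • (1 : Q)) +
        n2 φ (π x - π x') := cent_diff hS (π x) (π x')
    have h3 : n2 φ (π x - π x') = n2 φ (π x' - π x) := hS.n2_sub_comm _ _
    linarith
  -- a unitary moving the limit
  obtain ⟨y, hy, hyc⟩ : ∃ y ∈ UR π, 3 * ε / 4 < n2 φ (π x' * y - y * π x') := by
    by_contra hno
    push Not at hno
    have h1 := factor_prop hU h hcen (π x') hball hrel (3 * ε / 4) hno
    linarith
  obtain ⟨a, rfl⟩ := unit_lift h y hy.2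
  have hyl := tendsto_n2 h (bdd_sub (bdd_mul hx'b (bdd_unit a)) (bdd_mul (bdd_unit a) hx'b))
  rw [comm_pi h hx'b (bdd_unit a)] at hyl
  have ev1 : ∀ᶠ m in (U : Filter ℕ), 3 * ε / 4 <
      n2 T.τ (x' m * (a m : Elt N) - (a m : Elt N) * x' m) :=
    hyl.eventually (lt_mem_nhds hyc)
  have ev2 : ∀ᶠ m in (U : Filter ℕ), ∀ b ∈ F,
      n2 T.τ ((a m : Elt N) * b - b * (a m : Elt N)) < δ := by
    rw [Filter.eventually_all_finset]
    intro b _
    have h1 := tendsto_n2 h (bdd_sub (bdd_mul (bdd_unit a) (bdd_const b))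
      (bdd_mul (bdd_const b) (bdd_unit a)))
    rw [comm_pi h (bdd_unit a) (bdd_const b), ← (mem_relComm h _).1 hy.1 b, sub_self] at h1
    have h2 : n2 φ (0 : Q) = 0 := hS.n2_zero
    rw [h2] at h1
    exact h1.eventually (gt_mem_nhds hδ)
  obtain ⟨m, hm1, hm2⟩ := (ev1.and ev2).exists
  have h1 := hx5 m (a m) hm2
  have h2 := comm_diff hA (a m : Elt N) (x' m) (x m) (Unitary.mem_iff.1 (a m).2).1
    (Unitary.mem_iff.1 (a m).2).2
  have h3 := hx3 m
  linarith

end ultra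

end Pool.Agent.Helper133.SM
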