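import Mathlib
import Pool.Agent.Helper133.SM.Rel
import Pool.Agent.Helper278.GroupMain

set_option autoImplicit false
set_option linter.unusedSectionVars false

open scoped InnerProductSpace Topology ComplexOrder BoundedContinuousFunction
open Filter

namespace Pool.Agent.Helper133.SM

open Pool.Agent.Helper278 Pool.Agent.Helper278.CE

section ultra

variable {H : Type} [NormedAddCommGroup H] [InnerProductSpace ℂ H] [CompleteSpace H]
variable {N : VonNeumannAlgebra H}
variable {Q : Type} [Ring Q] [StarRing Q] [Algebra ℂ Q] [StarModule ℂ Q]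
variable {T : TracialState N} {U : Ultrafilter ℕ} {π : (ℕ → Elt N) → Q} {φ : Q → ℂ}

theorem center_of_abs (hII : IsAbstractIIOneFactor (relComm π)) :
    ∀ z ∈ relComm π, (∀ x ∈ relComm π, z * x = x * z) → ∃ c : ℂ, z = c • (1 : Q) := by
  obtain ⟨L, _, _, _, P, ρ, hP, ⟨e⟩⟩ := hII
  intro z hz hcom
  obtain ⟨c, hc⟩ := hP.center _ (e ⟨z, hz⟩).2 (by
    intro x hx
    have h1 : (⟨z, hz⟩ : relComm π) * e.symm ⟨x, hx⟩ = e.symm ⟨x, hx⟩ * ⟨z, hz⟩ :=
      Subtype.ext (hcom _ (e.symm ⟨x, hx⟩).2)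
    have h2 := congrArg e h1
    rw [map_mul, map_mul, e.apply_symm_apply] at h2
    exact congrArg Subtype.val h2)
  refine ⟨c, ?_⟩
  have h1 : e ⟨z, hz⟩ = e (c • (1 : relComm π)) := by
    rw [map_smul, map_one]
    exact Subtype.ext hc
  exact congrArg Subtype.val (e.injective h1)

theorem infinite_of_abs (hII : IsAbstractIIOneFactor (relComm π)) :
    ¬ FiniteDimensional ℂ (relComm π) := by
  obtain ⟨L, _, _, _, P, ρ, hP, ⟨e⟩⟩ := hII
  intro hfin
  apply hP.infinite
  let f : Elt P →ₗ[ℂ] relComm π :=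
    { toFun := e.symm
      map_add' := map_add e.symm
      map_smul' := fun c x => map_smul e.symm c x }
  exact FiniteDimensional.of_injective f e.symm.injective

/-- A relative commutant with trivial center and infinite dimension is a II₁ factor. -/
theorem abs_of_data (hU : ∀ n, {n} ∉ U) (h : IsTracialUltrapower (fun x => T.τ x) U π φ)
    (hcen : ∀ z ∈ relComm π, (∀ x ∈ relComm π, z * x = x * z) → ∃ c : ℂ, z = c • (1 : Q))
    (hinf : ¬ FiniteDimensional ℂ (relComm π)) : IsAbstractIIOneFactor (relComm π) := by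
  obtain ⟨K, _, _, _, P, ρ, e, hρ, htr, hnor⟩ := exists_conc hU h
  refine ⟨K, inferInstance, inferInstance, inferInstance, P, ρ, ⟨?_, ?_, htr, hnor⟩, ⟨e⟩⟩
  · intro z hz hcom
    obtain ⟨c, hc⟩ := hcen (e.symm ⟨z, hz⟩ : relComm π) (e.symm ⟨z, hz⟩ : relComm π).2 (by
      intro x hx
      have h1 : (⟨z, hz⟩ : Elt P) * e ⟨x, hx⟩ = e ⟨x, hx⟩ * ⟨z, hz⟩ :=
        Subtype.ext (hcom _ (e ⟨x, hx⟩).2)
      have h2 := congrArg e.symm h1
      rw [map_mul, map_mul, e.symm_apply_apply] at h2
      exact congrArg Subtype.val h2)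
    refine ⟨c, ?_⟩
    have h1 : e.symm ⟨z, hz⟩ = c • (1 : relComm π) := Subtype.ext hc
    have h2 : (⟨z, hz⟩ : Elt P) = c • (1 : Elt P) := by
      rw [← e.apply_symm_apply ⟨z, hz⟩, h1, map_smul, map_one]
    exact congrArg Subtype.val h2
  · intro hfin
    apply hinf
    let f : relComm π →ₗ[ℂ] Elt P :=
      { toFun := e
        map_add' := map_add e
        map_smul' := fun c x => map_smul e c x }
    exact FiniteDimensional.of_injective f e.injective

/-- partitions of unity in the relative commutant with prescribed traces -/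
theorem exists_pvm (hU : ∀ n, {n} ∉ U) (h : IsTracialUltrapower (fun x => T.τ x) U π φ)
    (hcen : ∀ z ∈ relComm π, (∀ x ∈ relComm π, z * x = x * z) → ∃ c : ℂ, z = c • (1 : Q))
    (hinf : ¬ FiniteDimensional ℂ (relComm π)) {ι : Type} [Fintype ι] (w : ι → ℝ)
    (hw : ∀ i, 0 ≤ w i) (hw1 : ∑ i, w i = 1) :
    ∃ p : ι → Q, (∀ i, p i ∈ relComm π) ∧ PVM p ∧ ∀ i, φ (p i) = (w i : ℂ) := by
  classical
  obtain ⟨K, _, _, _, P, ρ, e, hρ, htr, hnor⟩ := exists_conc hU h
  obtain ⟨hc, hi⟩ : HasTrivialCenter P ∧ ¬ FiniteDimensional ℂ (Elt P) := by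
    constructor
    · intro z hz hcom
      obtain ⟨c, hc⟩ := hcen (e.symm ⟨z, hz⟩ : relComm π) (e.symm ⟨z, hz⟩ : relComm π).2 (by
        intro x hx
        have h1 : (⟨z, hz⟩ : Elt P) * e ⟨x, hx⟩ = e ⟨x, hx⟩ * ⟨z, hz⟩ :=
          Subtype.ext (hcom _ (e ⟨x, hx⟩).2)
        have h2 := congrArg e.symm h1
        rw [map_mul, map_mul, e.symm_apply_apply] at h2
        exact congrArg Subtype.val h2)
      refine ⟨c, ?_⟩
      have h1 : e.symm ⟨z, hz⟩ = c • (1 : relComm π) := Subtype.ext hc
      have h2 : (⟨z, hz⟩ : Elt P) = c • (1 : Elt P) := by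
        rw [← e.apply_symm_apply ⟨z, hz⟩, h1, map_smul, map_one]
      exact congrArg Subtype.val h2
    · intro hfin
      apply hinf
      let f : relComm π →ₗ[ℂ] Elt P :=
        { toFun := e
          map_add' := map_add e
          map_smul' := fun c x => map_smul e c x }
      exact FiniteDimensional.of_injective f e.injective
  let TP : TracialState P := mkState P ρ hnor htr
  have hL : LyapProp TP.τ := lyapProp TP (diffuse_of_factor TP hc hi)
  obtain ⟨D, -, -, hD⟩ := hL ∅ (by simp) (by simp)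
  obtain ⟨p, -, hp, hpt⟩ := hD ι Unit (fun i => ((w i : ℝ) : ℂ) • (1 : Elt P)) (fun _ => 1)
    (fun i => D.smul_mem (one_mem D) _)
    (fun i => pos_proj (star_one _) (mul_one _) (w i) (hw i)) (by
      rw [← Finset.sum_smul, ← Complex.ofReal_sum, hw1, Complex.ofReal_one, one_smul])
  refine ⟨fun i => ((e.symm (p i) : relComm π) : Q), fun i => (e.symm (p i)).2,
    ⟨?_, ?_, ?_, ?_⟩, ?_⟩
  · intro i
    have h1 : star (e.symm (p i)) = e.symm (p i) := by rw [← map_star, hp.star_eq]
    exact congrArg Subtype.val h1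
  · intro i
    have h1 : e.symm (p i) * e.symm (p i) = e.symm (p i) := by rw [← map_mul, hp.idem]
    exact congrArg Subtype.val h1
  · intro i j hij
    have h1 : e.symm (p i) * e.symm (p j) = 0 := by rw [← map_mul, hp.orth i j hij, map_zero]
    exact congrArg Subtype.val h1
  · have h1 : ∑ i, e.symm (p i) = 1 := by rw [← map_sum, hp.sum, map_one]
    have h2 := congrArg (fun z : relComm π => (z : Q)) h1
    simpa using h2
  · intro i
    have h1 := hpt i ()
    rw [mul_one, mul_one, map_smul, (trAlg TP).one, smul_eq_mul, mul_one] at h1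
    rw [← hρ, e.apply_symm_apply]
    exact h1

end ultra

end Pool.Agent.Helper133.SM
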