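import Mathlib
import Pool.Agent.Helper133.SM.C1
import Pool.Agent.Helper133.SM.Data

set_option autoImplicit false
set_option linter.unusedSectionVars false

open scoped InnerProductSpace Topology ComplexOrder BoundedContinuousFunction
open Filter

namespace Pool.Agent.Helper133.SM

open Pool.Agent.Helper278 Pool.Agent.Helper278.CE

section pvm

variable {A : Type*} [Ring A] [StarRing A] [Algebra ℂ A] [StarModule ℂ A] {τ : A →ₗ[ℂ] ℂ}

theorem pvm_mul {ι : Type*} [Fintype ι] {p : ι → A} (hp : PVM p) (x y : ι → A)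
    (hx : ∀ i, x i * p i = p i * x i) :
    star (∑ i, p i * x i) * (∑ i, p i * y i) = ∑ i, star (x i) * (p i * y i) := by
  classical
  rw [star_sum, Finset.sum_mul_sum]
  refine Finset.sum_congr rfl fun i _ => ?_
  rw [Finset.sum_eq_single i]
  · rw [star_mul, hp.star_eq]
    calc star (x i) * p i * (p i * y i) = star (x i) * ((p i * p i) * y i) := by
          simp only [mul_assoc]
      _ = _ := by rw [hp.idem]
  · intro j _ hji
    rw [star_mul, hp.star_eq]
    calc star (x i) * p i * (p j * y j) = star (x i) * ((p i * p j) * y j) := by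
          simp only [mul_assoc]
      _ = 0 := by rw [hp.orth i j (Ne.symm hji), zero_mul, mul_zero]
  · intro hi
    exact absurd (Finset.mem_univ i) hi

theorem pvm_unitary {ι : Type*} [Fintype ι] {p : ι → A} (hp : PVM p) (x : ι → A)
    (hx : ∀ i, x i * p i = p i * x i) (hu : ∀ i, star (x i) * x i = 1)
    (hu' : ∀ i, x i * star (x i) = 1) :
    ∑ i, p i * x i ∈ unitary A := by
  classical
  have hxs : ∀ i, star (x i) * p i = p i * star (x i) := by
    intro i
    have := congrArg star (hx i)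
    rw [star_mul, star_mul, hp.star_eq] at this
    exact this.symm
  rw [Unitary.mem_iff]
  constructor
  · rw [pvm_mul hp x x hx]
    rw [← hp.sum]
    refine Finset.sum_congr rfl fun i _ => ?_
    rw [← hx, ← mul_assoc, hu, one_mul]
  · have e : star (∑ i, p i * x i) = ∑ i, p i * star (x i) := by
      rw [star_sum]
      refine Finset.sum_congr rfl fun i _ => ?_
      rw [star_mul, hp.star_eq, hxs]
    have e2 : ∑ i, p i * x i = star (∑ i, p i * star (x i)) := by
      rw [← e, star_star]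
    rw [e]
    conv_lhs => rw [e2]
    rw [pvm_mul hp (fun i => star (x i)) (fun i => star (x i)) hxs, ← hp.sum]
    refine Finset.sum_congr rfl fun i _ => ?_
    rw [star_star, ← hxs, ← mul_assoc, hu', one_mul]

end pvm

section ultra

variable {H : Type} [NormedAddCommGroup H] [InnerProductSpace ℂ H] [CompleteSpace H]
variable {N : VonNeumannAlgebra H}
variable {Q : Type} [Ring Q] [StarRing Q] [Algebra ℂ Q] [StarModule ℂ Q]
variable {T : TracialState N} {U : Ultrafilter ℕ} {π : (ℕ → Elt N) → Q} {φ : Q → ℂ}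

/-- Claim 2: one unitary detects noncentral elements. -/
theorem claim2 (hU : ∀ n, {n} ∉ U) (h : IsTracialUltrapower (fun x => T.τ x) U π φ)
    (hcen : ∀ z ∈ relComm π, (∀ x ∈ relComm π, z * x = x * z) → ∃ c : ℂ, z = c • (1 : Q))
    (hinf : ¬ FiniteDimensional ℂ (relComm π))
    (u : ℕ → unitary (Elt N))
    (hu : ∀ q : Q, (∀ k, q * π (fun _ => (u k : Elt N)) = π (fun _ => (u k : Elt N)) * q) →
      q ∈ relComm π)
    (F : Finset (Elt N)) (δ : ℝ) (hδ : 0 < δ) (ε : ℝ) (hε : 0 < ε) :
    ∃ g : unitary (Elt N), ∀ x : Elt N, ‖x‖ ≤ 1 → ε ≤ n2 T.τ (x - T.τ x • (1 : Elt N)) →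
        n2 T.τ (x * (g : Elt N) - (g : Elt N) * x) ≤ ε / 64 →
        ∃ y : unitary (Elt N), (∀ a ∈ F, n2 T.τ ((y : Elt N) * a - a * (y : Elt N)) < δ) ∧
          ε / 64 ≤ n2 T.τ (x * (y : Elt N) - (y : Elt N) * x) := by
  classical
  have hA := trAlg T
  have hS := phi_trAlg h
  by_contra hcon
  push Not at hcon
  obtain ⟨ι, _, w, f, hw, hw1, hf⟩ := claim1 hU h hcen u hu F δ hδ (ε / 2) (by positivity)
  obtain ⟨p, hpr, hp, hpw⟩ := exists_pvm hU h hcen hinf w hw hw1
  -- the coding unitary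
  set c : ι → Q := fun i => π (fun _ => (f i : Elt N)) with hc
  have hcu : ∀ i, star (c i) * c i = 1 := fun i =>
    (Unitary.mem_iff.1 (unit_pi h (fun _ => f i))).1
  have hcu' : ∀ i, c i * star (c i) = 1 := fun i =>
    (Unitary.mem_iff.1 (unit_pi h (fun _ => f i))).2
  have hcr : ∀ i, ∀ y ∈ relComm π, c i * y = y * c i := fun i y hy =>
    (mem_relComm h y).1 hy (f i : Elt N)
  have hcp : ∀ i, c i * p i = p i * c i := fun i => hcr i _ (hpr i)
  have hG : ∑ i, p i * c i ∈ unitary Q := pvm_unitary hp c hcp hcu hcu'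
  obtain ⟨g, hg⟩ := unit_lift h _ hG
  set G : Q := ∑ i, p i * c i with hGdef
  choose x hx1 hx2 hx3 hx4 using fun m => hcon (g m)
  have hxb : BddFam x := ⟨1, hx1⟩
  have hball : π x ∈ ballP π := ⟨x, hx1, rfl⟩
  -- badness against the relative commutant
  have hbad : ∀ y ∈ UR π, n2 φ (π x * y - y * π x) ≤ ε / 64 := by
    intro y hy
    obtain ⟨a, rfl⟩ := unit_lift h y hy.2
    have hyl := tendsto_n2 h (bdd_sub (bdd_mul hxb (bdd_unit a)) (bdd_mul (bdd_unit a) hxb))
    rw [comm_pi h hxb (bdd_unit a)] at hyl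
    have ev2 : ∀ᶠ m in (U : Filter ℕ), ∀ b ∈ F,
        n2 T.τ ((a m : Elt N) * b - b * (a m : Elt N)) < δ := by
      rw [Filter.eventually_all_finset]
      intro b _
      have h1 := tendsto_n2 h (bdd_sub (bdd_mul (bdd_unit a) (bdd_const b))
        (bdd_mul (bdd_const b) (bdd_unit a)))
      rw [comm_pi h (bdd_unit a) (bdd_const b), ← (mem_relComm h _).1 hy.1 b, sub_self] at h1
      have h2 : n2 φ (0 : Q) = 0 := hS.n2_zero
      rw [h2] at h1
      exact h1.eventually (gt_mem_nhds hδ)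
    exact le_of_tendsto hyl (ev2.mono fun m hm => (hx4 m (a m) hm).le)
  obtain ⟨X', ⟨x', hx'1, rfl⟩, hX'c, hX'd, -, -⟩ := avg_rel hU h (π x) hball
  have hx'b : BddFam x' := ⟨1, hx'1⟩
  have hdist : n2 φ (π x' - π x) ≤ ε / 64 := hX'd _ hbad
  -- the commutator with the coding unitary
  have hGx : n2 φ (π x * G - G * π x) ≤ ε / 64 := by
    rw [← hg, ← comm_pi h hxb (bdd_unit g)]
    exact le_of_tendsto' (tendsto_n2 h (bdd_sub (bdd_mul hxb (bdd_unit g))
      (bdd_mul (bdd_unit g) hxb))) hx3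
  have hGx' : n2 φ (π x' * G - G * π x') ≤ 3 * ε / 64 := by
    have hGu := Unitary.mem_iff.1 hG
    have h1 : n2 φ (π x' * G - G * π x') ≤ n2 φ (π x * G - G * π x) + 2 * n2 φ (π x' - π x) :=
      comm_diff hS G (π x') (π x) hGu.1 hGu.2
    linarith
  set z : ι → Q := fun i => π x' * c i - c i * π x' with hz
  have hzr : ∀ i, ∀ y ∈ relComm π, y * z i = z i * y := by
    intro i y hy
    have h1 := hX'c y hy
    have h2 := hcr i y hy
    show y * (π x' * c i - c i * π x') = (π x' * c i - c i * π x') * y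
    rw [mul_sub, sub_mul]
    have e1 : y * (π x' * c i) = π x' * c i * y := by
      rw [← mul_assoc, ← h1, mul_assoc, ← h2, mul_assoc]
    have e2 : y * (c i * π x') = c i * π x' * y := by
      rw [← mul_assoc, ← h2, mul_assoc, ← h1, mul_assoc]
    rw [e1, e2]
  have hzs : ∀ i, ∀ y ∈ relComm π, y * star (z i) = star (z i) * y := by
    intro i y hy
    have h1 := congrArg star (hzr i (star y) (star_mem hy))
    rw [star_mul, star_mul, star_star] at h1
    exact h1.symm
  have hsum : π x' * G - G * π x' = ∑ i, p i * z i := by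
    rw [hGdef, Finset.mul_sum, Finset.sum_mul, ← Finset.sum_sub_distrib]
    refine Finset.sum_congr rfl fun i _ => ?_
    show π x' * (p i * c i) - p i * c i * π x' = p i * (π x' * c i - c i * π x')
    rw [mul_sub, ← mul_assoc, hX'c _ (hpr i)]
    simp only [mul_assoc]
  have hsq : ∑ i, w i * n2 φ (z i) ^ 2 ≤ (3 * ε / 64) ^ 2 := by
    have h1 : n2 φ (π x' * G - G * π x') ^ 2 = ∑ i, w i * n2 φ (z i) ^ 2 := by
      rw [hsum]
      have e1 : n2 φ (∑ i, p i * z i) ^ 2 = (φ (star (∑ i, p i * z i) * (∑ i, p i * z i))).re :=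
        hS.n2_sq _
      rw [e1, pvm_mul hp z z (fun i => (hzr i _ (hpr i)).symm)]
      have e2 : φ (∑ i, star (z i) * (p i * z i)) = ∑ i, φ (star (z i) * (p i * z i)) := by
        have : phiL h (∑ i, star (z i) * (p i * z i)) = ∑ i, phiL h (star (z i) * (p i * z i)) :=
          map_sum _ _ _
        exact this
      rw [e2, Complex.re_sum]
      refine Finset.sum_congr rfl fun i _ => ?_
      have e3 : φ (star (z i) * (p i * z i)) = φ (p i * (z i * star (z i))) := by
        have : phiL h (star (z i) * (p i * z i)) = phiL h (p i * z i * star (z i)) := hS.comm _ _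
        rw [mul_assoc] at this
        exact this
      have e4 : φ (p i * (z i * star (z i))) = φ (p i) * φ (z i * star (z i)) := by
        refine indep_prop hU h hcen (p i) (hpr i) _ fun y hy => ?_
        rw [← mul_assoc, hzr i y hy, mul_assoc, hzs i y hy, mul_assoc]
      have e5 : φ (z i * star (z i)) = φ (star (z i) * z i) := hS.comm _ _
      have e6 : n2 φ (z i) ^ 2 = (φ (star (z i) * z i)).re := hS.n2_sq _
      rw [e3, e4, hpw, e5, e6, Complex.re_ofReal_mul]
    rw [← h1]
    exact pow_le_pow_left₀ (n2_nonneg _ _) hGx' 2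
  -- eventual statements
  have ev1 : ∀ᶠ m in (U : Filter ℕ), ∑ i, w i * n2 T.τ (x' m * (f i : Elt N) -
      (f i : Elt N) * x' m) ^ 2 < (ε / 2 / 8) ^ 2 := by
    have h1 : Tendsto (fun m => ∑ i, w i * n2 T.τ (x' m * (f i : Elt N) -
        (f i : Elt N) * x' m) ^ 2) U (𝓝 (∑ i, w i * n2 φ (z i) ^ 2)) := by
      refine tendsto_finsetSum _ fun i _ => ?_
      have h2 := tendsto_n2 h (bdd_sub (bdd_mul hx'b (bdd_const (f i : Elt N)))
        (bdd_mul (bdd_const (f i : Elt N)) hx'b))
      rw [comm_pi h hx'b (bdd_const (f i : Elt N))] at h2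
      exact (h2.pow 2).const_mul (w i)
    refine h1.eventually (gt_mem_nhds ?_)
    refine lt_of_le_of_lt hsq ?_
    nlinarith
  have ev2 : ∀ᶠ m in (U : Filter ℕ), ε / 2 < n2 T.τ (x' m - T.τ (x' m) • (1 : Elt N)) := by
    refine (tendsto_cent h hx'b).eventually (lt_mem_nhds ?_)
    have h1 : ε ≤ n2 φ (π x - φ (π x) • (1 : Q)) := ge_of_tendsto' (tendsto_cent h hxb) hx2
    have h2 : n2 φ (π x - φ (π x) • (1 : Q)) ≤ n2 φ (π x' - φ (π x') • (1 : Q)) +
        n2 φ (π x - π x') := cent_diff hS (π x) (π x')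
    have h3 : n2 φ (π x - π x') = n2 φ (π x' - π x) := hS.n2_sub_comm _ _
    linarith
  have ev3 : ∀ᶠ m in (U : Filter ℕ), n2 T.τ (x' m - x m) < ε / 32 := by
    have h1 := tendsto_n2 h (bdd_sub hx'b hxb)
    rw [quot_sub h.quot hx'b hxb] at h1
    refine h1.eventually (gt_mem_nhds ?_)
    linarith
  obtain ⟨m, hm1, hm2, hm3⟩ := (ev1.and (ev2.and ev3)).exists
  obtain ⟨y, hy1, hy2⟩ := hf (x' m) (hx'1 m) hm2.le hm1.le
  have h1 := hx4 m y hy1
  have h2 := comm_diff hA (y : Elt N) (x' m) (x m) (Unitary.mem_iff.1 y.2).1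
    (Unitary.mem_iff.1 y.2).2
  linarith

end ultra

end Pool.Agent.Helper133.SM
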