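import Mathlib
import Pool.Agent.Helper133.SM.UBase
import Pool.Agent.Helper133.SM.Gen

set_option autoImplicit false
set_option linter.unusedSectionVars false

open scoped InnerProductSpace Topology ComplexOrder
open Filter

namespace Pool.Agent.Helper133.SM

open Pool.Agent.Helper278 Pool.Agent.Helper278.CE

section defs

variable {H : Type*} [NormedAddCommGroup H] [InnerProductSpace ℂ H] [CompleteSpace H]
variable {N : VonNeumannAlgebra H}

/-- the uniform detection property -/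
def Phi (T : TracialState N) (c : ℝ) : Prop :=
  ∀ (n : ℕ) (a : Fin n → unitary (Elt N)) (δ ε : ℝ), 0 < δ → 0 < ε →
    ∃ g : unitary (Elt N), ∀ x : unitary (Elt N),
      ε ≤ n2 T.τ ((x : Elt N) - T.τ (x : Elt N) • (1 : Elt N)) →
      n2 T.τ ((x : Elt N) * (g : Elt N) - (g : Elt N) * (x : Elt N)) ≤ c * ε →
      ∃ y : unitary (Elt N),
        (∀ k, n2 T.τ ((y : Elt N) * (a k : Elt N) - (a k : Elt N) * (y : Elt N)) < δ) ∧
        c * ε ≤ n2 T.τ ((x : Elt N) * (y : Elt N) - (y : Elt N) * (x : Elt N))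

/-- many almost central unitaries -/
def Psi (T : TracialState N) (m : ℕ) : Prop :=
  ∀ (n : ℕ) (a : Fin n → unitary (Elt N)) (δ : ℝ), 0 < δ →
    ∃ v : unitary (Elt N),
      (∀ k, n2 T.τ ((v : Elt N) * (a k : Elt N) - (a k : Elt N) * (v : Elt N)) < δ) ∧
      ∀ l ∈ Finset.Ioo 0 m, ‖T.τ ((v : Elt N) ^ l)‖ < δ

end defs

section transfer

variable {H : Type*} [NormedAddCommGroup H] [InnerProductSpace ℂ H] [CompleteSpace H]
variable {N : VonNeumannAlgebra H}
variable {K : Type*} [NormedAddCommGroup K] [InnerProductSpace ℂ K] [CompleteSpace K]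
variable {M : VonNeumannAlgebra K}
variable {I J : Type*} {P Q : Type*} [Ring P] [StarRing P] [Algebra ℂ P]
  [Ring Q] [StarRing Q] [Algebra ℂ Q]
variable {T : TracialState N} {U : Ultrafilter I} {π : (I → Elt N) → P} {φ : P → ℂ}
variable {S : TracialState M} {V : Ultrafilter J} {ρ : (J → Elt M) → Q} {ψ : Q → ℂ}

theorem n2_equiv (e : P ≃⋆ₐ[ℂ] Q) (he : ∀ x, ψ (e x) = φ x) (x : P) : n2 ψ (e x) = n2 φ x := by
  unfold n2
  rw [← map_star, ← map_mul, he]

theorem unit_equiv (e : P ≃⋆ₐ[ℂ] Q) (x : P) (hx : x ∈ unitary P) : e x ∈ unitary Q := by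
  rw [Unitary.mem_iff] at hx ⊢
  rw [← map_star, ← map_mul, ← map_mul, hx.1, hx.2, map_one]
  exact ⟨rfl, rfl⟩

theorem unit_equiv_symm (e : P ≃⋆ₐ[ℂ] Q) (x : Q) (hx : x ∈ unitary Q) :
    e.symm x ∈ unitary P := unit_equiv e.symm x hx

theorem phi_transfer (hP : IsTracialUltrapower (fun x => T.τ x) U π φ)
    (hQ : IsTracialUltrapower (fun x => S.τ x) V ρ ψ) (e : P ≃⋆ₐ[ℂ] Q)
    (he : ∀ x, ψ (e x) = φ x) (c : ℝ) (hc : 0 < c) (hT : Phi T c) : Phi S (c / 4) := by
  classical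
  intro n a δ ε hδ hε
  by_contra hcon
  push Not at hcon
  have he' : ∀ x, φ (e.symm x) = ψ x := fun x => by rw [← he, e.apply_symm_apply]
  -- lift the parameters
  have hA : ∀ k, ∃ A : I → unitary (Elt N), π (fun i => (A i : Elt N)) =
      e.symm (ρ fun _ => (a k : Elt M)) := fun k =>
    unit_lift hP _ (unit_equiv_symm e _ (unit_pi hQ fun _ => a k))
  choose A hA using hA
  choose g hg using fun i => hT n (fun k => A k i) (δ / 2) (ε / 2) (by positivity) (by positivity)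
  obtain ⟨g', hg'⟩ := unit_lift hQ _ (unit_equiv e _ (unit_pi hP g))
  choose x hx1 hx2 hx3 using fun j => hcon (g' j)
  set X : Q := ρ fun j => (x j : Elt M) with hX
  have hXu : X ∈ unitary Q := unit_pi hQ x
  obtain ⟨x', hx'⟩ := unit_lift hP _ (unit_equiv_symm e X hXu)
  have hcentX : ε ≤ n2 ψ (X - ψ X • (1 : Q)) := ge_of_tendsto' (tendsto_cent hQ (bdd_unit x)) hx1
  have hcent : ε ≤ n2 φ (π (fun i => (x' i : Elt N)) - φ (π fun i => (x' i : Elt N)) • (1 : P)) := by
    rw [hx', he', ← n2_equiv e he]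
    rw [map_sub, map_smul, map_one, e.apply_symm_apply]
    exact hcentX
  have hcomX : n2 ψ (X * e (π fun i => (g i : Elt N)) - e (π fun i => (g i : Elt N)) * X) ≤
      c / 4 * ε := by
    rw [← hg', hX, ← comm_pi hQ (bdd_unit x) (bdd_unit g')]
    exact le_of_tendsto' (tendsto_n2 hQ (bdd_sub (bdd_mul (bdd_unit x) (bdd_unit g'))
      (bdd_mul (bdd_unit g') (bdd_unit x)))) hx2
  have ev1 : ∀ᶠ i in (U : Filter I), ε / 2 <
      n2 T.τ ((x' i : Elt N) - T.τ (x' i : Elt N) • (1 : Elt N)) := by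
    refine (tendsto_cent hP (bdd_unit x')).eventually (lt_mem_nhds ?_)
    linarith
  have ev2 : ∀ᶠ i in (U : Filter I),
      n2 T.τ ((x' i : Elt N) * (g i : Elt N) - (g i : Elt N) * (x' i : Elt N)) < c * (ε / 2) := by
    have h1 := tendsto_n2 hP (bdd_sub (bdd_mul (bdd_unit x') (bdd_unit g))
      (bdd_mul (bdd_unit g) (bdd_unit x')))
    rw [comm_pi hP (bdd_unit x') (bdd_unit g), hx', ← n2_equiv e he, map_sub, map_mul, map_mul,
      e.apply_symm_apply] at h1
    refine h1.eventually (gt_mem_nhds (lt_of_le_of_lt hcomX ?_))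
    nlinarith
  have hex : ∀ i, ∃ y : unitary (Elt N),
      (ε / 2 < n2 T.τ ((x' i : Elt N) - T.τ (x' i : Elt N) • (1 : Elt N)) ∧
        n2 T.τ ((x' i : Elt N) * (g i : Elt N) - (g i : Elt N) * (x' i : Elt N)) < c * (ε / 2)) →
      (∀ k, n2 T.τ ((y : Elt N) * (A k i : Elt N) - (A k i : Elt N) * (y : Elt N)) < δ / 2) ∧
        c * (ε / 2) ≤ n2 T.τ ((x' i : Elt N) * (y : Elt N) - (y : Elt N) * (x' i : Elt N)) := by
    intro i
    by_cases hi : ε / 2 < n2 T.τ ((x' i : Elt N) - T.τ (x' i : Elt N) • (1 : Elt N)) ∧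
        n2 T.τ ((x' i : Elt N) * (g i : Elt N) - (g i : Elt N) * (x' i : Elt N)) < c * (ε / 2)
    · obtain ⟨y, hy⟩ := hg i (x' i) hi.1.le hi.2.le
      exact ⟨y, fun _ => hy⟩
    · exact ⟨1, fun hi' => absurd hi' hi⟩
  choose y hy using hex
  have ev3 := (ev1.and ev2).mono fun i hi => hy i hi
  obtain ⟨y', hy'⟩ := unit_lift hQ _ (unit_equiv e _ (unit_pi hP y))
  have ev4 : ∀ᶠ j in (V : Filter J), ∀ k,
      n2 S.τ ((y' j : Elt M) * (a k : Elt M) - (a k : Elt M) * (y' j : Elt M)) < δ := by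
    rw [Filter.eventually_all]
    intro k
    have h1 := tendsto_n2 hQ (bdd_sub (bdd_mul (bdd_unit y') (bdd_const (a k : Elt M)))
      (bdd_mul (bdd_const (a k : Elt M)) (bdd_unit y')))
    rw [comm_pi hQ (bdd_unit y') (bdd_const (a k : Elt M)), hy'] at h1
    refine h1.eventually (gt_mem_nhds ?_)
    have h2 := tendsto_n2 hP (bdd_sub (bdd_mul (bdd_unit y) (bdd_unit (A k)))
      (bdd_mul (bdd_unit (A k)) (bdd_unit y)))
    rw [comm_pi hP (bdd_unit y) (bdd_unit (A k)), hA, ← n2_equiv e he, map_sub, map_mul, map_mul,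
      e.apply_symm_apply] at h2
    have h3 := le_of_tendsto h2 (ev3.mono fun i hi => (hi.1 k).le)
    linarith
  have ev5 : ∀ᶠ j in (V : Filter J), c / 4 * ε <
      n2 S.τ ((x j : Elt M) * (y' j : Elt M) - (y' j : Elt M) * (x j : Elt M)) := by
    have h1 := tendsto_n2 hQ (bdd_sub (bdd_mul (bdd_unit x) (bdd_unit y'))
      (bdd_mul (bdd_unit y') (bdd_unit x)))
    rw [comm_pi hQ (bdd_unit x) (bdd_unit y'), hy'] at h1
    refine h1.eventually (lt_mem_nhds ?_)
    have h2 := tendsto_n2 hP (bdd_sub (bdd_mul (bdd_unit x') (bdd_unit y))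
      (bdd_mul (bdd_unit y) (bdd_unit x')))
    rw [comm_pi hP (bdd_unit x') (bdd_unit y), hx', ← n2_equiv e he, map_sub, map_mul, map_mul,
      e.apply_symm_apply] at h2
    have h3 := ge_of_tendsto h2 (ev3.mono fun i hi => hi.2)
    have h4 : c / 4 * ε < c * (ε / 2) := by nlinarith
    exact lt_of_lt_of_le h4 h3
  obtain ⟨j, hj1, hj2⟩ := (ev4.and ev5).exists
  have h1 := hx3 j (y' j) hj1
  linarith

theorem psi_transfer (hP : IsTracialUltrapower (fun x => T.τ x) U π φ)
    (hQ : IsTracialUltrapower (fun x => S.τ x) V ρ ψ) (e : P ≃⋆ₐ[ℂ] Q)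
    (he : ∀ x, ψ (e x) = φ x) (m : ℕ) (hT : Psi T m) : Psi S m := by
  classical
  intro n a δ hδ
  by_contra hcon
  push Not at hcon
  have hA : ∀ k, ∃ A : I → unitary (Elt N), π (fun i => (A i : Elt N)) =
      e.symm (ρ fun _ => (a k : Elt M)) := fun k =>
    unit_lift hP _ (unit_equiv_symm e _ (unit_pi hQ fun _ => a k))
  choose A hA using hA
  choose g hg1 hg2 using fun i => hT n (fun k => A k i) (δ / 2) (by positivity)
  obtain ⟨g', hg'⟩ := unit_lift hQ _ (unit_equiv e _ (unit_pi hP g))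
  have ev1 : ∀ᶠ j in (V : Filter J), ∀ k,
      n2 S.τ ((g' j : Elt M) * (a k : Elt M) - (a k : Elt M) * (g' j : Elt M)) < δ := by
    rw [Filter.eventually_all]
    intro k
    have h1 := tendsto_n2 hQ (bdd_sub (bdd_mul (bdd_unit g') (bdd_const (a k : Elt M)))
      (bdd_mul (bdd_const (a k : Elt M)) (bdd_unit g')))
    rw [comm_pi hQ (bdd_unit g') (bdd_const (a k : Elt M)), hg'] at h1
    refine h1.eventually (gt_mem_nhds ?_)
    have h2 := tendsto_n2 hP (bdd_sub (bdd_mul (bdd_unit g) (bdd_unit (A k)))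
      (bdd_mul (bdd_unit (A k)) (bdd_unit g)))
    rw [comm_pi hP (bdd_unit g) (bdd_unit (A k)), hA, ← n2_equiv e he, map_sub, map_mul, map_mul,
      e.apply_symm_apply] at h2
    have h3 := le_of_tendsto' h2 (fun i => (hg1 i k).le)
    linarith
  have hpowP : ∀ (l : ℕ), π (fun i => (g i : Elt N) ^ l) = (π fun i => (g i : Elt N)) ^ l := by
    intro l
    induction l with
    | zero => simp only [pow_zero]; exact hP.quot.one
    | succ l ih =>
      simp only [pow_succ]
      have hb : BddFam (fun i => (g i : Elt N) ^ l) := bdd_unit fun i => g i ^ l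
      rw [hP.quot.mul _ _ hb (bdd_unit g), ih]
  have hpowQ : ∀ (l : ℕ), ρ (fun i => (g' i : Elt M) ^ l) = (ρ fun i => (g' i : Elt M)) ^ l := by
    intro l
    induction l with
    | zero => simp only [pow_zero]; exact hQ.quot.one
    | succ l ih =>
      simp only [pow_succ]
      have hb : BddFam (fun i => (g' i : Elt M) ^ l) := bdd_unit fun i => g' i ^ l
      rw [hQ.quot.mul _ _ hb (bdd_unit g'), ih]
  have ev2 : ∀ᶠ j in (V : Filter J), ∀ l ∈ Finset.Ioo 0 m, ‖S.τ ((g' j : Elt M) ^ l)‖ < δ := by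
    rw [Filter.eventually_all_finset]
    intro l hl
    have hb : BddFam (fun i => (g' i : Elt M) ^ l) := bdd_unit fun i => g' i ^ l
    have hb' : BddFam (fun i => (g i : Elt N) ^ l) := bdd_unit fun i => g i ^ l
    have h1 := (hQ.trace _ hb).norm
    rw [hpowQ, hg', ← map_pow, he] at h1
    refine h1.eventually (gt_mem_nhds ?_)
    have h2 := (hP.trace _ hb').norm
    rw [hpowP] at h2
    have h3 := le_of_tendsto' h2 (fun i => (hg2 i l hl).le)
    linarith
  obtain ⟨j, hj1, hj2⟩ := (ev1.and ev2).exists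
  obtain ⟨l, hl, hl2⟩ := hcon (g' j) hj1
  exact absurd (hj2 l hl) (not_lt.2 hl2)

end transfer

end Pool.Agent.Helper133.SM
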