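import Mathlib
import Pool.Agent.Helper278.Fejer
import Pool.Agent.Helper133.SM.C2
import Pool.Agent.Helper133.SM.Tr

set_option autoImplicit false
set_option linter.unusedSectionVars false

open scoped InnerProductSpace Topology ComplexOrder BoundedContinuousFunction
open Filter

namespace Pool.Agent.Helper133.SM

open Pool.Agent.Helper278 Pool.Agent.Helper278.CE

section dense

variable {H : Type} [NormedAddCommGroup H] [InnerProductSpace ℂ H] [CompleteSpace H]
variable {N : VonNeumannAlgebra H}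

/-- a dense sequence of unitaries -/
theorem exists_dense (T : TracialState N) (hs : IsTwoSeparable (fun x => T.τ x)) :
    ∃ u : ℕ → unitary (Elt N), ∀ (v : unitary (Elt N)) (ε : ℝ), 0 < ε →
      ∃ k, n2 T.τ ((v : Elt N) - (u k : Elt N)) < ε := by
  classical
  have hA := trAlg T
  obtain ⟨S, hSc, hS⟩ := hs
  have hne : S.Nonempty := by
    obtain ⟨s, hs, -⟩ := hS 0 1 one_pos
    exact ⟨s, hs⟩
  obtain ⟨f, hf⟩ := hSc.exists_eq_range hne
  let p : ℕ → unitary (Elt N) → Prop := fun k v =>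
    n2 T.τ ((v : Elt N) - f (Nat.unpair k).1) < 1 / ((Nat.unpair k).2 + 1)
  refine ⟨fun k => if hk : ∃ v, p k v then hk.choose else 1, ?_⟩
  intro v ε hε
  obtain ⟨r, hr⟩ := exists_nat_gt (2 / ε)
  have hr1 : (0 : ℝ) < (r : ℝ) + 1 := by positivity
  obtain ⟨s, hs, hvs⟩ := hS (v : Elt N) (1 / ((r : ℝ) + 1)) (by positivity)
  rw [hf] at hs
  obtain ⟨i, rfl⟩ := hs
  have hex : ∃ v, p (Nat.pair i r) v := by
    refine ⟨v, ?_⟩
    show n2 T.τ ((v : Elt N) - f (Nat.unpair (Nat.pair i r)).1) <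
      1 / ((Nat.unpair (Nat.pair i r)).2 + 1)
    rw [Nat.unpair_pair]
    exact hvs
  refine ⟨Nat.pair i r, ?_⟩
  simp only
  rw [dif_pos hex]
  have h1 := hex.choose_spec
  have h2 : n2 T.τ ((hex.choose : Elt N) - f i) < 1 / ((r : ℝ) + 1) := by
    have h3 : n2 T.τ ((hex.choose : Elt N) - f (Nat.unpair (Nat.pair i r)).1) <
      1 / ((Nat.unpair (Nat.pair i r)).2 + 1) := h1
    rw [Nat.unpair_pair] at h3
    exact h3
  have h3 := hA.n2_tri (v : Elt N) (f i) (hex.choose : Elt N)
  rw [hA.n2_sub_comm (f i)] at h3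
  have h4 : n2 T.τ ((v : Elt N) - f i) < 1 / ((r : ℝ) + 1) := hvs
  have h5 : 1 / ((r : ℝ) + 1) + 1 / ((r : ℝ) + 1) < ε := by
    rw [← add_div, div_lt_iff₀ hr1]
    rw [div_lt_iff₀ hε] at hr
    nlinarith
  linarith

variable {Q : Type} [Ring Q] [StarRing Q] [Algebra ℂ Q] [StarModule ℂ Q]
variable {T : TracialState N} {U : Ultrafilter ℕ} {π : (ℕ → Elt N) → Q} {φ : Q → ℂ}

/-- commuting with a dense sequence of unitaries -/
theorem mem_relComm_of_dense (h : IsTracialUltrapower (fun x => T.τ x) U π φ)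
    (u : ℕ → unitary (Elt N))
    (hu : ∀ (v : unitary (Elt N)) (ε : ℝ), 0 < ε → ∃ k, n2 T.τ ((v : Elt N) - (u k : Elt N)) < ε)
    (q : Q) (hq : ∀ k, q * π (fun _ => (u k : Elt N)) = π (fun _ => (u k : Elt N)) * q) :
    q ∈ relComm π := by
  have hA := trAlg T
  have hS := phi_trAlg h
  obtain ⟨x, ⟨C, hC⟩, rfl⟩ := h.quot.surj q
  have hxb : BddFam x := ⟨C, hC⟩
  -- unitaries first
  have key : ∀ v : unitary (Elt N), π x * π (fun _ => (v : Elt N)) =
      π (fun _ => (v : Elt N)) * π x := by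
    intro v
    have h1 : ∀ ε : ℝ, 0 < ε → n2 φ (π x * π (fun _ => (v : Elt N)) -
        π (fun _ => (v : Elt N)) * π x) ≤ 2 * (C + 1) * ε := by
      intro ε hε
      obtain ⟨k, hk⟩ := hu v ε hε
      have hC0 : 0 ≤ C := (norm_nonneg _).trans (hC 0)
      have e : π x * π (fun _ => (v : Elt N)) - π (fun _ => (v : Elt N)) * π x =
          π x * π (fun _ => (v : Elt N) - (u k : Elt N)) -
            π (fun _ => (v : Elt N) - (u k : Elt N)) * π x := by
        rw [quot_sub h.quot (bdd_const (v : Elt N)) (bdd_const (u k : Elt N)), mul_sub, sub_mul,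
          hq k]
        abel
      rw [e]
      have h2 : n2 φ (π fun _ => (v : Elt N) - (u k : Elt N)) ≤ ε := by
        refine le_of_tendsto' (tendsto_n2 h (bdd_const _)) fun n => hk.le
      have h3 := n2_pi_mul h hC (π fun _ => (v : Elt N) - (u k : Elt N))
      have h4 := n2_mul_pi h hC (π fun _ => (v : Elt N) - (u k : Elt N))
      have h5 : n2 φ (π x * π (fun _ => (v : Elt N) - (u k : Elt N)) -
            π (fun _ => (v : Elt N) - (u k : Elt N)) * π x) ≤
          n2 φ (π x * π (fun _ => (v : Elt N) - (u k : Elt N))) +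
            n2 φ (π (fun _ => (v : Elt N) - (u k : Elt N)) * π x) := hS.n2_sub_le _ _
      have h6 := n2_nonneg φ (π fun _ => (v : Elt N) - (u k : Elt N))
      nlinarith
    have h2 : n2 φ (π x * π (fun _ => (v : Elt N)) - π (fun _ => (v : Elt N)) * π x) ≤ 0 := by
      by_contra hne
      push Not at hne
      have hC0 : 0 ≤ C := (norm_nonneg _).trans (hC 0)
      have h3 := h1 (n2 φ (π x * π (fun _ => (v : Elt N)) - π (fun _ => (v : Elt N)) * π x) /
        (4 * (C + 1))) (by positivity)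
      have h4 : 2 * (C + 1) * (n2 φ (π x * π (fun _ => (v : Elt N)) -
          π (fun _ => (v : Elt N)) * π x) / (4 * (C + 1))) =
          n2 φ (π x * π (fun _ => (v : Elt N)) - π (fun _ => (v : Elt N)) * π x) / 2 := by
        field_simp
        ring
      rw [h4] at h3
      linarith
    exact sub_eq_zero.1 (eq_zero_of_n2 hS (le_antisymm h2 (n2_nonneg _ _)))
  rw [mem_relComm h]
  intro a
  have h1 : a ∈ Submodule.span ℂ (unitary (Elt N) : Set (Elt N)) := by
    rw [CStarAlgebra.span_unitary]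
    trivial
  refine Submodule.span_induction (p := fun a _ => π (fun _ => a) * π x = π x * π (fun _ => a))
    ?_ ?_ ?_ ?_ h1
  · intro v hv
    exact (key ⟨v, hv⟩).symm
  · have h0 : π (fun _ => (0 : Elt N)) = (0 : ℂ) • (1 : Q) := by
      rw [← scal_pi h]
      congr 1
      funext n
      rw [zero_smul]
    rw [h0, zero_smul, zero_mul, mul_zero]
  · intro a b _ _ ha hb
    rw [h.quot.add (fun _ => a) (fun _ => b) (bdd_const a) (bdd_const b), add_mul, mul_add, ha, hb]
  · intro c a _ ha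
    rw [h.quot.smul c (fun _ => a) (bdd_const a), smul_mul_assoc, mul_smul_comm, ha]

theorem phi_of (hU : ∀ n, {n} ∉ U) (h : IsTracialUltrapower (fun x => T.τ x) U π φ)
    (hs : IsTwoSeparable (fun x => T.τ x)) (hII : IsAbstractIIOneFactor (relComm π)) :
    Phi T (1 / 64) := by
  classical
  obtain ⟨u, hu⟩ := exists_dense T hs
  intro n a δ ε hδ hε
  obtain ⟨g, hg⟩ := claim2 hU h (center_of_abs hII) (infinite_of_abs hII) u
    (mem_relComm_of_dense h u hu) (Finset.univ.image fun k => (a k : Elt N)) δ hδ ε hε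
  refine ⟨g, fun x hx1 hx2 => ?_⟩
  obtain ⟨y, hy1, hy2⟩ := hg (x : Elt N) (norm_unitary_le x) hx1 (by linarith)
  refine ⟨y, fun k => hy1 _ (Finset.mem_image_of_mem _ (Finset.mem_univ k)), ?_⟩
  linarith

theorem pvm_pow {A : Type*} [Ring A] [StarRing A] [Algebra ℂ A] [StarModule ℂ A] {m : ℕ}
    (p : Fin m → A) (hp : PVM p) (c : Fin m → ℂ) (k : ℕ) :
    (∑ i, c i • p i) ^ k = ∑ i, (c i) ^ k • p i := by
  classical
  induction k with
  | zero => simp [hp.sum]
  | succ k ih =>
    rw [pow_succ, ih, Finset.sum_mul_sum]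
    refine Finset.sum_congr rfl fun i _ => ?_
    rw [Finset.sum_eq_single i]
    · rw [smul_mul_smul_comm, hp.idem, pow_succ]
    · intro j _ hj
      rw [smul_mul_smul_comm, hp.orth i j (Ne.symm hj), smul_zero]
    · intro hi
      exact absurd (Finset.mem_univ i) hi

theorem psi_of (hU : ∀ n, {n} ∉ U) (h : IsTracialUltrapower (fun x => T.τ x) U π φ)
    (hII : IsAbstractIIOneFactor (relComm π)) (m : ℕ) (hm : 0 < m) : Psi T m := by
  classical
  intro n a δ hδ
  have hS := phi_trAlg h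
  have hm' : (m : ℝ) ≠ 0 := by positivity
  obtain ⟨p, hpr, hp, hpw⟩ := exists_pvm hU h (center_of_abs hII) (infinite_of_abs hII)
    (fun _ : Fin m => 1 / (m : ℝ)) (fun _ => by positivity) (by
      rw [Finset.sum_const, Finset.card_univ, Fintype.card_fin, nsmul_eq_mul]
      field_simp)
  set v : Q := ∑ i : Fin m, (om m ^ (i : ℕ)) • p i with hv
  have hvu : v ∈ unitary Q := unitary_of_pvm p hp _ fun i => om_conj_mul m i
  have hvr : v ∈ relComm π := sum_mem fun i _ => (relComm π).smul_mem (hpr i) _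
  have hvt : ∀ l ∈ Finset.Ioo 0 m, φ (v ^ l) = 0 := by
    intro l hl
    rw [Finset.mem_Ioo] at hl
    rw [hv, pvm_pow p hp]
    have e1 : φ (∑ i : Fin m, (om m ^ (i : ℕ)) ^ l • p i) =
        ∑ i : Fin m, (om m ^ (i : ℕ)) ^ l * φ (p i) := by
      have : phiL h (∑ i : Fin m, (om m ^ (i : ℕ)) ^ l • p i) =
          ∑ i : Fin m, (om m ^ (i : ℕ)) ^ l * phiL h (p i) := by
        rw [map_sum]
        refine Finset.sum_congr rfl fun i _ => ?_
        rw [map_smul, smul_eq_mul]
      exact this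
    have e2 := om_sum m hm l 0 hl.2 hm
    rw [if_neg (by omega)] at e2
    rw [e1]
    simp only [hpw]
    rw [← Finset.sum_mul]
    have e3 : ∑ i : Fin m, (om m ^ (i : ℕ)) ^ l = 0 := by
      rw [← e2]
      refine Finset.sum_congr rfl fun i _ => ?_
      rw [pow_zero, mul_one]
    rw [e3, zero_mul]
  obtain ⟨g, hg⟩ := unit_lift h v hvu
  have hpow : ∀ (l : ℕ), π (fun i => (g i : Elt N) ^ l) = (π fun i => (g i : Elt N)) ^ l := by
    intro l
    induction l with
    | zero => simp only [pow_zero]; exact h.quot.one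
    | succ l ih =>
      simp only [pow_succ]
      have hb : BddFam (fun i => (g i : Elt N) ^ l) := bdd_unit fun i => g i ^ l
      rw [h.quot.mul _ _ hb (bdd_unit g), ih]
  have ev1 : ∀ᶠ i in (U : Filter ℕ), ∀ k,
      n2 T.τ ((g i : Elt N) * (a k : Elt N) - (a k : Elt N) * (g i : Elt N)) < δ := by
    rw [Filter.eventually_all]
    intro k
    have h1 := tendsto_n2 h (bdd_sub (bdd_mul (bdd_unit g) (bdd_const (a k : Elt N)))
      (bdd_mul (bdd_const (a k : Elt N)) (bdd_unit g)))
    rw [comm_pi h (bdd_unit g) (bdd_const (a k : Elt N)), hg,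
      ← (mem_relComm h v).1 hvr (a k : Elt N), sub_self] at h1
    have h2 : n2 φ (0 : Q) = 0 := hS.n2_zero
    rw [h2] at h1
    exact h1.eventually (gt_mem_nhds hδ)
  have ev2 : ∀ᶠ i in (U : Filter ℕ), ∀ l ∈ Finset.Ioo 0 m, ‖T.τ ((g i : Elt N) ^ l)‖ < δ := by
    rw [Filter.eventually_all_finset]
    intro l hl
    have hb : BddFam (fun i => (g i : Elt N) ^ l) := bdd_unit fun i => g i ^ l
    have h1 := (h.trace _ hb).norm
    rw [hpow, hg, hvt l hl, norm_zero] at h1
    exact h1.eventually (gt_mem_nhds hδ)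
  obtain ⟨i, hi1, hi2⟩ := (ev1.and ev2).exists
  exact ⟨g i, hi1, hi2⟩

end dense

section back

variable {H : Type} [NormedAddCommGroup H] [InnerProductSpace ℂ H] [CompleteSpace H]
variable {N : VonNeumannAlgebra H}
variable {Q : Type} [Ring Q] [StarRing Q] [Algebra ℂ Q] [StarModule ℂ Q]
variable {T : TracialState N} {U : Ultrafilter ℕ} {π : (ℕ → Elt N) → Q} {φ : Q → ℂ}

/-- central unitaries of the relative commutant are scalars -/
theorem central_unitary (hU : ∀ n, {n} ∉ U) (h : IsTracialUltrapower (fun x => T.τ x) U π φ)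
    (u : ℕ → unitary (Elt N))
    (hu : ∀ (v : unitary (Elt N)) (ε : ℝ), 0 < ε → ∃ k, n2 T.τ ((v : Elt N) - (u k : Elt N)) < ε)
    (c : ℝ) (hc : 0 < c) (hP : Phi T c) (z : Q) (hz : z ∈ UR π)
    (hzc : ∀ y ∈ relComm π, z * y = y * z) : ∃ s : ℂ, z = s • (1 : Q) := by
  classical
  have hS := phi_trAlg h
  set ε := n2 φ (z - φ z • (1 : Q)) with hε
  rcases (n2_nonneg φ (z - φ z • (1 : Q))).eq_or_lt with h0 | hpos
  · exact ⟨φ z, sub_eq_zero.1 (eq_zero_of_n2 hS h0.symm)⟩
  exfalso
  have hεp : 0 < ε := hpos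
  obtain ⟨x, hx⟩ := unit_lift h z hz.2
  choose g hg using fun m : ℕ => hP m (fun k => u k) (1 / ((m : ℝ) + 1)) (ε / 2) (by positivity)
    (by positivity)
  let Good : ℕ → ℕ → Prop := fun j m => m ≤ j ∧ ∃ y : unitary (Elt N),
    (∀ k : Fin m, n2 T.τ ((y : Elt N) * (u k : Elt N) - (u k : Elt N) * (y : Elt N)) <
      1 / ((m : ℝ) + 1)) ∧
    c * (ε / 2) ≤ n2 T.τ ((x j : Elt N) * (y : Elt N) - (y : Elt N) * (x j : Elt N))
  have hGood : ∀ m, ∀ᶠ j in (U : Filter ℕ), Good j m := by
    intro m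
    have ev0 : ∀ᶠ j : ℕ in (U : Filter ℕ), m ≤ j := U_le_atTop hU (eventually_ge_atTop m)
    have ev1 : ∀ᶠ j in (U : Filter ℕ), ε / 2 <
        n2 T.τ ((x j : Elt N) - T.τ (x j : Elt N) • (1 : Elt N)) := by
      refine (tendsto_cent h (bdd_unit x)).eventually (lt_mem_nhds ?_)
      rw [hx]
      linarith
    have ev2 : ∀ᶠ j in (U : Filter ℕ),
        n2 T.τ ((x j : Elt N) * (g m : Elt N) - (g m : Elt N) * (x j : Elt N)) < c * (ε / 2) := by
      have h1 := tendsto_n2 h (bdd_sub (bdd_mul (bdd_unit x) (bdd_const (g m : Elt N)))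
        (bdd_mul (bdd_const (g m : Elt N)) (bdd_unit x)))
      rw [comm_pi h (bdd_unit x) (bdd_const (g m : Elt N)), hx,
        ← (mem_relComm h z).1 hz.1 (g m : Elt N), sub_self] at h1
      have h2 : n2 φ (0 : Q) = 0 := hS.n2_zero
      rw [h2] at h1
      exact h1.eventually (gt_mem_nhds (by positivity))
    filter_upwards [ev0, ev1, ev2] with j h0 h1 h2
    obtain ⟨y, hy1, hy2⟩ := hg m (x j) h1.le h2.le
    exact ⟨h0, y, hy1, hy2⟩
  let μ : ℕ → ℕ := fun j => Nat.findGreatest (Good j) j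
  have hex : ∀ j, ∃ y : unitary (Elt N), Good j (μ j) →
      (∀ k : Fin (μ j), n2 T.τ ((y : Elt N) * (u k : Elt N) - (u k : Elt N) * (y : Elt N)) <
        1 / ((μ j : ℝ) + 1)) ∧
      c * (ε / 2) ≤ n2 T.τ ((x j : Elt N) * (y : Elt N) - (y : Elt N) * (x j : Elt N)) := by
    intro j
    by_cases hj : Good j (μ j)
    · obtain ⟨-, y, hy⟩ := hj
      exact ⟨y, fun _ => hy⟩
    · exact ⟨1, fun hj' => absurd hj' hj⟩
  choose y hy using hex
  have hμ : ∀ m, ∀ᶠ j in (U : Filter ℕ), m ≤ μ j ∧ Good j (μ j) := by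
    intro m
    refine (hGood m).mono fun j hj => ?_
    exact ⟨Nat.le_findGreatest hj.1 hj, Nat.findGreatest_spec hj.1 hj⟩
  have hyr : π (fun j => (y j : Elt N)) ∈ relComm π := by
    refine mem_relComm_of_dense h u hu _ fun k => ?_
    rw [← sub_eq_zero, ← comm_pi h (bdd_unit y) (bdd_const (u k : Elt N))]
    have h1 : Tendsto (fun j => n2 T.τ ((y j : Elt N) * (u k : Elt N) -
        (u k : Elt N) * (y j : Elt N))) U (𝓝 0) := by
      rw [Metric.tendsto_nhds]
      intro η hη
      obtain ⟨r, hr⟩ := exists_nat_gt (1 / η)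
      refine (hμ (max r (k + 1))).mono fun j hj => ?_
      rw [Real.dist_eq, sub_zero, abs_of_nonneg (n2_nonneg _ _)]
      have hk : k < μ j := lt_of_lt_of_le (Nat.lt_succ_self k) ((le_max_right _ _).trans hj.1)
      have h2 := (hy j hj.2).1 ⟨k, hk⟩
      refine lt_of_lt_of_le h2 ?_
      have h3 : (r : ℝ) ≤ μ j := by exact_mod_cast (le_max_left _ _).trans hj.1
      rw [div_le_iff₀ (by positivity)]
      rw [div_lt_iff₀ hη] at hr
      nlinarith
    have h2 := (pi_eq h (x := fun j => (y j : Elt N) * (u k : Elt N) -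
      (u k : Elt N) * (y j : Elt N)) (y := fun _ => (0 : Elt N))
      (bdd_sub (bdd_mul (bdd_unit y) (bdd_const _)) (bdd_mul (bdd_const _) (bdd_unit y)))
      (bdd_const 0)).2 (by
        refine h1.congr fun m => ?_
        rw [sub_zero])
    rw [h2]
    have h3 : π (fun _ => (0 : Elt N)) = (0 : ℂ) • (1 : Q) := by
      rw [← scal_pi h]
      congr 1
      funext n
      rw [zero_smul]
    rw [h3, zero_smul]
  have h1 := tendsto_n2 h (bdd_sub (bdd_mul (bdd_unit x) (bdd_unit y))
    (bdd_mul (bdd_unit y) (bdd_unit x)))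
  rw [comm_pi h (bdd_unit x) (bdd_unit y), hx, hzc _ hyr, sub_self] at h1
  have h2 : n2 φ (0 : Q) = 0 := hS.n2_zero
  rw [h2] at h1
  have h3 : c * (ε / 2) ≤ 0 := ge_of_tendsto h1 ((hμ 0).mono fun j hj => (hy j hj.2).2)
  have h4 : 0 < c * (ε / 2) := by positivity
  linarith

/-- the relative commutant has trivial center -/
theorem center_of_phi (hU : ∀ n, {n} ∉ U) (h : IsTracialUltrapower (fun x => T.τ x) U π φ)
    (u : ℕ → unitary (Elt N))
    (hu : ∀ (v : unitary (Elt N)) (ε : ℝ), 0 < ε → ∃ k, n2 T.τ ((v : Elt N) - (u k : Elt N)) < ε)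
    (c : ℝ) (hc : 0 < c) (hP : Phi T c) :
    ∀ z ∈ relComm π, (∀ x ∈ relComm π, z * x = x * z) → ∃ s : ℂ, z = s • (1 : Q) := by
  obtain ⟨K, _, _, _, P, ρ, e, -, -, -⟩ := exists_conc hU h
  let Z : VonNeumannAlgebra K := commVN ((P : Set (K →L[ℂ] K)) ∪
    Set.centralizer (P : Set (K →L[ℂ] K)))
  have hZP : ∀ t ∈ Z, t ∈ P := by
    intro t ht
    have h1 : t ∈ Set.centralizer (Set.centralizer (P : Set (K →L[ℂ] K))) := by
      intro s hs
      exact ((mem_commVN _ t).1 ht s (Or.inr hs)).1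
    rw [VonNeumannAlgebra.centralizer_centralizer] at h1
    exact h1
  have hZc : ∀ t ∈ Z, ∀ s ∈ P, s * t = t * s := fun t ht s hs =>
    ((mem_commVN _ t).1 ht s (Or.inl hs)).1
  intro z hz hzc
  set t : K →L[ℂ] K := ((e ⟨z, hz⟩ : Elt P) : K →L[ℂ] K) with htdef
  have htP : t ∈ P := (e ⟨z, hz⟩).2
  have htc : ∀ s ∈ P, s * t = t * s := by
    intro s hs
    have h1 : (⟨z, hz⟩ : relComm π) * e.symm ⟨s, hs⟩ = e.symm ⟨s, hs⟩ * ⟨z, hz⟩ :=
      Subtype.ext (hzc _ (e.symm ⟨s, hs⟩).2)
    have h2 := congrArg e h1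
    rw [map_mul, map_mul, e.apply_symm_apply] at h2
    exact (congrArg Subtype.val h2).symm
  have htZ : t ∈ Z := by
    rw [mem_commVN]
    rintro s (hs | hs)
    · refine ⟨htc s hs, htc _ (star_mem hs)⟩
    · refine ⟨(hs t htP).symm, ?_⟩
      have h1 := congrArg star (hs (star t) (star_mem htP))
      rw [star_mul, star_mul, star_star] at h1
      exact h1
  have h1 : (⟨t, htZ⟩ : Elt Z) ∈ Submodule.span ℂ (unitary (Elt Z) : Set (Elt Z)) := by
    rw [CStarAlgebra.span_unitary]
    trivial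
  have h2 : ∃ s : ℂ, (⟨t, htZ⟩ : Elt Z) = s • (1 : Elt Z) := by
    refine Submodule.span_induction (p := fun a _ => ∃ s : ℂ, a = s • (1 : Elt Z)) ?_ ?_ ?_ ?_ h1
    · intro a ha
      have haP : (a : K →L[ℂ] K) ∈ P := hZP _ a.2
      set b : relComm π := e.symm ⟨a, haP⟩ with hb
      have hau := Unitary.mem_iff.1 ha
      have hbu : star b * b = 1 ∧ b * star b = 1 := by
        constructor
        · rw [hb, ← map_star, ← map_mul]
          have : star (⟨(a : K →L[ℂ] K), haP⟩ : Elt P) * ⟨(a : K →L[ℂ] K), haP⟩ = 1 :=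
            Subtype.ext (congrArg (fun z : Elt Z => (z : K →L[ℂ] K)) hau.1)
          rw [this, map_one]
        · rw [hb, ← map_star, ← map_mul]
          have : (⟨(a : K →L[ℂ] K), haP⟩ : Elt P) * star ⟨(a : K →L[ℂ] K), haP⟩ = 1 :=
            Subtype.ext (congrArg (fun z : Elt Z => (z : K →L[ℂ] K)) hau.2)
          rw [this, map_one]
      obtain ⟨s, hs⟩ := central_unitary hU h u hu c hc hP (b : Q)
        ⟨b.2, Unitary.mem_iff.2 ⟨congrArg Subtype.val hbu.1, congrArg Subtype.val hbu.2⟩⟩ (by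
          intro y hy
          have h3 : (⟨(a : K →L[ℂ] K), haP⟩ : Elt P) * e ⟨y, hy⟩ = e ⟨y, hy⟩ * ⟨_, haP⟩ :=
            Subtype.ext (hZc _ a.2 _ (e ⟨y, hy⟩).2).symm
          have h4 := congrArg e.symm h3
          rw [map_mul, map_mul, e.symm_apply_apply] at h4
          exact congrArg Subtype.val h4)
      refine ⟨s, ?_⟩
      have h3 : b = s • (1 : relComm π) := Subtype.ext hs
      have h4 : (⟨(a : K →L[ℂ] K), haP⟩ : Elt P) = s • (1 : Elt P) := by
        rw [← e.apply_symm_apply ⟨(a : K →L[ℂ] K), haP⟩, ← hb, h3, map_smul, map_one]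
      exact Subtype.ext (congrArg (fun z : Elt P => (z : K →L[ℂ] K)) h4)
    · exact ⟨0, (zero_smul _ _).symm⟩
    · rintro a b _ _ ⟨s, rfl⟩ ⟨r, rfl⟩
      exact ⟨s + r, (add_smul _ _ _).symm⟩
    · rintro r a _ ⟨s, rfl⟩
      exact ⟨r * s, smul_smul _ _ _⟩
  obtain ⟨s, hs⟩ := h2
  refine ⟨s, ?_⟩
  have h3 : t = s • (1 : K →L[ℂ] K) := congrArg Subtype.val hs
  have h4 : e ⟨z, hz⟩ = e (s • (1 : relComm π)) := by
    rw [map_smul, map_one]
    exact Subtype.ext h3
  exact congrArg Subtype.val (e.injective h4)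

/-- the relative commutant is infinite dimensional -/
theorem infinite_of_psi (hU : ∀ n, {n} ∉ U) (h : IsTracialUltrapower (fun x => T.τ x) U π φ)
    (u : ℕ → unitary (Elt N))
    (hu : ∀ (v : unitary (Elt N)) (ε : ℝ), 0 < ε → ∃ k, n2 T.τ ((v : Elt N) - (u k : Elt N)) < ε)
    (hP : ∀ m, 0 < m → Psi T m) : ¬ FiniteDimensional ℂ (relComm π) := by
  classical
  have hS := phi_trAlg h
  intro hfin
  set m := Module.finrank ℂ (relComm π) + 1 with hm
  choose v hv1 hv2 using fun j : ℕ => hP m (Nat.succ_pos _) j (fun k => u k) (1 / ((j : ℝ) + 1))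
    (by positivity)
  have hlim : Tendsto (fun j : ℕ => 1 / ((j : ℝ) + 1)) U (𝓝 0) :=
    (tendsto_one_div_add_atTop_nhds_zero_nat (𝕜 := ℝ)).mono_left (U_le_atTop hU)
  set w : Q := π fun j => (v j : Elt N) with hw
  have hwu : w ∈ unitary Q := unit_pi h v
  have hwu' := Unitary.mem_iff.1 hwu
  have hwr : w ∈ relComm π := by
    refine mem_relComm_of_dense h u hu _ fun k => ?_
    rw [← sub_eq_zero, hw, ← comm_pi h (bdd_unit v) (bdd_const (u k : Elt N))]
    have h1 : Tendsto (fun j => n2 T.τ ((v j : Elt N) * (u k : Elt N) -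
        (u k : Elt N) * (v j : Elt N))) U (𝓝 0) := by
      refine squeeze_zero' (Eventually.of_forall fun m => n2_nonneg _ _) ?_ hlim
      have h3 : ∀ᶠ j : ℕ in (U : Filter ℕ), k < j := U_le_atTop hU (eventually_gt_atTop k)
      exact h3.mono fun j hj => (hv1 j ⟨k, hj⟩).le
    have h2 := (pi_eq h (x := fun j => (v j : Elt N) * (u k : Elt N) -
      (u k : Elt N) * (v j : Elt N)) (y := fun _ => (0 : Elt N))
      (bdd_sub (bdd_mul (bdd_unit v) (bdd_const _)) (bdd_mul (bdd_const _) (bdd_unit v)))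
      (bdd_const 0)).2 (by
        refine h1.congr fun m => ?_
        rw [sub_zero])
    rw [h2]
    have h3 : π (fun _ => (0 : Elt N)) = (0 : ℂ) • (1 : Q) := by
      rw [← scal_pi h]
      congr 1
      funext n
      rw [zero_smul]
    rw [h3, zero_smul]
  have hpow : ∀ (l : ℕ), π (fun i => (v i : Elt N) ^ l) = w ^ l := by
    intro l
    induction l with
    | zero => simp only [pow_zero]; exact h.quot.one
    | succ l ih =>
      simp only [pow_succ]
      have hb : BddFam (fun i => (v i : Elt N) ^ l) := bdd_unit fun i => v i ^ l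
      rw [h.quot.mul _ _ hb (bdd_unit v), ih]
  have htr : ∀ l, 0 < l → l < m → φ (w ^ l) = 0 := by
    intro l hl0 hlm
    have hb : BddFam (fun i => (v i : Elt N) ^ l) := bdd_unit fun i => v i ^ l
    have h1 := h.trace _ hb
    rw [hpow] at h1
    have h2 : Tendsto (fun i => T.τ ((v i : Elt N) ^ l)) U (𝓝 0) := by
      rw [tendsto_zero_iff_norm_tendsto_zero]
      exact squeeze_zero (fun n => norm_nonneg _)
        (fun j => (hv2 j l (Finset.mem_Ioo.2 ⟨hl0, hlm⟩)).le) hlim
    exact tendsto_nhds_unique h1 h2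
  -- the Gram matrix
  have hgram : ∀ i k : Fin m, φ (star (w ^ (k : ℕ)) * w ^ (i : ℕ)) = if i = k then 1 else 0 := by
    have key : ∀ a b : ℕ, star (w ^ a) * w ^ (a + b) = w ^ b := by
      intro a b
      rw [pow_add, ← mul_assoc, star_pow]
      have : ∀ a : ℕ, star w ^ a * w ^ a = 1 := by
        intro a
        induction a with
        | zero => simp
        | succ a ih =>
          rw [pow_succ, pow_succ']
          calc star w ^ a * star w * (w * w ^ a) = star w ^ a * (star w * w) * w ^ a := by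
                simp only [mul_assoc]
            _ = 1 := by rw [hwu'.1, mul_one, ih]
      rw [this, one_mul]
    intro i k
    rcases lt_trichotomy (i : ℕ) (k : ℕ) with hik | hik | hik
    · rw [if_neg (by intro h'; rw [h'] at hik; exact lt_irrefl _ hik)]
      have e1 : star (w ^ (k : ℕ)) * w ^ (i : ℕ) = star (star (w ^ (i : ℕ)) * w ^ (k : ℕ)) := by
        rw [star_mul, star_star]
      have e2 : (k : ℕ) = i + (k - i) := by omega
      rw [e1, e2, key]
      have e3 : φ (star (w ^ ((k : ℕ) - i))) = star (φ (w ^ ((k : ℕ) - i))) := hS.conj _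
      rw [e3, htr _ (by omega) (by omega), star_zero]
    · have : i = k := Fin.ext hik
      rw [if_pos this, this]
      have := key (k : ℕ) 0
      rw [add_zero, pow_zero] at this
      rw [this]
      exact hS.one
    · rw [if_neg (by intro h'; rw [h'] at hik; exact lt_irrefl _ hik)]
      have e2 : (i : ℕ) = k + (i - k) := by omega
      rw [e2, key]
      exact htr _ (by omega) (by omega)
  have hlin : LinearIndependent ℂ (fun i : Fin m => (⟨w ^ (i : ℕ), pow_mem hwr _⟩ : relComm π)) := by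
    rw [Fintype.linearIndependent_iff]
    intro g hg k
    have h1 : ∑ i, g i • w ^ (i : ℕ) = 0 := by
      have := congrArg (fun z : relComm π => (z : Q)) hg
      simpa using this
    have h2 : phiL h (star (w ^ (k : ℕ)) * ∑ i, g i • w ^ (i : ℕ)) = g k := by
      rw [Finset.mul_sum, map_sum, Finset.sum_eq_single k]
      · rw [mul_smul_comm, map_smul, smul_eq_mul]
        have := hgram k k
        rw [if_pos rfl] at this
        have h3 : phiL h (star (w ^ (k : ℕ)) * w ^ (k : ℕ)) = 1 := this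
        rw [h3, mul_one]
      · intro i _ hik
        rw [mul_smul_comm, map_smul, smul_eq_mul]
        have := hgram i k
        rw [if_neg hik] at this
        have h3 : phiL h (star (w ^ (k : ℕ)) * w ^ (i : ℕ)) = 0 := this
        rw [h3, mul_zero]
      · intro hk
        exact absurd (Finset.mem_univ k) hk
    rw [← h2, h1, mul_zero, map_zero]
  have h1 := hlin.fintype_card_le_finrank
  rw [Fintype.card_fin] at h1
  omega

end back

end Pool.Agent.Helper133.SM
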