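import Mathlib
import Pool.Agent.Helper278.CEFactor
import Pool.Agent.Helper133.SM.Tr
import Pool.Agent.Helper133.SM.Defs

set_option autoImplicit false
set_option linter.unusedSectionVars false

open scoped InnerProductSpace Topology ComplexOrder
open Filter

namespace Pool.Agent.Helper133.SM

open Pool.Agent.Helper278 Pool.Agent.Helper278.CE

section group

variable {G : Type} [Group G]

/-- the group von Neumann algebra `L(G)` -/
noncomputable abbrev LG (G : Type) [Group G] : VonNeumannAlgebra (EllTwo G) := LK (sb G)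

/-- the canonical unitary -/
noncomputable def lam (g : G) : unitary (Elt (LG G)) := canU (sb G) g

theorem lam_coe (g : G) : (((lam g : unitary (Elt (LG G))) : Elt (LG G)) :
    EllTwo G →L[ℂ] EllTwo G) = lamK (sb G) g := rfl

theorem lam_pow (g : G) (l : ℕ) : ((lam g : unitary (Elt (LG G))) : Elt (LG G)) ^ l =
    ((lam (g ^ l) : unitary (Elt (LG G))) : Elt (LG G)) := by
  unfold lam
  rw [map_pow]
  rfl

/-- conjugation by `g` as a permutation -/
def cjG (g : G) : G ≃ G := (MulAut.conj g).toEquiv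

theorem cjG_apply (g h : G) : cjG g h = g * h * g⁻¹ := rfl

theorem cjG_eq (g : G) : permOp (cjG g) = lamK (sb G) g⁻¹ * rhoK (sb G) g⁻¹ := by
  unfold lamK rhoK
  rw [permK_mul, permK_sb]
  have h1 : cjG g = (Equiv.mulLeft g⁻¹⁻¹).trans (Equiv.mulRight g⁻¹) := by
    apply Equiv.ext
    intro k
    show g * k * g⁻¹ = (g⁻¹)⁻¹ * k * g⁻¹
    rw [inv_inv]
  rw [h1]

theorem cjG_mem_apply (p : EllTwo G →L[ℂ] EllTwo G) (hp : p ∈ LG G) (g : G) (f : EllTwo G) :
    permOp (cjG g) (p f) = (lamK (sb G) g⁻¹ * p * lamK (sb G) g) (permOp (cjG g) f) := by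
  rw [cjG_eq]
  have h1 := comm_right (sb G) p hp g⁻¹
  have h2 : (lamK (sb G) g⁻¹ * rhoK (sb G) g⁻¹) * p =
      (lamK (sb G) g⁻¹ * p * lamK (sb G) g) * (lamK (sb G) g⁻¹ * rhoK (sb G) g⁻¹) := by
    rw [mul_assoc, h1]
    have h3 : lamK (sb G) g * lamK (sb G) g⁻¹ = 1 := by
      rw [← lamK_mul, mul_inv_cancel, lamK_one]
    calc lamK (sb G) g⁻¹ * (p * rhoK (sb G) g⁻¹)
        = lamK (sb G) g⁻¹ * p * 1 * rhoK (sb G) g⁻¹ := by rw [mul_one, mul_assoc]
      _ = _ := by
        rw [← h3]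
        simp only [mul_assoc]
  exact congrArg (fun z : EllTwo G →L[ℂ] EllTwo G => z f) h2

theorem cjG_sb_one (g : G) : permOp (cjG g) (sb G 1) = sb G 1 := by
  rw [← permK_sb, permK_basis]
  congr 1
  rw [Equiv.symm_apply_eq, cjG_apply, mul_one, mul_inv_cancel]

theorem eq_zero_of_sbG (x : EllTwo G →L[ℂ] EllTwo G) (hx : x ∈ LG G) (h : x (sb G 1) = 0) :
    x = 0 := by
  apply ext_basis (sb G)
  intro g
  apply ext_coef (sb G)
  intro k
  rw [coef_apply (sb G) x hx, h]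
  simp

theorem trace_star_mulG (x : Elt (LG G)) :
    trG (sb G) (star x * x) = ((‖(x : EllTwo G →L[ℂ] EllTwo G) (sb G 1)‖ ^ 2 : ℝ) : ℂ) := by
  have h1 : trG (sb G) (star x * x) = ⟪(x : EllTwo G →L[ℂ] EllTwo G) (sb G 1),
      (x : EllTwo G →L[ℂ] EllTwo G) (sb G 1)⟫_ℂ := by
    rw [← ContinuousLinearMap.adjoint_inner_right, ← ContinuousLinearMap.star_eq_adjoint]
    rfl
  rw [h1, inner_self_eq_norm_sq_to_K]
  push_cast
  rfl

theorem faithful_traceG : IsFaithfulTrace (fun x : Elt (LG G) => trG (sb G) x) := by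
  refine ⟨(isTr_trG _).one, (isTr_trG _).comm, ?_⟩
  intro x hx
  rw [trace_star_mulG] at hx
  have h1 : ‖(x : EllTwo G →L[ℂ] EllTwo G) (sb G 1)‖ ^ 2 = 0 := by exact_mod_cast hx
  apply Subtype.ext
  exact eq_zero_of_sbG _ x.2 (norm_eq_zero.1 (pow_eq_zero_iff two_ne_zero |>.1 h1))

theorem normal_traceG : IsNormalPositive (LG G) (fun x => trG (sb G) x) :=
  normal_vector (LG G) _ (sb G 1) fun _ => rfl

/-- the bundled trace -/
noncomputable def TS (G : Type) [Group G] : TracialState (LG G) :=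
  mkState (LG G) _ normal_traceG faithful_traceG

/-- the vector of an element -/
noncomputable def vec (x : Elt (LG G)) : EllTwo G := (x : EllTwo G →L[ℂ] EllTwo G) (sb G 1)

theorem n2_TS (x : Elt (LG G)) : n2 (TS G).τ x = ‖vec x‖ := by
  unfold n2
  have h1 : (TS G).τ (star x * x) = ((‖vec x‖ ^ 2 : ℝ) : ℂ) := trace_star_mulG x
  rw [h1, Complex.ofReal_re, Real.sqrt_sq (norm_nonneg _)]

theorem TS_apply (x : Elt (LG G)) : (TS G).τ x = vec x 1 := by
  show ⟪sb G 1, (x : EllTwo G →L[ℂ] EllTwo G) (sb G 1)⟫_ℂ = _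
  rw [coef_sb]
  rfl

theorem vec_sub (x y : Elt (LG G)) : vec (x - y) = vec x - vec y := rfl

theorem vec_smul_one (c : ℂ) : vec (c • (1 : Elt (LG G))) = c • sb G 1 := rfl

theorem TS_lam (g : G) (hg : g ≠ 1) : (TS G).τ ((lam g : unitary (Elt (LG G))) : Elt (LG G)) = 0 := by
  rw [TS_apply]
  show (lamK (sb G) g (sb G 1)) 1 = 0
  rw [lamK_basis, mul_one]
  exact sb_ne _ _ hg

/-- commutators with the canonical unitaries in terms of vectors -/
theorem comm_lam (x : Elt (LG G)) (g : G) :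
    n2 (TS G).τ (x * (lam g : Elt (LG G)) - (lam g : Elt (LG G)) * x) =
      ‖permOp (cjG g) (vec x) - vec x‖ := by
  have hA := trAlg (TS G)
  have h1 : star ((lam g : unitary (Elt (LG G))) : Elt (LG G)) * (lam g : Elt (LG G)) = 1 :=
    (Unitary.mem_iff.1 (lam g).2).1
  have h2 : (lam g : Elt (LG G)) * star ((lam g : unitary (Elt (LG G))) : Elt (LG G)) = 1 :=
    (Unitary.mem_iff.1 (lam g).2).2
  have e : star ((lam g : unitary (Elt (LG G))) : Elt (LG G)) *
      (x * (lam g : Elt (LG G)) - (lam g : Elt (LG G)) * x) =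
      star ((lam g : unitary (Elt (LG G))) : Elt (LG G)) * x * (lam g : Elt (LG G)) - x := by
    rw [mul_sub, ← mul_assoc, ← mul_assoc, h1, one_mul]
  rw [← n2_ul hA (star ((lam g : unitary (Elt (LG G))) : Elt (LG G))) _ (by
    rw [star_star]; exact h2), e, n2_TS, vec_sub]
  congr 2
  have h3 := cjG_mem_apply (x : EllTwo G →L[ℂ] EllTwo G) x.2 g (sb G 1)
  rw [cjG_sb_one] at h3
  have h4 : star (lamK (sb G) g) = lamK (sb G) g⁻¹ := star_lamK _ g
  show (star (lamK (sb G) g) * (x : EllTwo G →L[ℂ] EllTwo G) * lamK (sb G) g) (sb G 1) =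
    permOp (cjG g) (vec x)
  rw [h4]
  exact h3.symm

/-- the distance to the scalars in terms of vectors -/
theorem cent_vec (x : Elt (LG G)) :
    n2 (TS G).τ (x - (TS G).τ x • (1 : Elt (LG G))) = ‖cut ({1}ᶜ : Set G) (vec x)‖ := by
  rw [n2_TS, vec_sub, vec_smul_one, TS_apply]
  congr 1
  apply lp.ext
  funext g
  by_cases hg : g = 1
  · rw [cut_apply_not_mem _ (by simp [hg])]
    show vec x g - vec x 1 * sb G 1 g = 0
    rw [hg, sb_self, mul_one, sub_self]
  · rw [cut_apply_mem _ (by simp [hg])]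
    show vec x g - vec x 1 * sb G 1 g = vec x g
    rw [sb_ne _ _ (Ne.symm hg), mul_zero, sub_zero]

end group

/-- A group with an exhaustion by subsets with large commutants. -/
structure Levels (G : Type) [Group G] (L : ℕ → Set G) : Prop where
  mono : Monotone L
  one : ∀ m, (1 : G) ∈ L m
  exh : ∀ g, ∃ m, g ∈ L m
  flip : ∀ m, ∃ k : G, ∀ g ∈ L m, k * g * k⁻¹ ∈ L m → g = 1
  move : ∀ m M, ∃ h : G, (∀ g ∈ L m, h * g * h⁻¹ = g) ∧
    ∀ g ∈ L M, g ∉ L m → h * g * h⁻¹ ∉ L M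
  ord : ∀ m n, ∃ h : G, (∀ g ∈ L m, h * g * h⁻¹ = g) ∧ ∀ l, 0 < l → l < n → h ^ l ≠ 1

section levels

variable {G : Type} [Group G] {L : ℕ → Set G}

theorem tail_small (hL : Levels G L) (f : EllTwo G) (η : ℝ) (hη : 0 < η) :
    ∃ m, ∀ M, m ≤ M → ‖cut (L M)ᶜ f‖ < η := by
  classical
  have h1 := (norm_sq_eq f).summable
  obtain ⟨s, hs⟩ := (summable_iff_vanishing_norm.1 h1) (η ^ 2 / 2) (by positivity)
  -- a level containing `s`
  have h2 : ∃ m, ∀ g ∈ s, g ∈ L m := by
    induction s using Finset.induction_on with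
    | empty => exact ⟨0, by simp⟩
    | insert a s _ _ =>
      choose m hm using hL.exh
      refine ⟨(insert a s).sup m, fun g hg => ?_⟩
      exact hL.mono (Finset.le_sup hg) (hm g)
  obtain ⟨m, hm⟩ := h2
  refine ⟨m, fun M hM => ?_⟩
  have h3 := norm_sq_eq (cut (L M)ᶜ f)
  have h4 : ‖cut (L M)ᶜ f‖ ^ 2 ≤ η ^ 2 / 2 := by
    refine hasSum_le_of_sum_le h3 fun t => ?_
    have h5 : ∑ g ∈ t, ‖cut (L M)ᶜ f g‖ ^ 2 = ∑ g ∈ t.filter (fun g => g ∉ L M), ‖f g‖ ^ 2 := by
      rw [Finset.sum_filter]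
      refine Finset.sum_congr rfl fun g _ => ?_
      by_cases hg : g ∈ L M
      · rw [cut_apply_not_mem _ (by simpa using hg), if_neg (by simpa using hg), norm_zero,
          zero_pow two_ne_zero]
      · rw [cut_apply_mem _ (by simpa using hg), if_pos hg]
    rw [h5]
    have h6 := hs (t.filter (fun g => g ∉ L M)) (by
      rw [Finset.disjoint_left]
      intro g hg hgs
      exact (Finset.mem_filter.1 hg).2 (hL.mono hM (hm g hgs)))
    rw [Real.norm_eq_abs] at h6
    exact (le_abs_self _).trans h6.le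
  have h5 : ‖cut (L M)ᶜ f‖ ^ 2 < η ^ 2 := by
    have : 0 < η ^ 2 := by positivity
    linarith
  exact (sq_lt_sq₀ (norm_nonneg _) hη.le).1 h5

/-- almost invariance under the commutant of a level -/
theorem inv_comm (hL : Levels G L) (m : ℕ) (f : EllTwo G) (c : ℝ) (hc0 : 0 ≤ c)
    (hc : ∀ h : G, (∀ g ∈ L m, h * g * h⁻¹ = g) → ‖permOp (cjG h) f - f‖ ≤ c) :
    ‖cut (L m)ᶜ f‖ ≤ c := by
  by_contra hne
  push Not at hne
  -- choose eta
  set d := ‖cut (L m)ᶜ f‖ with hd
  obtain ⟨η, hη0, hη⟩ : ∃ η : ℝ, 0 < η ∧ (c + η) ^ 2 + η ^ 2 < d ^ 2 := by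
    refine ⟨min 1 ((d ^ 2 - c ^ 2) / (2 * (2 * c + 2))), ?_, ?_⟩
    · apply lt_min one_pos
      apply div_pos
      · nlinarith
      · positivity
    · set η := min 1 ((d ^ 2 - c ^ 2) / (2 * (2 * c + 2))) with hη
      have h1 : η ≤ 1 := min_le_left _ _
      have h2 : η ≤ (d ^ 2 - c ^ 2) / (2 * (2 * c + 2)) := min_le_right _ _
      have h0 : 0 < η := by
        apply lt_min one_pos
        apply div_pos
        · nlinarith
        · positivity
      rw [le_div_iff₀ (by positivity)] at h2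
      have h3 : 0 < d ^ 2 - c ^ 2 := by nlinarith
      nlinarith
  obtain ⟨M0, hM0⟩ := tail_small hL f η hη0
  set M := max m M0 with hM
  obtain ⟨h, hh1, hh2⟩ := hL.move m M
  have h1 := norm_cut_image (L M \ L m) (cjG h) f
  have h2 := hc h hh1
  have h3 : ‖cut ((cjG h) '' (L M \ L m)) f‖ ≤ ‖cut (L M)ᶜ f‖ := by
    apply norm_cut_le
    rintro _ ⟨g, hg, rfl⟩
    exact hh2 g hg.1 hg.2
  have h4 := hM0 M (le_max_right _ _)
  have h5 : ‖cut (L M \ L m) f‖ ≤ c + η := by
    have := (abs_le.1 (h1.trans h2)).1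
    linarith
  have h6 : ‖cut (L m)ᶜ f‖ ^ 2 = ‖cut (L M \ L m) f‖ ^ 2 + ‖cut (L M)ᶜ f‖ ^ 2 := by
    rw [norm_cut_disj]
    · congr 3
      ext g
      simp only [Set.mem_compl_iff, Set.mem_union, Set.mem_diff]
      have : g ∈ L m → g ∈ L M := fun hg => hL.mono (le_max_left _ _) hg
      tauto
    · rw [Set.disjoint_left]
      intro g hg hg'
      exact hg' hg.1
  have h7 : ‖cut (L M \ L m) f‖ ^ 2 ≤ (c + η) ^ 2 := pow_le_pow_left₀ (norm_nonneg _) h5 2
  have h8 : ‖cut (L M)ᶜ f‖ ^ 2 ≤ η ^ 2 := pow_le_pow_left₀ (norm_nonneg _) h4.le 2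
  rw [← hd] at h6
  linarith

/-- the flip detects -/
theorem flip_est (hL : Levels G L) (m : ℕ) (k : G)
    (hk : ∀ g ∈ L m, k * g * k⁻¹ ∈ L m → g = 1) (f : EllTwo G) :
    ‖cut ({1}ᶜ : Set G) f‖ ^ 2 ≤
      (‖permOp (cjG k) f - f‖ + ‖cut (L m)ᶜ f‖) ^ 2 + ‖cut (L m)ᶜ f‖ ^ 2 := by
  have h1 := norm_cut_image (L m \ {1}) (cjG k) f
  have h3 : ‖cut ((cjG k) '' (L m \ {1})) f‖ ≤ ‖cut (L m)ᶜ f‖ := by
    apply norm_cut_le
    rintro _ ⟨g, hg, rfl⟩ hg'
    exact hg.2 (hk g hg.1 hg')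
  have h5 : ‖cut (L m \ {1}) f‖ ≤ ‖permOp (cjG k) f - f‖ + ‖cut (L m)ᶜ f‖ := by
    have := (abs_le.1 h1).1
    linarith
  have h6 : ‖cut ({1}ᶜ : Set G) f‖ ^ 2 = ‖cut (L m \ {1}) f‖ ^ 2 + ‖cut (L m)ᶜ f‖ ^ 2 := by
    rw [norm_cut_disj]
    · congr 3
      ext g
      simp only [Set.mem_compl_iff, Set.mem_union, Set.mem_diff, Set.mem_singleton_iff]
      have : g = 1 → g ∈ L m := fun hg => by rw [hg]; exact hL.one m
      tauto
    · rw [Set.disjoint_left]
      intro g hg hg'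
      exact hg' hg.1
  rw [h6]
  have h7 : ‖cut (L m \ {1}) f‖ ^ 2 ≤ (‖permOp (cjG k) f - f‖ + ‖cut (L m)ᶜ f‖) ^ 2 :=
    pow_le_pow_left₀ (norm_nonneg _) h5 2
  linarith

/-- elements of the commutant of a level almost commute with elements supported there -/
theorem comm_small (m : ℕ) (h : G) (hh : ∀ g ∈ L m, h * g * h⁻¹ = g) (f : EllTwo G) :
    ‖permOp (cjG h) f - f‖ ≤ 2 * ‖cut (L m)ᶜ f‖ := by
  have e1 : f = cut (L m) f + cut (L m)ᶜ f := by
    apply lp.ext
    funext g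
    show f g = cut (L m) f g + cut (L m)ᶜ f g
    by_cases hg : g ∈ L m
    · rw [cut_apply_mem _ hg, cut_apply_not_mem (S := (L m)ᶜ) _ (by simpa using hg), add_zero]
    · rw [cut_apply_not_mem _ hg, cut_apply_mem (S := (L m)ᶜ) _ hg, zero_add]
  have hmem : ∀ g, h * g * h⁻¹ ∈ L m → h * g * h⁻¹ = g := by
    intro g hg
    have h1 := hh _ hg
    have h2 : h * g * h⁻¹ = g := by
      have h3 : h * (h * g * h⁻¹) * h⁻¹ = h * g * h⁻¹ := h1
      have h4 : h * (h * g * h⁻¹) = h * g := mul_right_cancel h3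
      exact mul_left_cancel h4
    exact h2
  have e2 : permOp (cjG h) (cut (L m) f) = cut (L m) f := by
    apply lp.ext
    funext g
    rw [permOp_apply, cjG_apply]
    by_cases hg : g ∈ L m
    · rw [hh g hg]
    · rw [cut_apply_not_mem _ hg]
      by_cases hg' : h * g * h⁻¹ ∈ L m
      · exfalso
        have := hmem g hg'
        rw [this] at hg'
        exact hg hg'
      · rw [cut_apply_not_mem _ hg']
  have e3 : permOp (cjG h) f - f = permOp (cjG h) (cut (L m)ᶜ f) - cut (L m)ᶜ f := by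
    conv_lhs => rw [e1]
    rw [map_add, e2]
    abel
  rw [e3]
  refine (norm_sub_le _ _).trans ?_
  rw [norm_permOp]
  linarith

theorem exists_level (hL : Levels G L) {n : ℕ} (f : Fin n → EllTwo G) (η : ℝ) (hη : 0 < η) :
    ∃ m, ∀ k, ‖cut (L m)ᶜ (f k)‖ < η := by
  choose m hm using fun k => tail_small hL (f k) η hη
  refine ⟨Finset.univ.sup m, fun k => hm k _ (Finset.le_sup (Finset.mem_univ k))⟩

theorem phi_G (hL : Levels G L) : Phi (TS G) (1 / 64) := by
  intro n a δ ε hδ hε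
  obtain ⟨m, hm⟩ := exists_level hL (fun k => vec (a k : Elt (LG G))) (δ / 2) (by positivity)
  obtain ⟨k, hk⟩ := hL.flip m
  refine ⟨lam k, fun x hx1 hx2 => ?_⟩
  by_contra hcon
  push Not at hcon
  have h1 : ‖cut (L m)ᶜ (vec (x : Elt (LG G)))‖ ≤ 1 / 64 * ε := by
    refine inv_comm hL m _ _ (by positivity) fun h hh => ?_
    have h2 := hcon (lam h) (fun i => by
      rw [(trAlg (TS G)).n2_sub_comm, comm_lam]
      have h3 := comm_small m h hh (vec (a i : Elt (LG G)))
      have h4 := hm i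
      linarith)
    rw [comm_lam] at h2
    exact h2.le
  rw [cent_vec] at hx1
  rw [comm_lam] at hx2
  have h2 := flip_est hL m k hk (vec (x : Elt (LG G)))
  have h3 := norm_nonneg (cut (L m)ᶜ (vec (x : Elt (LG G))))
  have h4 := norm_nonneg (permOp (cjG k) (vec (x : Elt (LG G))) - vec (x : Elt (LG G)))
  nlinarith

theorem psi_G (hL : Levels G L) (r : ℕ) : Psi (TS G) r := by
  intro n a δ hδ
  obtain ⟨m, hm⟩ := exists_level hL (fun k => vec (a k : Elt (LG G))) (δ / 2) (by positivity)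
  obtain ⟨h, hh, ho⟩ := hL.ord m r
  refine ⟨lam h, fun i => ?_, fun l hl => ?_⟩
  · rw [(trAlg (TS G)).n2_sub_comm, comm_lam]
    have h3 := comm_small m h hh (vec (a i : Elt (LG G)))
    have h4 := hm i
    linarith
  · rw [Finset.mem_Ioo] at hl
    rw [lam_pow, TS_lam _ (ho l hl.1 hl.2), norm_zero]
    exact hδ

/-- every finite family is moved off the scalars by one unitary -/
def Dix {H : Type*} [NormedAddCommGroup H] [InnerProductSpace ℂ H] [CompleteSpace H]
    {N : VonNeumannAlgebra H} (T : TracialState N) : Prop :=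
  ∀ (n : ℕ) (a : Fin n → Elt N) (δ : ℝ), 0 < δ → ∃ y : unitary (Elt N), ∀ k,
    n2 T.τ (a k - T.τ (a k) • (1 : Elt N)) ≤
      n2 T.τ (a k * (y : Elt N) - (y : Elt N) * a k) + δ

theorem dix_G (hL : Levels G L) : Dix (TS G) := by
  intro n a δ hδ
  obtain ⟨m, hm⟩ := exists_level hL (fun k => vec (a k)) (δ / 2) (by positivity)
  obtain ⟨k, hk⟩ := hL.flip m
  refine ⟨lam k, fun i => ?_⟩
  rw [cent_vec, comm_lam]
  have h2 := flip_est hL m k hk (vec (a i))
  have h3 := norm_nonneg (cut (L m)ᶜ (vec (a i)))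
  have h4 := norm_nonneg (permOp (cjG k) (vec (a i)) - vec (a i))
  have h5 := hm i
  have h6 : ‖cut ({1}ᶜ : Set G) (vec (a i))‖ ^ 2 ≤
      (‖permOp (cjG k) (vec (a i)) - vec (a i)‖ + δ) ^ 2 := by
    refine h2.trans ?_
    nlinarith
  exact (pow_le_pow_iff_left₀ (norm_nonneg _) (by positivity) two_ne_zero).1 h6

theorem center_G (hL : Levels G L) : HasTrivialCenter (LG G) := by
  intro z hz hcom
  set x : Elt (LG G) := ⟨z, hz⟩ with hx
  have hc : ∀ g : G, ‖permOp (cjG g) (vec x) - vec x‖ = 0 := by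
    intro g
    rw [← comm_lam]
    have h1 : x * (lam g : Elt (LG G)) - (lam g : Elt (LG G)) * x = 0 := by
      rw [sub_eq_zero]
      exact Subtype.ext (hcom _ ((lam g : unitary (Elt (LG G))) : Elt (LG G)).2)
    rw [h1, (trAlg (TS G)).n2_zero]
  have h1 : ‖cut (L 0)ᶜ (vec x)‖ ≤ 0 := inv_comm hL 0 _ 0 le_rfl fun h _ => (hc h).le
  obtain ⟨k, hk⟩ := hL.flip 0
  have h2 := flip_est hL 0 k hk (vec x)
  have h3 := le_antisymm h1 (norm_nonneg _)
  rw [hc, h3] at h2
  have h4 : ‖cut ({1}ᶜ : Set G) (vec x)‖ = 0 := by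
    have := norm_nonneg (cut ({1}ᶜ : Set G) (vec x))
    nlinarith
  rw [← cent_vec] at h4
  have h5 := eq_zero_of_n2 (trAlg (TS G)) h4
  exact ⟨(TS G).τ x, congrArg Subtype.val (sub_eq_zero.1 h5)⟩

theorem infinite_G [Infinite G] : ¬ FiniteDimensional ℂ (Elt (LG G)) := by
  intro hfin
  let ev : Elt (LG G) →ₗ[ℂ] EllTwo G :=
    { toFun := fun x => (x : EllTwo G →L[ℂ] EllTwo G) (sb G 1)
      map_add' := fun x y => rfl
      map_smul' := fun c x => rfl }
  let f : G → Elt (LG G) := fun g => ((lam g : unitary (Elt (LG G))) : Elt (LG G))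
  have h1 : LinearIndependent ℂ (ev ∘ f) := by
    have : ev ∘ f = sb G := by
      funext g
      show lamK (sb G) g (sb G 1) = sb G g
      rw [lamK_basis, mul_one]
    rw [this]
    exact (sb G).orthonormal.linearIndependent
  have h2 : LinearIndependent ℂ f := LinearIndependent.of_comp ev h1
  have h3 : Finite G := h2.finite
  exact not_finite G

theorem isIIOne_G (hL : Levels G L) [Infinite G] :
    IsIIOneFactor (LG G) (fun x => (TS G).τ x) :=
  ⟨center_G hL, infinite_G, faithful_traceG, normal_traceG⟩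

theorem sep_G [Countable G] : IsTwoSeparable (fun x => (TS G).τ x) := by
  have hsep : TopologicalSpace.IsSeparable (Set.univ : Set (EllTwo G)) := by
    have h1 : TopologicalSpace.IsSeparable (Set.range (sb G)) :=
      (Set.countable_range (sb G)).isSeparable
    have h2 := (h1.span (R := ℂ)).closure
    have h3 : closure ((Submodule.span ℂ (Set.range (sb G)) : Submodule ℂ (EllTwo G)) :
        Set (EllTwo G)) = Set.univ := by
      have := (sb G).dense_span
      rw [← Submodule.dense_iff_topologicalClosure_eq_top] at this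
      exact this.closure_eq
    rw [h3] at h2
    exact h2
  have hr : TopologicalSpace.IsSeparable (Set.range (fun x : Elt (LG G) => vec x)) :=
    hsep.mono (Set.subset_univ _)
  obtain ⟨t, hts, htc, htd⟩ := hr.exists_countable_dense_subset
  have hch : ∀ v : t, ∃ x : Elt (LG G), vec x = (v : EllTwo G) := fun v => hts v.2
  choose F hF using hch
  haveI : Countable t := htc.to_subtype
  refine ⟨Set.range F, Set.countable_range F, fun x ε hε => ?_⟩
  obtain ⟨v, hv, hd⟩ := Metric.mem_closure_iff.1 (htd ⟨x, rfl⟩) ε hε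
  refine ⟨F ⟨v, hv⟩, ⟨_, rfl⟩, ?_⟩
  show n2 (TS G).τ (x - F ⟨v, hv⟩) < ε
  rw [n2_TS, vec_sub, hF, ← dist_eq_norm]
  exact hd

end levels

end Pool.Agent.Helper133.SM
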