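import Mathlib
import Pool.Agent.Helper278.TraceUniq2
import Pool.Agent.Helper133.SM.UBase

set_option autoImplicit false
set_option linter.unusedSectionVars false
set_option linter.unusedVariables false

open scoped InnerProductSpace Topology ComplexOrder BoundedContinuousFunction
open Filter

namespace Pool.Agent.Helper133.SM

open Pool.Agent.Helper278

variable {H : Type*} [NormedAddCommGroup H] [InnerProductSpace ℂ H] [CompleteSpace H]
variable {N : VonNeumannAlgebra H}
variable {I : Type*} [TopologicalSpace I] [DiscreteTopology I]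
variable {Q : Type*} [Ring Q] [StarRing Q] [Algebra ℂ Q] [StarModule ℂ Q]
variable {T : TracialState N} {U : Ultrafilter I} {π : (I →ᵇ Elt N) →⋆ₐ[ℂ] Q} {σ : Q → ℂ}

/-- auxiliary: tracial ultrapowers with an arbitrary index set, bounded functions -/
structure IsUltra (T : TracialState N) (U : Ultrafilter I) (π : (I →ᵇ Elt N) →⋆ₐ[ℂ] Q)
    (σ : Q → ℂ) : Prop where
  surj : Function.Surjective π
  ker : ∀ x, π x = 0 ↔ Tendsto (fun n => T.τ (star (x n) * x n)) U (𝓝 0)
  trace : ∀ x, Tendsto (fun n => T.τ (x n)) U (𝓝 (σ (π x)))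

theorem pi_eq_iffI (hπ : IsUltra T U π σ) (x y : I →ᵇ Elt N) :
    π x = π y ↔ Tendsto (fun n => n2 T.τ (x n - y n)) U (𝓝 0) := by
  have hA := trAlg T
  have h1 : π x = π y ↔ π (x - y) = 0 := by rw [map_sub, sub_eq_zero]
  rw [h1, hπ.ker, ← hA.tendsto_iff]
  rfl

theorem sigma_addI (hπ : IsUltra T U π σ) (p q : Q) : σ (p + q) = σ p + σ q := by
  obtain ⟨x, rfl⟩ := hπ.surj p
  obtain ⟨y, rfl⟩ := hπ.surj q
  have h1 := hπ.trace (x + y)
  have h2 := (hπ.trace x).add (hπ.trace y)
  rw [map_add] at h1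
  refine tendsto_nhds_unique h1 (h2.congr fun n => ?_)
  rw [BoundedContinuousFunction.add_apply, map_add]

theorem sigma_smulI (hπ : IsUltra T U π σ) (c : ℂ) (p : Q) :
    σ (c • p) = c * σ p := by
  obtain ⟨x, rfl⟩ := hπ.surj p
  have h1 := hπ.trace (c • x)
  have h2 := (hπ.trace x).const_mul c
  rw [map_smul] at h1
  refine tendsto_nhds_unique h1 (h2.congr fun n => ?_)
  show c * T.τ (x n) = T.τ (c • x n)
  rw [map_smul, smul_eq_mul]

/-- The limit trace as a linear map. -/
noncomputable def sigmaLI (hπ : IsUltra T U π σ) : Q →ₗ[ℂ] ℂ where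
  toFun := σ
  map_add' := sigma_addI hπ
  map_smul' := sigma_smulI hπ

theorem sigma_trAlgI (hπ : IsUltra T U π σ) : TrAlg (sigmaLI hπ) := by
  have hA := trAlg T
  refine ⟨?_, ?_, ?_, ?_, ?_⟩
  · show σ 1 = 1
    have h1 := hπ.trace 1
    rw [map_one] at h1
    refine tendsto_nhds_unique h1 (tendsto_const_nhds.congr fun n => ?_)
    exact hA.one.symm
  · intro p q
    obtain ⟨x, rfl⟩ := hπ.surj p
    obtain ⟨y, rfl⟩ := hπ.surj q
    show σ (π x * π y) = σ (π y * π x)
    rw [← map_mul, ← map_mul]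
    refine tendsto_nhds_unique (hπ.trace (x * y)) ((hπ.trace (y * x)).congr fun n => ?_)
    exact hA.comm _ _
  · intro p
    obtain ⟨x, rfl⟩ := hπ.surj p
    show 0 ≤ σ (star (π x) * π x)
    rw [← map_star, ← map_mul]
    refine ge_of_tendsto' (hπ.trace (star x * x)) fun n => ?_
    exact hA.nonneg (x n)
  · intro p
    obtain ⟨x, rfl⟩ := hπ.surj p
    show σ (star (π x)) = star (σ (π x))
    rw [← map_star]
    refine tendsto_nhds_unique (hπ.trace (star x)) ?_
    refine ((continuous_star.tendsto _).comp (hπ.trace x)).congr fun n => ?_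
    exact (hA.conj (x n)).symm
  · intro p hp
    obtain ⟨x, rfl⟩ := hπ.surj p
    have hp' : σ (star (π x) * π x) = 0 := hp
    rw [← map_star, ← map_mul] at hp'
    rw [hπ.ker]
    have := hπ.trace (star x * x)
    rw [hp'] at this
    exact this

/-- evaluation -/
noncomputable def evBI (N : VonNeumannAlgebra H) (n : I) : (I →ᵇ Elt N) →ₐ[ℂ] Elt N where
  toFun x := x n
  map_one' := rfl
  map_mul' _ _ := rfl
  map_zero' := rfl
  map_add' _ _ := rfl
  commutes' _ := rfl

theorem pi_eq_of_eventuallyI (hπ : IsUltra T U π σ) (x y : I →ᵇ Elt N)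
    (h : ∀ᶠ n in (U : Filter I), x n = y n) : π x = π y := by
  rw [pi_eq_iffI hπ]
  refine tendsto_const_nhds.congr' (h.mono fun n hn => ?_)
  show (0 : ℝ) = n2 T.τ (x n - y n)
  rw [hn, sub_self, (trAlg T).n2_zero]

/-- a bounded sequence -/
noncomputable def mkBI (x : I → Elt N) (h : ∀ n, ‖x n‖ ≤ 1) : I →ᵇ Elt N :=
  BoundedContinuousFunction.ofNormedAddCommGroupDiscrete x 1 h

theorem mkBI_apply (x : I → Elt N) (h : ∀ n, ‖x n‖ ≤ 1) (n : I) : mkBI x h n = x n := rfl

theorem trace_compare_stepI (hπ : IsUltra T U π σ) (hL : LyapProp T.τ)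
    (hN : HasTrivialCenter N) (φ : Q →ₗ[ℂ] ℂ) (hφ : IsTr φ) (x c : I →ᵇ Elt N)
    (hxs : ∀ n, star (x n) = x n) (hxg : ∀ n, x n * (star (c n) * c n) = (star (c n) * c n) * x n)
    (hx0 : ∀ n, Pos (x n)) (hx1 : ∀ n, Pos (1 - x n)) (hg1 : ∀ n, Pos (1 - star (c n) * c n))
    (hxg0 : ∀ n, x n * (1 - star (c n) * c n) = 0) (k l : ℕ) (hl : 0 < l)
    (hk : k = 0 ∨ (k : ℝ) / ((k : ℝ) + l) < (σ (π x)).re) :
    (k : ℝ) / ((k : ℝ) + l) ≤ (φ (π (star c * c))).re := by
  classical
  have hA := trAlg T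
  have hl' : (0 : ℝ) < l := by exact_mod_cast hl
  have hk' : (0 : ℝ) ≤ k := by positivity
  let i0 : Fin k ⊕ Fin l := Sum.inr ⟨0, hl⟩
  let Good : I → Prop := fun n => k = 0 ∨ (k : ℝ) / ((k : ℝ) + l) ≤ (T.τ (x n)).re
  have hGood : ∀ᶠ n in (U : Filter I), Good n := by
    rcases hk with h0 | h0
    · exact Filter.Eventually.of_forall fun n => Or.inl h0
    · have h1 := (Complex.continuous_re.tendsto _).comp (hπ.trace x)
      exact (h1.eventually (lt_mem_nhds h0)).mono fun n hn => Or.inr (le_of_lt hn)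
  have hex : ∀ n, ∃ e v : Fin k ⊕ Fin l → Elt N, (∀ i, ‖e i‖ ≤ 1) ∧ (∀ i, ‖v i‖ ≤ 1) ∧
      (Good n → PVM e ∧ (∀ i, star (v i) * v i = e i0) ∧ (∀ i, v i * star (v i) = e i) ∧
        ∀ j : Fin k, (star (c n) * c n) * e (Sum.inl j) = e (Sum.inl j) ∧
          e (Sum.inl j) * (star (c n) * c n) = e (Sum.inl j)) := by
    intro n
    by_cases hn : Good n
    · obtain ⟨e, he1, he2, he3⟩ := hA.equal_pieces hL (x n) (star (c n) * c n) (hxs n)
        (by rw [star_mul, star_star]) (hxg n) (hx0 n) (hx1 n) (hg1 n) (hxg0 n) k l hl hn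
      have hv : ∀ i, ∃ v : Elt N, star v * v = e i0 ∧ v * star v = e i := fun i =>
        exists_equiv T hN _ _ (he1.star_eq _) (he1.idem _) (he1.star_eq _) (he1.idem _)
          ((he2 i0).trans (he2 i).symm)
      choose v hv1 hv2 using hv
      have hen : ∀ i, ‖e i‖ ≤ 1 := fun i => norm_proj_le _ (he1.star_eq i) (he1.idem i)
      exact ⟨e, v, hen, fun i => norm_partial_le _ _ (hen i0) (hv1 i), fun _ => ⟨he1, hv1, hv2, he3⟩⟩
    · exact ⟨fun _ => 0, fun _ => 0, fun i => by simp, fun i => by simp, fun h => absurd h hn⟩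
  choose e v he hv hprop using hex
  let E : Fin k ⊕ Fin l → (I →ᵇ Elt N) := fun i => mkBI (fun n => e n i) (fun n => he n i)
  let V : Fin k ⊕ Fin l → (I →ᵇ Elt N) := fun i => mkBI (fun n => v n i) (fun n => hv n i)
  have evE : ∀ i n, (E i) n = e n i := fun i n => rfl
  have evV : ∀ i n, (V i) n = v n i := fun i n => rfl
  have hVE0 : ∀ i, π (star (V i) * V i) = π (E i0) := fun i =>
    pi_eq_of_eventuallyI hπ _ _ (hGood.mono fun n hn => (hprop n hn).2.1 i)
  have hVE : ∀ i, π (V i * star (V i)) = π (E i) := fun i =>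
    pi_eq_of_eventuallyI hπ _ _ (hGood.mono fun n hn => (hprop n hn).2.2.1 i)
  have hsum : π (∑ i, E i) = 1 := by
    rw [← map_one π]
    refine pi_eq_of_eventuallyI hπ _ _ (hGood.mono fun n hn => ?_)
    have h1 : (∑ i, E i) n = ∑ i, (E i) n := map_sum (evBI N n) E Finset.univ
    rw [h1]
    exact (hprop n hn).1.sum
  have hφE : ∀ i, φ (π (E i)) = φ (π (E i0)) := by
    intro i
    rw [← hVE i, ← hVE0 i, map_mul π, map_mul π, hφ.comm]
  have hK : (((k : ℝ) + l : ℝ) : ℂ) ≠ 0 := Complex.ofReal_ne_zero.2 (by positivity)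
  have hφE0 : φ (π (E i0)) = (((1 / ((k : ℝ) + l) : ℝ)) : ℂ) := by
    have h1 := congrArg φ hsum
    rw [map_sum, map_sum, hφ.one, Finset.sum_congr rfl (fun i _ => hφE i), Finset.sum_const,
      Finset.card_univ, Fintype.card_sum, Fintype.card_fin, Fintype.card_fin, nsmul_eq_mul] at h1
    have h2 : ((k + l : ℕ) : ℂ) = (((k : ℝ) + l : ℝ) : ℂ) := by push_cast; rfl
    rw [h2] at h1
    rw [Complex.ofReal_div, Complex.ofReal_one]
    exact eq_one_div_of_mul_eq_one_right h1
  let P : I →ᵇ Elt N := ∑ j : Fin k, E (Sum.inl j)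
  have evP : ∀ n, P n = ∑ j : Fin k, e n (Sum.inl j) := fun n =>
    map_sum (evBI N n) (fun j : Fin k => E (Sum.inl j)) Finset.univ
  have hPP : ∀ n, Good n → P n * P n = P n := by
    intro n hn
    rw [evP, Finset.sum_mul_sum]
    refine Finset.sum_congr rfl fun j _ => ?_
    rw [Finset.sum_eq_single j, (hprop n hn).1.idem]
    · intro i _ hij
      exact (hprop n hn).1.orth _ _ (fun h => hij (Sum.inl_injective h).symm)
    · intro hj
      exact absurd (Finset.mem_univ j) hj
  have hPs : ∀ n, Good n → star (P n) = P n := by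
    intro n hn
    rw [evP, star_sum]
    exact Finset.sum_congr rfl fun j _ => (hprop n hn).1.star_eq _
  have hGP : ∀ n, Good n → (star (c n) * c n) * P n = P n := by
    intro n hn
    rw [evP, Finset.mul_sum]
    exact Finset.sum_congr rfl fun j _ => ((hprop n hn).2.2.2 j).1
  have hPG : ∀ n, Good n → P n * (star (c n) * c n) = P n := by
    intro n hn
    rw [evP, Finset.sum_mul]
    exact Finset.sum_congr rfl fun j _ => ((hprop n hn).2.2.2 j).2
  have hkey : π (star (c * (1 - P)) * (c * (1 - P))) = π (star c * c - P) := by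
    refine pi_eq_of_eventuallyI hπ _ _ (hGood.mono fun n hn => ?_)
    show star (c n * (1 - P n)) * (c n * (1 - P n)) = star (c n) * c n - P n
    rw [star_mul, star_sub, star_one, hPs n hn]
    calc (1 - P n) * star (c n) * (c n * (1 - P n)) =
        star (c n) * c n - P n * (star (c n) * c n) - (star (c n) * c n) * P n +
          P n * ((star (c n) * c n) * P n) := by noncomm_ring
      _ = star (c n) * c n - P n := by rw [hPG n hn, hGP n hn, hPP n hn]; abel
  have h1 := hφ.nonneg (π (c * (1 - P)))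
  rw [← map_star, ← map_mul, hkey, map_sub, map_sub] at h1
  have h2 := (Complex.nonneg_iff.1 h1).1
  have h3 : φ (π P) = (((k : ℝ) / ((k : ℝ) + l) : ℝ) : ℂ) := by
    show φ (π (∑ j : Fin k, E (Sum.inl j))) = _
    rw [map_sum, map_sum, Finset.sum_congr rfl (fun j _ => hφE (Sum.inl j)), Finset.sum_const,
      Finset.card_univ, Fintype.card_fin, nsmul_eq_mul, hφE0, ← Complex.ofReal_natCast,
      ← Complex.ofReal_mul]
    congr 1
    ring
  rw [h3, Complex.sub_re, Complex.ofReal_re] at h2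
  linarith

theorem trace_compareI (hπ : IsUltra T U π σ) (hL : LyapProp T.τ)
    (hN : HasTrivialCenter N) (φ : Q →ₗ[ℂ] ℂ) (hφ : IsTr φ) (x c : I →ᵇ Elt N)
    (hxs : ∀ n, star (x n) = x n) (hxg : ∀ n, x n * (star (c n) * c n) = (star (c n) * c n) * x n)
    (hx0 : ∀ n, Pos (x n)) (hx1 : ∀ n, Pos (1 - x n)) (hg1 : ∀ n, Pos (1 - star (c n) * c n))
    (hxg0 : ∀ n, x n * (1 - star (c n) * c n) = 0) :
    (σ (π x)).re ≤ (φ (π (star c * c))).re := by
  have hA := trAlg T
  set r := (σ (π x)).re with hr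
  have hr1 : r ≤ 1 := by
    have h1 := (Complex.continuous_re.tendsto _).comp (hπ.trace x)
    refine le_of_tendsto' h1 fun n => ?_
    have h2 := (Complex.nonneg_iff.1 (hA.pos_nonneg (hx1 n))).1
    rw [map_sub, hA.one, Complex.sub_re, Complex.one_re] at h2
    show (T.τ (x n)).re ≤ 1
    linarith
  by_contra hlt
  push Not at hlt
  set y := (φ (π (star c * c))).re with hy
  obtain ⟨K, hK⟩ := exists_nat_gt (2 / (r - y))
  have hpos : 0 < r - y := by linarith
  have hKp : (0 : ℝ) < K := lt_trans (by positivity) hK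
  have hKn : 0 < K := by exact_mod_cast hKp
  rw [div_lt_iff₀ hpos] at hK
  -- the number of pieces
  set k := ⌊(K : ℝ) * r⌋₊ - 1 with hk
  have hfl : ⌊(K : ℝ) * r⌋₊ ≤ K := by
    have : (K : ℝ) * r ≤ K := by nlinarith
    calc ⌊(K : ℝ) * r⌋₊ ≤ ⌊(K : ℝ)⌋₊ := Nat.floor_le_floor this
      _ = K := Nat.floor_natCast K
  have hkK : k < K := by omega
  have hlt1 : (K : ℝ) * r < ⌊(K : ℝ) * r⌋₊ + 1 := Nat.lt_floor_add_one _
  have hkl : (k : ℝ) + ((K - k : ℕ) : ℝ) = K := by
    rw [Nat.cast_sub hkK.le]; ring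
  have h1 := trace_compare_stepI hπ hL hN φ hφ x c hxs hxg hx0 hx1 hg1 hxg0 k (K - k) (by omega)
    (by
      rw [hkl]
      rcases Nat.eq_zero_or_pos k with h0 | h0
      · exact Or.inl h0
      · right
        have h2 : k + 1 = ⌊(K : ℝ) * r⌋₊ := by omega
        have h3 : ((k + 1 : ℕ) : ℝ) ≤ K * r := by
          rw [h2]
          apply Nat.floor_le
          by_contra hneg
          push Not at hneg
          have h4 : ⌊(K : ℝ) * r⌋₊ = 0 := Nat.floor_of_nonpos hneg.le
          omega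
        rw [div_lt_iff₀ hKp]
        push_cast at h3
        have : (σ (π x)).re = r := rfl
        rw [this]
        linarith)
  rw [hkl, div_le_iff₀ hKp] at h1
  have h2 : (⌊(K : ℝ) * r⌋₊ : ℝ) ≤ k + 1 := by
    have : ⌊(K : ℝ) * r⌋₊ ≤ k + 1 := by omega
    exact_mod_cast this
  nlinarith

theorem trace_leI (hπ : IsUltra T U π σ) (hL : LyapProp T.τ)
    (hN : HasTrivialCenter N) (φ : Q →ₗ[ℂ] ℂ) (hφ : IsTr φ) (x : I →ᵇ Elt N)
    (hx0 : ∀ n, 0 ≤ ((x n : Elt N) : H →L[ℂ] H)) (hx1 : ∀ n, ((x n : Elt N) : H →L[ℂ] H) ≤ 1) :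
    (σ (π x)).re ≤ (φ (π x)).re := by
  have hA := trAlg T
  have hS := sigma_trAlgI hπ
  have key : ∀ m : ℕ, ((m + 1 : ℕ) : ℝ) * (σ (π x)).re ≤ ((m + 1 : ℕ) : ℝ) * (φ (π x)).re + 1 := by
    intro m
    have h1 := fun n => layers (m + 1) (x n) (hx0 n) (hx1 n)
    choose c hc1 hc2 hc3 hc4 hc5 using h1
    let C : ℕ → (I →ᵇ Elt N) := fun i => mkBI (fun n => c n i) (fun n => hc1 n i)
    have hcmp : ∀ i, (σ (π (star (C (i + 1)) * C (i + 1)))).re ≤ (φ (π (star (C i) * C i))).re := by
      intro i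
      refine trace_compareI hπ hL hN φ hφ (star (C (i + 1)) * C (i + 1)) (C i) ?_ ?_ ?_ ?_ ?_ ?_
      · intro n
        show star (star (c n (i + 1)) * c n (i + 1)) = star (c n (i + 1)) * c n (i + 1)
        rw [star_mul, star_star]
      · intro n
        exact hc2 n (i + 1) i
      · intro n
        exact pos_star_mul (c n (i + 1))
      · intro n
        exact hc3 n (i + 1)
      · intro n
        exact hc3 n i
      · intro n
        exact hc4 n i
    have hsum : ∑ i ∈ Finset.range (m + 1), π (star (C i) * C i) = ((m + 1 : ℕ) : ℂ) • π x := by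
      rw [← map_sum, ← map_smul]
      congr 1
      ext1 n
      have e1 : (∑ i ∈ Finset.range (m + 1), star (C i) * C i) n =
          ∑ i ∈ Finset.range (m + 1), (star (C i) * C i) n :=
        map_sum (evBI N n) (fun i => star (C i) * C i) (Finset.range (m + 1))
      rw [e1]
      exact hc5 n
    have hσ : ((m + 1 : ℕ) : ℝ) * (σ (π x)).re =
        ∑ i ∈ Finset.range (m + 1), (σ (π (star (C i) * C i))).re := by
      have e1 : sigmaLI hπ (∑ i ∈ Finset.range (m + 1), π (star (C i) * C i)) =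
          sigmaLI hπ (((m + 1 : ℕ) : ℂ) • π x) := by rw [hsum]
      rw [map_sum, map_smul, smul_eq_mul] at e1
      have e2 := congrArg Complex.re e1
      rw [Complex.re_sum, ← Complex.ofReal_natCast, Complex.re_ofReal_mul] at e2
      exact e2.symm
    have hφs : ((m + 1 : ℕ) : ℝ) * (φ (π x)).re =
        ∑ i ∈ Finset.range (m + 1), (φ (π (star (C i) * C i))).re := by
      have e1 : φ (∑ i ∈ Finset.range (m + 1), π (star (C i) * C i)) =
          φ (((m + 1 : ℕ) : ℂ) • π x) := by rw [hsum]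
      rw [map_sum, map_smul, smul_eq_mul] at e1
      have e2 := congrArg Complex.re e1
      rw [Complex.re_sum, ← Complex.ofReal_natCast, Complex.re_ofReal_mul] at e2
      exact e2.symm
    rw [hσ, hφs, Finset.sum_range_succ', Finset.sum_range_succ]
    have h2 : ∑ i ∈ Finset.range m, (σ (π (star (C (i + 1)) * C (i + 1)))).re ≤
        ∑ i ∈ Finset.range m, (φ (π (star (C i) * C i))).re :=
      Finset.sum_le_sum fun i _ => hcmp i
    have h3 : 0 ≤ (φ (π (star (C m) * C m))).re := by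
      rw [map_mul, map_star]
      exact (Complex.nonneg_iff.1 (hφ.nonneg _)).1
    have h4 : (σ (π (star (C 0) * C 0))).re ≤ 1 := by
      have h5 := (Complex.continuous_re.tendsto _).comp (hπ.trace (star (C 0) * C 0))
      refine le_of_tendsto' h5 fun n => ?_
      have h6 := (Complex.nonneg_iff.1 (hA.pos_nonneg (hc3 n 0))).1
      rw [map_sub, hA.one, Complex.sub_re, Complex.one_re] at h6
      show (T.τ (star (c n 0) * c n 0)).re ≤ 1
      linarith
    linarith
  by_contra hlt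
  push Not at hlt
  have hpos : 0 < (σ (π x)).re - (φ (π x)).re := by linarith
  obtain ⟨m, hm⟩ := exists_nat_gt (1 / ((σ (π x)).re - (φ (π x)).re))
  rw [div_lt_iff₀ hpos] at hm
  have := key m
  push_cast at this
  nlinarith

theorem trace_eq_contractionI (hπ : IsUltra T U π σ) (hL : LyapProp T.τ)
    (hN : HasTrivialCenter N) (φ : Q →ₗ[ℂ] ℂ) (hφ : IsTr φ) (c : I →ᵇ Elt N)
    (hc : ∀ n, ‖c n‖ ≤ 1) : φ (star (π c) * π c) = σ (star (π c) * π c) := by
  have hS := sigma_trAlgI hπ
  have h0 : ∀ n, 0 ≤ (((star c * c) n : Elt N) : H →L[ℂ] H) := fun n =>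
    star_mul_self_nonneg ((c n : Elt N) : H →L[ℂ] H)
  have h1 : ∀ n, (((star c * c) n : Elt N) : H →L[ℂ] H) ≤ 1 := fun n => star_mul_le_one (hc n)
  have e1 := trace_leI hπ hL hN φ hφ (star c * c) h0 h1
  have e2 := trace_leI hπ hL hN φ hφ (1 - star c * c) (fun n => sub_nonneg.2 (h1 n)) (fun n => by
    show (1 : H →L[ℂ] H) - (((star c * c) n : Elt N) : H →L[ℂ] H) ≤ 1
    rw [sub_le_self_iff]
    exact h0 n)
  have e3 : σ (π (1 - star c * c)) = 1 - σ (π (star c * c)) := by
    have : sigmaLI hπ (π (1 - star c * c)) = 1 - sigmaLI hπ (π (star c * c)) := by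
      rw [map_sub π, map_sub, map_one π, hS.one]
    exact this
  rw [e3, map_sub π, map_sub φ, map_one π, hφ.one, Complex.sub_re, Complex.sub_re] at e2
  have e4 : π (star c * c) = star (π c) * π c := by rw [map_mul, map_star]
  rw [e4] at e1 e2
  have h3 := Complex.nonneg_iff.1 (hφ.nonneg (π c))
  have h4 : 0 ≤ sigmaLI hπ (star (π c) * π c) := hS.nonneg (π c)
  have h5 := Complex.nonneg_iff.1 h4
  apply Complex.ext
  · linarith
  · exact h3.2.symm.trans h5.2

/-- The trace of the ultrapower of a II₁ factor is unique. -/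
theorem trace_uniqueI (hπ : IsUltra T U π σ) (hL : LyapProp T.τ)
    (hN : HasTrivialCenter N) (φ : Q →ₗ[ℂ] ℂ) (hφ : IsTr φ) (x : Q) : φ x = σ x := by
  have key : ∀ b : Q, φ (star b * b) = sigmaLI hπ (star b * b) := by
    intro b
    obtain ⟨a, rfl⟩ := hπ.surj b
    set M : ℝ := ‖a‖ + 1 with hM
    have hMp : 0 < M := by positivity
    obtain ⟨c, hcd⟩ : ∃ c : I →ᵇ Elt N, c = ((M⁻¹ : ℝ) : ℂ) • a := ⟨_, rfl⟩
    have hc : ∀ n, ‖c n‖ ≤ 1 := by
      intro n
      rw [hcd]
      show ‖((M⁻¹ : ℝ) : ℂ) • a n‖ ≤ 1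
      rw [norm_smul, Complex.norm_real, Real.norm_eq_abs, abs_of_pos (inv_pos.2 hMp),
        inv_mul_le_iff₀ hMp, mul_one]
      have := a.norm_coe_le_norm n
      linarith
    have h1 := trace_eq_contractionI hπ hL hN φ hφ c hc
    have h2 : π a = (M : ℂ) • π c := by
      rw [hcd, map_smul, smul_smul, ← Complex.ofReal_mul, mul_inv_cancel₀ hMp.ne', Complex.ofReal_one,
        one_smul]
    rw [h2, star_smul, smul_mul_smul_comm, map_smul, map_smul, h1]
    rfl
  have hpol : (4 : ℂ) • x = star (x + 1) * (x + 1) - star (x - 1) * (x - 1) +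
      Complex.I • (star (x + Complex.I • 1) * (x + Complex.I • 1)) -
      Complex.I • (star (x - Complex.I • 1) * (x - Complex.I • 1)) := by
    obtain ⟨j, hjd⟩ : ∃ j : Q, j = Complex.I • (1 : Q) := ⟨_, rfl⟩
    have hI : ∀ z : Q, Complex.I • z = j * z := fun z => by
      rw [hjd, smul_mul_assoc, one_mul]
    have hjc : ∀ z : Q, j * z = z * j := fun z => by
      rw [hjd, smul_mul_assoc, one_mul, mul_smul_comm, mul_one]
    have hjj : j * j = -1 := by
      rw [hjd, smul_mul_smul_comm, Complex.I_mul_I, one_mul, neg_smul, one_smul]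
    have hjs : star j = -j := by
      rw [hjd, star_smul, star_one, Complex.star_def, Complex.conj_I, neg_smul]
    rw [← hjd, hI, hI, star_add, star_sub, star_add, star_sub, star_one, hjs]
    have e1 : j * star x * j = -star x := by
      rw [hjc, mul_assoc, hjj, mul_neg, mul_one]
    have e2 : j * j * x = -x := by rw [hjj, neg_mul, one_mul]
    have h4 : (4 : ℂ) • x = (4 : ℕ) • x := by
      rw [← Nat.cast_smul_eq_nsmul ℂ]
      norm_num
    rw [h4]
    calc (4 : ℕ) • x = (2 : ℕ) • (x + star x) + (2 : ℕ) • (-star x) - (2 : ℕ) • (-x) := by abel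
      _ = (2 : ℕ) • (x + star x) + (2 : ℕ) • (j * star x * j) - (2 : ℕ) • (j * j * x) := by
          rw [e1, e2]
      _ = _ := by noncomm_ring
  have h1 : φ ((4 : ℂ) • x) = sigmaLI hπ ((4 : ℂ) • x) := by
    rw [hpol, map_sub, map_add, map_sub, map_smul, map_smul, key, key, key, key, map_sub, map_add,
      map_sub, map_smul, map_smul]
  rw [map_smul, map_smul, smul_eq_mul, smul_eq_mul] at h1
  have h2 : φ x = sigmaLI hπ x := mul_left_cancel₀ (by norm_num) h1
  exact h2

end Pool.Agent.Helper133.SM
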