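import Mathlib
import Pool.Agent.Helper133.SM.TUI
import Pool.Agent.Helper278.GroupMain

set_option autoImplicit false
set_option linter.unusedSectionVars false

open scoped InnerProductSpace Topology ComplexOrder BoundedContinuousFunction
open Filter

namespace Pool.Agent.Helper133.SM

open Pool.Agent.Helper278 Pool.Agent.Helper278.CE

section

variable {H : Type*} [NormedAddCommGroup H] [InnerProductSpace ℂ H] [CompleteSpace H]
variable {N : VonNeumannAlgebra H}
variable {I : Type*} [TopologicalSpace I] [DiscreteTopology I]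
variable {Q : Type*} [Ring Q] [StarRing Q] [Algebra ℂ Q]
variable {T : TracialState N} {U : Ultrafilter I} {π : (I → Elt N) → Q} {φ : Q → ℂ}

theorem bdd_bcfI (x : I →ᵇ Elt N) : BddFam (fun n => x n) := ⟨‖x‖, fun n => x.norm_coe_le_norm n⟩

/-- the model as a star homomorphism on bounded families -/
noncomputable def toHomI (h : CE.IsTracialUltrapower (fun x => T.τ x) U π φ) :
    (I →ᵇ Elt N) →⋆ₐ[ℂ] Q where
  toFun x := π fun n => x n
  map_one' := h.quot.one
  map_mul' x y := h.quot.mul _ _ (bdd_bcfI x) (bdd_bcfI y)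
  map_zero' := by
    have h2 : (fun n : I => ((0 : I →ᵇ Elt N) n)) = fun _ => (0 : ℂ) • (0 : Elt N) := by
      funext n
      rw [zero_smul]
      rfl
    rw [h2]
    exact (h.quot.smul 0 (fun _ => (0 : Elt N)) (bdd_const 0)).trans (zero_smul _ _)
  map_add' x y := h.quot.add _ _ (bdd_bcfI x) (bdd_bcfI y)
  commutes' c := by
    have h1 := h.quot.smul c (fun _ => (1 : Elt N)) (bdd_const 1)
    rw [h.quot.one] at h1
    rw [Algebra.algebraMap_eq_smul_one (A := Q), ← h1]
    congr 1
  map_star' x := h.quot.star _ (bdd_bcfI x)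

theorem toHomI_ultra (h : CE.IsTracialUltrapower (fun x => T.τ x) U π φ) :
    IsUltra T U (toHomI h) φ := by
  refine ⟨?_, ?_, ?_⟩
  · intro q
    obtain ⟨x, ⟨C, hC⟩, rfl⟩ := h.quot.surj q
    exact ⟨BoundedContinuousFunction.ofNormedAddCommGroupDiscrete x C hC, rfl⟩
  · intro x
    exact h.quot.ker _ (bdd_bcfI x)
  · intro x
    exact h.trace _ (bdd_bcfI x)

end

section

variable {H : Type*} [NormedAddCommGroup H] [InnerProductSpace ℂ H] [CompleteSpace H]
variable {N : VonNeumannAlgebra H}
variable {K : Type*} [NormedAddCommGroup K] [InnerProductSpace ℂ K] [CompleteSpace K]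
variable {M : VonNeumannAlgebra K}
variable {I J : Type*} {P Q : Type*} [Ring P] [StarRing P] [Algebra ℂ P]
  [Ring Q] [StarRing Q] [Algebra ℂ Q]
variable {T : TracialState N} {U : Ultrafilter I} {π : (I → Elt N) → P} {φ : P → ℂ}
variable {S : TracialState M} {V : Ultrafilter J} {ρ : (J → Elt M) → Q} {ψ : Q → ℂ}

/-- A star isomorphism between ultrapowers of II₁ factors preserves the traces. -/
theorem iso_trace (hP : CE.IsTracialUltrapower (fun x => T.τ x) U π φ)
    (hQ : CE.IsTracialUltrapower (fun x => S.τ x) V ρ ψ) (e : P ≃⋆ₐ[ℂ] Q)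
    (hN : HasTrivialCenter N) (hinf : ¬ FiniteDimensional ℂ (Elt N)) :
    ∀ x, ψ (e x) = φ x := by
  letI : TopologicalSpace I := ⊥
  haveI : DiscreteTopology I := ⟨rfl⟩
  haveI : StarModule ℂ P := quot_starModule hP.quot
  have hS := phi_trAlg hQ
  let χ : P →ₗ[ℂ] ℂ :=
    { toFun := fun x => ψ (e x)
      map_add' := fun x y => by rw [map_add, phi_add hQ]
      map_smul' := fun c x => by rw [map_smul, phi_smul hQ]; rfl }
  have hχ : IsTr χ := by
    refine ⟨?_, ?_, ?_⟩
    · show ψ (e 1) = 1
      rw [map_one]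
      exact hS.one
    · intro x y
      show ψ (e (x * y)) = ψ (e (y * x))
      rw [map_mul, map_mul]
      exact hS.comm _ _
    · intro x
      show 0 ≤ ψ (e (star x * x))
      rw [map_mul, map_star]
      exact hS.nonneg _
  have hL : LyapProp T.τ := lyapProp T (diffuse_of_factor T hN hinf)
  intro x
  exact trace_uniqueI (toHomI_ultra hP) hL hN χ hχ x

end

end Pool.Agent.Helper133.SM
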