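import Mathlib
import Pool.Agent.Helper278.CEIter
import Pool.Agent.Helper133.SM.Fin
import Pool.Agent.Helper133.SM.Iso

set_option autoImplicit false
set_option linter.unusedSectionVars false

open scoped InnerProductSpace Topology ComplexOrder BoundedContinuousFunction
open Filter

namespace Pool.Agent.Helper133.SM

open Pool.Agent.Helper278 Pool.Agent.Helper278.CE

universe w

theorem super_transfer {H K : Type} [NormedAddCommGroup H] [InnerProductSpace ℂ H]
    [CompleteSpace H] [NormedAddCommGroup K] [InnerProductSpace ℂ K] [CompleteSpace K]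
    (N : VonNeumannAlgebra H) (τ : Elt N → ℂ) (M : VonNeumannAlgebra K) (σ : Elt M → ℂ)
    (hN : IsIIOneFactor N τ) (hM : IsIIOneFactor M σ) (hNs : IsTwoSeparable τ)
    (hMs : IsTwoSeparable σ) (heq : ElemEquiv.{w} τ σ) (U V : Ultrafilter ℕ)
    (hU : ∀ n, {n} ∉ U) (hV : ∀ n, {n} ∉ V) (hs : IsSuperMcDuff U τ) : IsSuperMcDuff V σ := by
  let T : TracialState N := mkState N τ hN.normal hN.trace
  let S : TracialState M := mkState M σ hM.normal hM.trace
  obtain ⟨Q, _, _, _, _, π, φ, hπ, hII⟩ := hs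
  have h : CE.IsTracialUltrapower (fun x => T.τ x) U π φ := hπ
  have hPhi : Phi T (1 / 64) := phi_of hU h hNs hII
  have hPsi : ∀ m, 0 < m → Psi T m := fun m hm => psi_of hU h hII m hm
  obtain ⟨I, J, UI, VJ, P, R, _, _, _, _, _, _, π1, φ1, ρ1, ψ1, h1, h2, ⟨e⟩⟩ := heq
  have h1' : CE.IsTracialUltrapower (fun x => T.τ x) UI π1 φ1 := h1
  have h2' : CE.IsTracialUltrapower (fun x => S.τ x) VJ ρ1 ψ1 := h2
  have he := iso_trace h1' h2' e hN.center hN.infinite
  have hPhiS : Phi S (1 / 64 / 4) := phi_transfer h1' h2' e he (1 / 64) (by norm_num) hPhi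
  have hPsiS : ∀ m, 0 < m → Psi S m := fun m hm => psi_transfer h1' h2' e he m (hPsi m hm)
  obtain ⟨R', _, _, _, _, θ, ψ, hθ⟩ := exists_ultrapower S V
  have hq := plain_tracial hθ
  obtain ⟨u, hu⟩ := exists_dense S hMs
  refine ⟨R', inferInstance, inferInstance, inferInstance, inferInstance, plain θ, ψ, hq, ?_⟩
  exact abs_of_data hV hq (center_of_phi hV hq u hu (1 / 64 / 4) (by norm_num) hPhiS)
    (infinite_of_psi hV hq u hu hPsiS)

end Pool.Agent.Helper133.SM
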