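import Mathlib
import Pool.Agent.Helper133.SM.GP

set_option autoImplicit false

namespace Pool.Agent.Helper133.SM

/-- the group of finitary permutations of `ℕ` -/
def Sinf : Subgroup (Equiv.Perm ℕ) where
  carrier := {σ | ∃ m, ∀ x, m ≤ x → σ x = x}
  one_mem' := ⟨0, fun _ _ => rfl⟩
  mul_mem' := by
    rintro σ τ ⟨m, hm⟩ ⟨n, hn⟩
    refine ⟨max m n, fun x hx => ?_⟩
    rw [Equiv.Perm.mul_apply, hn x ((le_max_right _ _).trans hx),
      hm x ((le_max_left _ _).trans hx)]
  inv_mem' := by
    rintro σ ⟨m, hm⟩
    refine ⟨m, fun x hx => ?_⟩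
    rw [Equiv.Perm.inv_eq_iff_eq]
    exact (hm x hx).symm

/-- the permutations fixing all `x ≥ m` -/
def lev (m : ℕ) : Set Sinf := {σ | ∀ x, m ≤ x → (σ : Equiv.Perm ℕ) x = x}

/-- the flip of `[0,m)` and `[m,2m)` -/
def flipF (m x : ℕ) : ℕ := if x < m then x + m else if x < 2 * m then x - m else x

theorem flipF_flipF (m x : ℕ) : flipF m (flipF m x) = x := by
  unfold flipF
  split_ifs <;> omega

/-- the flip of `[0,m)` and `[m,2m)` -/
def flipP (m : ℕ) : Equiv.Perm ℕ := ⟨flipF m, flipF m, flipF_flipF m, flipF_flipF m⟩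

/-- the flip of `[m,M)` and `[M,2M-m)` -/
def moveF (m M x : ℕ) : ℕ := if m ≤ x ∧ x < M then x + (M - m) else
    if M ≤ x ∧ x < M + (M - m) then x - (M - m) else x

theorem moveF_moveF (m M x : ℕ) : moveF m M (moveF m M x) = x := by
  unfold moveF
  split_ifs <;> omega

/-- the flip of `[m,M)` and `[M,2M-m)` -/
def moveP (m M : ℕ) : Equiv.Perm ℕ := ⟨moveF m M, moveF m M, moveF_moveF m M, moveF_moveF m M⟩

/-- the cycle of length `n + 1` on `[m, m + n]` -/
def cycF (m n x : ℕ) : ℕ := if m ≤ x ∧ x < m + n then x + 1 else if x = m + n then m else x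

/-- the inverse cycle -/
def cycG (m n x : ℕ) : ℕ := if m < x ∧ x ≤ m + n then x - 1 else if x = m then m + n else x

theorem cycG_cycF (m n x : ℕ) : cycG m n (cycF m n x) = x := by
  unfold cycF cycG
  split_ifs <;> omega

theorem cycF_cycG (m n x : ℕ) : cycF m n (cycG m n x) = x := by
  unfold cycF cycG
  split_ifs <;> omega

/-- the cycle of length `n + 1` on `[m, m + n]` -/
def cycP (m n : ℕ) : Equiv.Perm ℕ := ⟨cycF m n, cycG m n, cycG_cycF m n, cycF_cycG m n⟩

theorem lev_lt {m : ℕ} {σ : Sinf} (hσ : σ ∈ lev m) {x : ℕ} (hx : x < m) :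
    (σ : Equiv.Perm ℕ) x < m := by
  by_contra hne
  push Not at hne
  have h1 := hσ _ hne
  have h2 := (σ : Equiv.Perm ℕ).injective h1
  omega

/-- permutations fixing `[0,m)` commute with the level `m` -/
theorem comm_of_fix {m : ℕ} (h : Sinf) (hh : ∀ x, x < m → (h : Equiv.Perm ℕ) x = x) (σ : Sinf)
    (hσ : σ ∈ lev m) : h * σ * h⁻¹ = σ := by
  rw [mul_inv_eq_iff_eq_mul]
  apply Subtype.ext
  ext x
  show (h : Equiv.Perm ℕ) ((σ : Equiv.Perm ℕ) x) = (σ : Equiv.Perm ℕ) ((h : Equiv.Perm ℕ) x)
  by_cases hx : x < m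
  · rw [hh x hx, hh _ (lev_lt hσ hx)]
  · push Not at hx
    have h1 : m ≤ (h : Equiv.Perm ℕ) x := by
      by_contra hne
      push Not at hne
      have h2 := hh _ hne
      have h3 := (h : Equiv.Perm ℕ).injective h2
      omega
    rw [hσ x hx, hσ _ h1]

theorem levels_Sinf : Levels Sinf lev := by
  refine ⟨?_, ?_, ?_, ?_, ?_, ?_⟩
  · intro m n hmn σ hσ x hx
    exact hσ x (hmn.trans hx)
  · intro m x _
    rfl
  · rintro ⟨σ, m, hm⟩
    exact ⟨m, hm⟩
  · intro m
    refine ⟨⟨flipP m, 2 * m, fun x hx => ?_⟩, ?_⟩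
    · show flipF m x = x
      unfold flipF
      split_ifs <;> omega
    · intro g hg hk
      apply Subtype.ext
      ext x
      show (g : Equiv.Perm ℕ) x = x
      by_cases hx : m ≤ x
      · exact hg x hx
      · have h1 : flipP m x = x + m := by
          show flipF m x = x + m
          unfold flipF
          rw [if_pos (by omega)]
        have h2 := hk (x + m) (by omega)
        have h3 : flipP m ((g : Equiv.Perm ℕ) ((flipP m)⁻¹ (x + m))) = x + m := h2
        rw [← h1, show (flipP m)⁻¹ (flipP m x) = x from Equiv.symm_apply_apply _ _] at h3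
        exact (flipP m).injective h3
  · intro m M
    refine ⟨⟨moveP m M, M + (M - m), fun x hx => ?_⟩, ?_, ?_⟩
    · show moveF m M x = x
      unfold moveF
      split_ifs <;> omega
    · intro g hg
      refine comm_of_fix _ (fun x hx => ?_) g hg
      show moveF m M x = x
      unfold moveF
      split_ifs <;> omega
    · intro g hg hgm hcon
      apply hgm
      intro x hx
      by_cases hxM : M ≤ x
      · exact hg x hxM
      · have h1 : moveP m M x = x + (M - m) := by
          show moveF m M x = x + (M - m)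
          unfold moveF
          rw [if_pos (by omega)]
        have h2 := hcon (x + (M - m)) (by omega)
        have h3 : moveP m M ((g : Equiv.Perm ℕ) ((moveP m M)⁻¹ (x + (M - m)))) =
          x + (M - m) := h2
        rw [← h1, show (moveP m M)⁻¹ (moveP m M x) = x from Equiv.symm_apply_apply _ _] at h3
        exact (moveP m M).injective h3
  · intro m n
    refine ⟨⟨cycP m n, m + n + 1, fun x hx => ?_⟩, ?_, ?_⟩
    · show cycF m n x = x
      unfold cycF
      split_ifs <;> omega
    · intro g hg
      refine comm_of_fix _ (fun x hx => ?_) g hg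
      show cycF m n x = x
      unfold cycF
      split_ifs <;> omega
    · intro l hl hln hcon
      have h1 : ∀ l, l ≤ n → ((cycP m n) ^ l) m = m + l := by
        intro l
        induction l with
        | zero => intro _; rfl
        | succ l ih =>
          intro hl
          rw [pow_succ', Equiv.Perm.mul_apply, ih (by omega)]
          show cycF m n (m + l) = m + (l + 1)
          unfold cycF
          rw [if_pos (by omega)]
          omega
      have h2 := congrArg (fun z : Sinf => (z : Equiv.Perm ℕ) m) hcon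
      have h3 : ((cycP m n) ^ l) m = m := h2
      rw [h1 l hln.le] at h3
      omega

instance : Infinite Sinf := by
  rw [← not_finite_iff_infinite]
  intro hfin
  have h1 : Function.Injective (fun m : ℕ => (⟨cycP 0 m, 0 + m + 1, fun x hx => by
      show cycF 0 m x = x
      unfold cycF
      split_ifs <;> omega⟩ : Sinf)) := by
    intro m n hmn
    have h2 : cycP 0 m = cycP 0 n := congrArg Subtype.val hmn
    have h3 := congrArg (fun σ : Equiv.Perm ℕ => σ⁻¹ 0) h2
    have h4 : cycG 0 m 0 = cycG 0 n 0 := h3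
    simpa [cycG] using h4
  exact not_injective_infinite_finite _ h1

instance : Countable Sinf := by
  classical
  have hex : ∀ σ : Sinf, ∃ m, ∀ x, m ≤ x → (σ : Equiv.Perm ℕ) x = x := fun σ => σ.2
  choose m hm using hex
  refine Function.Injective.countable (f := fun σ : Sinf =>
    (List.range (m σ)).map (σ : Equiv.Perm ℕ)) ?_
  intro σ τ hστ
  have h1 : (List.range (m σ)).map (σ : Equiv.Perm ℕ) = (List.range (m τ)).map (τ : Equiv.Perm ℕ) :=
    hστ
  have h2 : m σ = m τ := by
    have := congrArg List.length h1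
    simpa using this
  apply Subtype.ext
  ext x
  by_cases hx : m σ ≤ x
  · rw [hm σ x hx, hm τ x (h2 ▸ hx)]
  · push Not at hx
    have h3 := congrArg (fun l : List ℕ => l[x]?) h1
    simp only [List.getElem?_map] at h3
    rw [List.getElem?_range hx, List.getElem?_range (h2 ▸ hx)] at h3
    simpa using h3

end Pool.Agent.Helper133.SM
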