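import Mathlib
import Pool.Agent.Helper133.SM.Main
import Pool.Agent.Helper133.SM.SInf

set_option autoImplicit false
set_option linter.unusedSectionVars false

open scoped InnerProductSpace Topology ComplexOrder BoundedContinuousFunction
open Filter

namespace Pool.Agent.Helper133.SM

open Pool.Agent.Helper278 Pool.Agent.Helper278.CE

section

variable {H K : Type} [NormedAddCommGroup H] [InnerProductSpace ℂ H] [CompleteSpace H]
  [NormedAddCommGroup K] [InnerProductSpace ℂ K] [CompleteSpace K]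
variable {N : VonNeumannAlgebra H} {M : VonNeumannAlgebra K}
variable {Q Q' : Type} [Ring Q] [StarRing Q] [Algebra ℂ Q] [StarModule ℂ Q]
  [Ring Q'] [StarRing Q'] [Algebra ℂ Q'] [StarModule ℂ Q']
variable {T : TracialState N} {V : Ultrafilter ℕ} {π : (ℕ → Elt N) → Q} {φ : Q → ℂ}
variable {S : TracialState M} {U : Ultrafilter ℕ} {π' : (ℕ → Elt M) → Q'} {φ' : Q' → ℂ}

/-- The relative commutant of an ultrapower in its own ultrapower is trivial. -/
theorem relComm_trivial (hD : Dix T) (hV : ∀ n, {n} ∉ V)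
    (h : CE.IsTracialUltrapower (fun x => T.τ x) V π φ)
    (e : Q ≃⋆ₐ[ℂ] Elt M) (he : ∀ q, S.τ (e q) = φ q)
    (h' : CE.IsTracialUltrapower (fun x => S.τ x) U π' φ') (q : Q') (hq : q ∈ relComm π') :
    ∃ c : ℂ, q = c • (1 : Q') := by
  have hS := phi_trAlg h'
  obtain ⟨X, hX, rfl⟩ := h'.quot.surj q
  have hx : ∀ n, ∃ x : ℕ → Elt N, BddFam x ∧ e (π x) = X n := by
    intro n
    obtain ⟨x, hx, hxn⟩ := h.quot.surj (e.symm (X n))
    exact ⟨x, hx, by rw [hxn, e.apply_symm_apply]⟩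
  choose x hxb hxe using hx
  choose y hy using fun i : ℕ => hD (i + 1) (fun k => x k i) (1 / ((i : ℝ) + 1)) (by positivity)
  set Y : Elt M := e (π fun i => (y i : Elt N)) with hY
  have hn2 : ∀ p : Q, n2 S.τ (e p) = n2 φ p := by
    intro p
    unfold n2
    rw [← map_star, ← map_mul, he]
  have key : ∀ n, n2 S.τ (X n - S.τ (X n) • (1 : Elt M)) ≤ n2 S.τ (X n * Y - Y * X n) := by
    intro n
    have e1 : n2 S.τ (X n - S.τ (X n) • (1 : Elt M)) =
        n2 φ (π (x n) - φ (π (x n)) • (1 : Q)) := by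
      rw [← hn2, map_sub, map_smul, map_one, ← hxe, he]
    have e2 : n2 S.τ (X n * Y - Y * X n) =
        n2 φ (π (x n) * π (fun i => (y i : Elt N)) - π (fun i => (y i : Elt N)) * π (x n)) := by
      rw [← hn2, map_sub, map_mul, map_mul, ← hxe]
    rw [e1, e2, ← comm_pi h (hxb n) (bdd_unit y)]
    have t1 := tendsto_cent h (hxb n)
    have t2 := tendsto_n2 h (bdd_sub (bdd_mul (hxb n) (bdd_unit y))
      (bdd_mul (bdd_unit y) (hxb n)))
    have t3 : Tendsto (fun i : ℕ => 1 / ((i : ℝ) + 1)) V (𝓝 0) :=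
      (tendsto_one_div_add_atTop_nhds_zero_nat (𝕜 := ℝ)).mono_left (U_le_atTop hV)
    have t4 := t2.add t3
    rw [add_zero] at t4
    have ev : ∀ᶠ i : ℕ in (V : Filter ℕ), n ≤ i := U_le_atTop hV (eventually_ge_atTop n)
    exact le_of_tendsto_of_tendsto t1 t4 (ev.mono fun i hi => hy i ⟨n, Nat.lt_succ_of_le hi⟩)
  have h1 := tendsto_n2 h' (bdd_sub (bdd_mul hX (bdd_const Y)) (bdd_mul (bdd_const Y) hX))
  rw [comm_pi h' hX (bdd_const Y), ← (mem_relComm h' _).1 hq Y, sub_self] at h1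
  have h2 : n2 φ' (0 : Q') = 0 := hS.n2_zero
  rw [h2] at h1
  have h3 := le_of_tendsto_of_tendsto' (tendsto_cent h' hX) h1 key
  exact ⟨φ' (π' X), sub_eq_zero.1 (eq_zero_of_n2 hS (le_antisymm h3 (n2_nonneg _ _)))⟩

theorem not_super (hD : Dix T) (hV : ∀ n, {n} ∉ V)
    (h : CE.IsTracialUltrapower (fun x => T.τ x) V π φ)
    (e : Q ≃⋆ₐ[ℂ] Elt M) (he : ∀ q, S.τ (e q) = φ q) :
    ¬ IsSuperMcDuff U (fun x : Elt M => S.τ x) := by
  rintro ⟨Q', _, _, _, _, π', φ', h', hII⟩
  apply infinite_of_abs hII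
  have h1 : ∀ q : relComm π', ∃ c : ℂ, c • (1 : relComm π') = q := by
    intro q
    obtain ⟨c, hc⟩ := relComm_trivial hD hV h e he h' (q : Q') q.2
    exact ⟨c, Subtype.ext hc.symm⟩
  exact Module.Finite.of_surjective (LinearMap.toSpanSingleton ℂ (relComm π') 1) h1

end

/-- a separable super McDuff factor, and a nonseparable factor elementarily equivalent to it
that is not super McDuff -/
theorem nonseparable : ∃ (H K : Type) (_ : NormedAddCommGroup H) (_ : InnerProductSpace ℂ H)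
    (_ : CompleteSpace H) (_ : NormedAddCommGroup K) (_ : InnerProductSpace ℂ K)
    (_ : CompleteSpace K) (N : VonNeumannAlgebra H) (τ : Elt N → ℂ) (M : VonNeumannAlgebra K)
    (σ : Elt M → ℂ), IsIIOneFactor N τ ∧ IsTwoSeparable τ ∧ IsIIOneFactor M σ ∧
      ElemEquiv.{0} τ σ ∧ ∀ U : Ultrafilter ℕ, (∀ n, {n} ∉ U) →
        IsSuperMcDuff U τ ∧ ¬ IsSuperMcDuff U σ := by
  obtain ⟨V, hV⟩ : ∃ V : Ultrafilter ℕ, ∀ n, {n} ∉ V :=
    ⟨Filter.hyperfilter ℕ, fun n => (Set.finite_singleton n).notMem_hyperfilter⟩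
  set T : TracialState (LG Sinf) := TS Sinf with hT
  have hNf := isIIOne_G levels_Sinf
  obtain ⟨Q, _, _, _, _, θ, φ, hθ⟩ := exists_ultrapower T V
  have hd : IsDiffuse (LG Sinf) := diffuse_of_factor T hNf.center hNf.infinite
  have hL : LyapProp T.τ := lyapProp T hd
  obtain ⟨K, _, _, _, j, hj1, hj2⟩ := exists_gns (sigma_trAlg hθ)
  have hB := ball_ultra hV hθ
  have hII : IsIIOneFactor (MM j) (tauM j) := isIIOne_MM (sigma_trAlg hθ) hj1 hj2 hB
    (central_scalar hθ hL hNf.center) (infinite_Q hθ hNf.infinite)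
  let S : TracialState (MM j) := mkState (MM j) (tauM j) hII.normal hII.trace
  refine ⟨EllTwo Sinf, K, inferInstance, inferInstance, inferInstance, inferInstance,
    inferInstance, inferInstance, LG Sinf, fun x => T.τ x, MM j, tauM j, hNf, sep_G, hII, ?_, ?_⟩
  · obtain ⟨I, J, U1, V1, P, R, _, _, _, _, _, _, π1, φ1, ρ1, ψ1, -, -, h1, h2, e, -⟩ :=
      elemEquiv hV hθ hj1 hj2 hII V hV
    exact ⟨I, J, U1, V1, P, R, inferInstance, inferInstance, inferInstance, inferInstance,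
      inferInstance, inferInstance, π1, φ1, ρ1, ψ1, h1, h2, ⟨e⟩⟩
  · intro U hU
    constructor
    · obtain ⟨R', _, _, _, _, θ', ψ, hθ'⟩ := exists_ultrapower T U
      have hq := plain_tracial hθ'
      obtain ⟨u, hu⟩ := exists_dense T sep_G
      refine ⟨R', inferInstance, inferInstance, inferInstance, inferInstance, plain θ', ψ, hq, ?_⟩
      exact abs_of_data hU hq (center_of_phi hU hq u hu (1 / 64) (by norm_num)
        (phi_G levels_Sinf)) (infinite_of_psi hU hq u hu fun m _ => psi_G levels_Sinf m)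
    · exact not_super (T := T) (S := S) (U := U) (dix_G levels_Sinf) hV (plain_tracial hθ)
        (LmEquiv (sigma_trAlg hθ) hj1 hj2 hB)
        (fun q => tauM_LmEquiv (sigma_trAlg hθ) hj1 hj2 hB q)

end Pool.Agent.Helper133.SM
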