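import Mathlib
import Pool.Agent.Helper133.SM.Defs

set_option autoImplicit false

/-!
The two named statements of `MP_9c3fb4_an.Full`.
-/

namespace Pool.Agent.Helper133.SM

open Pool.Agent.Helper278 Pool.Agent.Helper278.CE

universe w

/-- Being super McDuff is invariant under elementary equivalence of separable II₁ factors `N`, `M`
(and does not depend on the nonprincipal ultrafilter used in its definition). The ultrafilters in
`ElemEquiv` are on arbitrary index sets in the universe `w`. -/
def SeparableInvariance : Prop :=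
  ∀ (U V : Ultrafilter ℕ), (∀ n, {n} ∉ U) → (∀ n, {n} ∉ V) →
    ∀ (H K : Type) [NormedAddCommGroup H] [InnerProductSpace ℂ H] [CompleteSpace H]
      [NormedAddCommGroup K] [InnerProductSpace ℂ K] [CompleteSpace K]
      (N : VonNeumannAlgebra H) (τ : Elt N → ℂ) (M : VonNeumannAlgebra K) (σ : Elt M → ℂ),
      IsIIOneFactor N τ → IsIIOneFactor M σ → IsTwoSeparable τ → IsTwoSeparable σ →
      ElemEquiv.{w} τ σ → IsSuperMcDuff U τ → IsSuperMcDuff V σ

/-- Without separability the implication fails: there are a separable II₁ factor `N` and a II₁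
factor `M`, elementarily equivalent to `N`, such that for every nonprincipal ultrafilter on `ℕ` the
factor `N` is super McDuff and `M` is not. -/
def FailsNonseparably : Prop :=
  ∃ (H K : Type) (_ : NormedAddCommGroup H) (_ : InnerProductSpace ℂ H) (_ : CompleteSpace H)
    (_ : NormedAddCommGroup K) (_ : InnerProductSpace ℂ K) (_ : CompleteSpace K)
    (N : VonNeumannAlgebra H) (τ : Elt N → ℂ) (M : VonNeumannAlgebra K) (σ : Elt M → ℂ),
    IsIIOneFactor N τ ∧ IsTwoSeparable τ ∧ IsIIOneFactor M σ ∧ ElemEquiv.{0} τ σ ∧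
      ∀ U : Ultrafilter ℕ, (∀ n, {n} ∉ U) → IsSuperMcDuff U τ ∧ ¬ IsSuperMcDuff U σ

end Pool.Agent.Helper133.SM
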